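import Pool.Agent.Zk49.SF.Red

set_option autoImplicit false

/-! # The structure of the symmetry group -/

namespace Pool.Agent.Zk49.SF

open Matrix
open Pool.Agent.R503.SIC

/-- free action on the nonzero vectors -/
theorem Dick.Rep.card_dvd {F : Type*} [Field F] [Fintype F] {G : Type*} [Group G] [Finite G]
    (R : Dick.Rep G F) : Nat.card G ∣ Fintype.card F ^ 2 - 1 := by
  classical
  have hne : ∀ (g : G) (v : Fin 2 → F), v ≠ 0 → R.ρ g *ᵥ v ≠ 0 := by
    intro g v hv h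
    apply hv
    have : R.ρ g⁻¹ *ᵥ (R.ρ g *ᵥ v) = v := by
      rw [Matrix.mulVec_mulVec, ← map_mul, inv_mul_cancel, map_one, Matrix.one_mulVec]
    rw [← this, h, Matrix.mulVec_zero]
  letI act : MulAction G {v : Fin 2 → F // v ≠ 0} :=
    { smul := fun g x => ⟨R.ρ g *ᵥ x.1, hne g x.1 x.2⟩
      one_smul := fun x => Subtype.ext (by
        change R.ρ 1 *ᵥ x.1 = x.1
        rw [map_one, Matrix.one_mulVec])
      mul_smul := fun g h x => Subtype.ext (by
        change R.ρ (g * h) *ᵥ x.1 = R.ρ g *ᵥ (R.ρ h *ᵥ x.1)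
        rw [map_mul, Matrix.mulVec_mulVec]) }
  have hstab : ∀ x : {v : Fin 2 → F // v ≠ 0}, MulAction.stabilizer G x = ⊥ := by
    intro x
    rw [Subgroup.eq_bot_iff_forall]
    intro g hg
    rw [MulAction.mem_stabilizer_iff] at hg
    have h1 : R.ρ g *ᵥ x.1 = x.1 := congrArg Subtype.val hg
    by_contra hg1
    apply R.tr g hg1
    have h2 : (R.ρ g - 1).det = 0 := by
      apply Matrix.exists_mulVec_eq_zero_iff.1
      exact ⟨x.1, x.2, by rw [Matrix.sub_mulVec, Matrix.one_mulVec, h1, sub_self]⟩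
    have h3 := R.det g
    rw [Matrix.det_fin_two] at h2 h3
    rw [Matrix.trace_fin_two]
    simp at h2
    linear_combination h3 - h2
  haveI : Fintype G := Fintype.ofFinite G
  have h1 := MulAction.card_eq_sum_card_group_div_card_stabilizer G {v : Fin 2 → F // v ≠ 0}
  have h2 : ∀ ω : MulAction.orbitRel.Quotient G {v : Fin 2 → F // v ≠ 0},
      Fintype.card G / Fintype.card (MulAction.stabilizer G (Quotient.out ω)) =
        Nat.card G := by
    intro ω
    rw [← Nat.card_eq_fintype_card, ← Nat.card_eq_fintype_card, hstab, Subgroup.card_bot,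
      Nat.div_one]
  rw [Finset.sum_congr rfl fun ω _ => h2 ω, Finset.sum_const, smul_eq_mul,
    Fintype.card_subtype_compl, Fintype.card_fun, Fintype.card_fin] at h1
  simp only [Fintype.card_subtype_eq] at h1
  rw [h1]
  exact Dvd.intro_left _ rfl

variable {d : ℕ} [NeZero d]

/-- **the structure of the symmetry group** -/
theorem struct {ψ : ZMod d → ℂ} (hψ : Fid ψ) {q k m : ℕ} (hqp : q.Prime) (hq5 : 5 ≤ q) (hk : 1 ≤ k)
    (hd : d = q ^ k * m) (hqm : ¬ q ∣ m) (hm : m + 2 < q ^ k)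
    (hr : k = 1 ∨ ∀ r : ℕ, r.Prime → r ∣ m → ¬ q ∣ r ^ 2 - 1) :
    Nat.card (Hs ψ) ∣ q ^ 2 - 1 ∧ (Odd (Nat.card (Hs ψ)) → IsCyclic (Hs ψ) ∧
      (Nat.card (Hs ψ) ∣ q - 1 ∨ Nat.card (Hs ψ) ∣ q + 1)) := by
  haveI := Fact.mk hqp
  have hm0 : m ≠ 0 := by
    rintro rfl
    exact hqm (dvd_zero q)
  have hr' : ∀ r : ℕ, r.Prime → r ∣ m → ¬ q ∣ r ^ 2 - 1 := by
    intro r hrp hrm
    rcases hr with hk1 | hr
    · intro h
      rw [hk1, pow_one] at hm
      have h1 := Nat.le_of_dvd (Nat.pos_of_ne_zero hm0) hrm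
      have h2 : r ^ 2 - 1 = (r + 1) * (r - 1) := by
        have := Nat.sq_sub_sq r 1
        rwa [one_pow] at this
      rw [h2] at h
      have h3 := hrp.two_le
      rcases (Nat.Prime.dvd_mul hqp).1 h with h4 | h4
      · have := Nat.le_of_dvd (by omega) h4
        omega
      · have := Nat.le_of_dvd (by omega) h4
        omega
    · exact hr r hrp hrm
  have hq : q ∣ d := by
    rw [hd]
    exact (dvd_pow_self q (by omega)).mul_right m
  have hN : ¬ q ∣ Nat.card (Hs ψ) := by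
    apply not_dvd hψ hqp hq5
    intro r hrp hrd h
    rw [hd] at hrd
    rcases (Nat.Prime.dvd_mul hrp).1 hrd with h1 | h1
    · have h2 : r = q := (Nat.prime_dvd_prime_iff_eq hrp hqp).1 (hrp.dvd_of_dvd_pow h1)
      rw [h2] at h
      have h3 : q ∣ 1 := (Nat.dvd_sub_iff_right (Nat.one_le_pow 2 q hqp.pos)
            (dvd_pow_self q two_ne_zero)).1 h
      exact hqp.one_lt.ne' (Nat.dvd_one.1 h3)
    · exact hr' r hrp h1 h
  let R := rep hψ hqp hk hd hqm hm hN hq
  refine ⟨?_, fun hodd => ?_⟩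
  · have := R.card_dvd
    rwa [ZMod.card] at this
  · exact R.cyclic (by omega) hodd

/-- a generator of the symmetry group -/
theorem gen_of_cyclic {ψ : ZMod d → ℂ} (hψ : Fid ψ) (h : IsCyclic (Hs ψ)) :
    ∃ A, Sy ψ A ∧ ∀ B, Sy ψ B → ∃ n : ℕ, B = A ^ n := by
  obtain ⟨σ, hσ⟩ := h.exists_generator
  obtain ⟨A, hA, hAi⟩ := σ.2
  refine ⟨A, hA, fun B hB => ?_⟩
  obtain ⟨τ, hτ⟩ := hB.ind
  have hmem : τ ∈ Hs ψ := ⟨B, hB, hτ⟩
  obtain ⟨n, hn⟩ := (Submonoid.mem_powers_iff _ _).1 ((mem_powers_iff_mem_zpowers).2 (hσ ⟨τ, hmem⟩))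
  have hn' : σ.1 ^ n = τ := congrArg Subtype.val hn
  refine ⟨n, ?_⟩
  have h1 : Ind (A ^ n) τ := by
    rw [← hn']
    exact hAi.pow n
  have hS := hA.pow n
  have h3 : B * star (A ^ n) = 1 := by
    apply one_of_id hψ (hB.mul hS.star)
    have h4 := hτ.mul (h1.inv hS.uni hS.uni')
    have h5 : (⇑τ ∘ ⇑(τ⁻¹ : Equiv.Perm (ZMod d × ZMod d))) =
        ⇑(1 : Equiv.Perm (ZMod d × ZMod d)) := by
      funext x
      exact τ.apply_symm_apply x
    rw [← h5]
    exact h4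
  calc B = B * (star (A ^ n) * (A ^ n)) := by rw [hS.uni, mul_one]
    _ = A ^ n := by rw [← mul_assoc, h3, one_mul]

end Pool.Agent.Zk49.SF
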