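import Pool.Agent.Zk49.SF.NoP

set_option autoImplicit false

/-! # From symmetries to normalized symmetries -/

namespace Pool.Agent.Zk49.SF

open Finset Matrix
open Pool.Agent.R503.SIC
open scoped ComplexConjugate

variable {d : ℕ} [NeZero d]

theorem toSy {ψ : ZMod d → ℂ} (hψ : Fid ψ) {U : Matrix (ZMod d) (ZMod d) ℂ} (h1 : star U * U = 1)
    (h2 : Nrm U) {l : ℂ} (hl : U *ᵥ ψ = l • ψ) : l ≠ 0 ∧ Sy ψ (l⁻¹ • U) := by
  have h3 : conj l * l = 1 := by
    have h4 : ex ψ (star U * U) = conj l * l * ex ψ 1 := by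
      unfold ex
      rw [← Matrix.mulVec_mulVec, Matrix.dotProduct_mulVec]
      have h5 := Matrix.star_mulVec U ψ
      rw [hl] at h5
      have h6 : star ψ ᵥ* star U = star (l • ψ) := h5.symm
      rw [h6, hl, star_smul, smul_dotProduct, dotProduct_smul, Matrix.one_mulVec, smul_eq_mul,
        smul_eq_mul]
      simp only [RCLike.star_def]
      ring
    rw [h1, ex_one hψ, mul_one] at h4
    exact h4.symm
  have hl0 : l ≠ 0 := by
    rintro rfl
    simp at h3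
  refine ⟨hl0, ?_, ?_, ?_⟩
  · rw [star_smul, Matrix.smul_mul, Matrix.mul_smul, h1, smul_smul]
    have : star l⁻¹ * l⁻¹ = 1 := by
      rw [show star l⁻¹ = (conj l)⁻¹ from by simp, ← mul_inv, h3, inv_one]
    rw [this, one_smul]
  · intro a b
    obtain ⟨a', b', c, hc⟩ := h2 a b
    refine ⟨a', b', c, ?_⟩
    rw [Matrix.smul_mul, hc, Matrix.mul_smul, smul_smul, smul_smul, mul_comm]
  · rw [Matrix.smul_mulVec, hl, smul_smul, inv_mul_cancel₀ hl0, one_smul]

/-- everything about one symmetry -/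
theorem package {ψ : ZMod d → ℂ} (hψ : Fid ψ) {U : Matrix (ZMod d) (ZMod d) ℂ}
    (h1 : star U * U = 1) (h2 : Nrm U) {l : ℂ} (hl : U *ᵥ ψ = l • ψ) :
    ∃ σ ∈ Hs ψ, (∀ p : V d, (∃ c : ℂ, U * D p * star U = c • D p) ↔ p ∈ Fx σ) ∧
      ((∀ s : ℂ, U ≠ s • 1) → σ ≠ 1) ∧
      (∀ n : ℕ, (∃ s : ℂ, U ^ n = s • 1) → σ ^ n = 1) := by
  obtain ⟨hl0, hA⟩ := toSy hψ h1 h2 hl
  have h1' : U * star U = 1 := mul_eq_one_comm.1 h1
  have hU : IsUnit U := ⟨⟨U, star U, h1', h1⟩, rfl⟩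
  obtain ⟨σ, hσ⟩ := hA.ind
  have hUA : U = l • (l⁻¹ • U) := by rw [smul_smul, mul_inv_cancel₀ hl0, one_smul]
  have hσU : Ind U σ := by
    rw [hUA]; exact hσ.smul l
  refine ⟨σ, ⟨_, hA, hσ⟩, ?_, ?_, ?_⟩
  · intro p
    rw [mem_Fx]
    obtain ⟨c, hc⟩ := hσU p
    constructor
    · rintro ⟨c', hc'⟩
      have h3 : U * D p = c' • (D p * U) := by
        have h4 : U * D p * star U * U = c' • D p * U := by rw [hc']
        rw [mul_assoc, h1, mul_one, Matrix.smul_mul] at h4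
        exact h4
      exact Ind.unique hU hc h3
    · intro hp
      rw [hp] at hc
      exact ⟨c, by rw [hc, Matrix.smul_mul, mul_assoc, h1', mul_one]⟩
  · intro hns h3
    rw [h3] at hσ
    have h4 := one_of_id hψ hA hσ
    exact hns l (by rw [← h4]; exact hUA)
  · rintro n ⟨s, hs⟩
    have h3 : Ind (U ^ n) (σ ^ n : Equiv.Perm (V d)) := Ind.pow hσU n
    have h4 : Ind (U ^ n) id := by rw [hs]; exact Ind.one.smul s
    exact Equiv.coe_fn_injective (Ind.ext (hU.pow n) h3 h4)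

end Pool.Agent.Zk49.SF
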