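import Pool.Agent.Zk49.SF.Grp

set_option autoImplicit false

/-! # Automorphisms of `(ℤ/d)²` of prime order -/

namespace Pool.Agent.Zk49.SF

open Finset

variable {d : ℕ} [NeZero d]

/-- linear symplectic permutations -/
structure Lin (σ : Equiv.Perm (V d)) : Prop where
  add : ∀ x y, σ (x + y) = σ x + σ y
  sy : ∀ x y, sy (σ x) (σ y) = sy x y

omit [NeZero d] in
theorem Lin.zero {σ : Equiv.Perm (V d)} (h : Lin σ) : σ 0 = 0 := by
  have := h.add 0 0
  rw [add_zero] at this
  exact left_eq_add.1 this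

omit [NeZero d] in
theorem Lin.nsmul {σ : Equiv.Perm (V d)} (h : Lin σ) (n : ℕ) (x : V d) : σ (n • x) = n • σ x := by
  induction n with
  | zero => rw [zero_smul, zero_smul, h.zero]
  | succ n ih => rw [succ_nsmul, succ_nsmul, h.add, ih]

omit [NeZero d] in
theorem Lin.neg {σ : Equiv.Perm (V d)} (h : Lin σ) (x : V d) : σ (-x) = -σ x := by
  have := h.add x (-x)
  rw [add_neg_cancel, h.zero] at this
  exact (neg_eq_of_add_eq_zero_right this.symm).symm

omit [NeZero d] in
theorem Lin.pow {σ : Equiv.Perm (V d)} (h : Lin σ) (n : ℕ) : Lin (σ ^ n) := by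
  induction n with
  | zero => exact ⟨fun _ _ => rfl, fun _ _ => rfl⟩
  | succ n ih =>
    rw [pow_succ]
    exact ⟨fun x y => by simp only [Equiv.Perm.mul_apply, h.add, ih.add],
      fun x y => by simp only [Equiv.Perm.mul_apply, ih.sy, h.sy]⟩

theorem Hs_lin {ψ : ZMod d → ℂ} {σ : Equiv.Perm (V d)} (hσ : σ ∈ Hs ψ) : Lin σ :=
  ⟨Hs_add hσ, Hs_sy hσ⟩

/-- torsion -/
def Tor (d n : ℕ) : AddSubgroup (V d) where
  carrier := {x | n • x = 0}
  add_mem' := by
    intro a b ha hb
    rw [Set.mem_setOf_eq] at *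
    rw [smul_add, ha, hb, add_zero]
  zero_mem' := by rw [Set.mem_setOf_eq, smul_zero]
  neg_mem' := by
    intro a ha
    rw [Set.mem_setOf_eq] at *
    rw [smul_neg, ha, neg_zero]

omit [NeZero d] in
theorem mem_Tor {n : ℕ} {x : V d} : x ∈ Tor d n ↔ n • x = 0 := Iff.rfl

/-- fixed points -/
def Fg {σ : Equiv.Perm (V d)} (h : Lin σ) : AddSubgroup (V d) where
  carrier := {x | σ x = x}
  add_mem' := by
    intro a b ha hb
    rw [Set.mem_setOf_eq] at *
    rw [h.add, ha, hb]
  zero_mem' := h.zero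
  neg_mem' := by
    intro a ha
    rw [Set.mem_setOf_eq] at *
    rw [h.neg, ha]

omit [NeZero d] in
theorem mem_Fg {σ : Equiv.Perm (V d)} {h : Lin σ} {x : V d} : x ∈ Fg h ↔ σ x = x := Iff.rfl

theorem card_tor1 {n : ℕ} (hn : n ∣ d) :
    (Finset.univ.filter fun x : ZMod d => n • x = 0).card = n := by
  have hd0 : d ≠ 0 := NeZero.ne d
  have hn0 : n ≠ 0 := fun h => hd0 (Nat.eq_zero_of_zero_dvd (h ▸ hn))
  rw [← sum_card_addOrderOf_eq_card_nsmul_eq_zero hn0]
  rw [Finset.sum_congr rfl fun m hm => IsAddCyclic.card_addOrderOf_eq_totient (α := ZMod d)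
    (d := m) (by rw [ZMod.card]; exact (Nat.dvd_of_mem_divisors hm).trans hn)]
  exact Nat.sum_totient n

omit [NeZero d] in
theorem card_sub {H : AddSubgroup (V d)} (T : Finset (V d)) (h : ∀ x, x ∈ T ↔ x ∈ H) :
    Nat.card H = T.card := Nat.subtype_card T h

theorem card_tor {n : ℕ} (hn : n ∣ d) : Nat.card (Tor d n) = n ^ 2 := by
  have h1 : Nat.card (Tor d n) = (Finset.univ.filter fun x : V d => n • x = 0).card :=
    card_sub _ fun x => by rw [Finset.mem_filter, mem_Tor]; simp
  have h2 : (Finset.univ.filter fun x : V d => n • x = 0) =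
      (Finset.univ.filter fun x : ZMod d => n • x = 0) ×ˢ
        (Finset.univ.filter fun x : ZMod d => n • x = 0) := by
    ext x
    simp only [Finset.mem_filter, Finset.mem_univ, true_and, Finset.mem_product, Prod.ext_iff,
      Prod.smul_fst, Prod.smul_snd, Prod.fst_zero, Prod.snd_zero]
  rw [h1, h2, Finset.card_product, card_tor1 hn, sq]

theorem card_Fg {σ : Equiv.Perm (V d)} (h : Lin σ) : Nat.card (Fg h) = (Fx σ).card :=
  card_sub _ fun x => by rw [mem_Fx, mem_Fg]

theorem natcard_V : Nat.card (V d) = d ^ 2 := by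
  rw [Nat.card_eq_fintype_card, card_V]

/-- counting fixed points modulo `p` -/
theorem fix_mod {α : Type*} [Fintype α] [DecidableEq α] {σ : Equiv.Perm α} {p : ℕ} (hp : p.Prime)
    (hσ : σ ^ p = 1) (T : Finset α) (hT : ∀ x, x ∈ T ↔ σ x ∈ T) :
    (T.filter fun x => σ x = x).card ≡ T.card [MOD p] := by
  have := Fact.mk hp
  obtain ⟨τ, hτ⟩ : ∃ τ : Equiv.Perm {x // x ∈ T}, τ = σ.subtypePerm (fun x => (hT x).symm) := ⟨_, rfl⟩
  have h1 : τ ^ p = 1 := by
    rw [hτ, Equiv.Perm.subtypePerm_pow]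
    ext x
    simp [hσ]
  have h2 := Equiv.Perm.card_compl_support_modEq (p := p) (n := 1) (σ := τ) (by rw [pow_one]; exact h1)
  rw [Fintype.card_coe] at h2
  have h3 : (τ.supportᶜ).card = (T.filter fun x => σ x = x).card := by
    refine Finset.card_bij (fun x _ => (x : α)) ?_ ?_ ?_
    · intro x hx
      rw [Finset.mem_compl, Equiv.Perm.mem_support, not_not] at hx
      rw [Finset.mem_filter]
      refine ⟨x.2, ?_⟩
      have := congrArg Subtype.val hx
      rw [hτ] at this
      exact this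
    · intro x _ y _ hxy
      exact Subtype.ext hxy
    · intro x hx
      rw [Finset.mem_filter] at hx
      refine ⟨⟨x, hx.1⟩, ?_, rfl⟩
      rw [Finset.mem_compl, Equiv.Perm.mem_support, not_not, hτ]
      exact Subtype.ext hx.2
  rw [← h3]
  exact h2

/-- fixed points in the torsion -/
theorem fix_tor {σ : Equiv.Perm (V d)} (h : Lin σ) {p : ℕ} (hp : p.Prime) (hσ : σ ^ p = 1) {n : ℕ}
    (hn : n ∣ d) : Nat.card (Tor d n ⊓ Fg h : AddSubgroup (V d)) ≡ n ^ 2 [MOD p] := by
  have h1 := fix_mod hp hσ (Finset.univ.filter fun x : V d => n • x = 0) (by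
    intro x
    simp only [Finset.mem_filter, Finset.mem_univ, true_and]
    rw [← h.nsmul]
    constructor
    · intro h2; rw [h2, h.zero]
    · intro h2; rw [← h.zero] at h2; exact σ.injective h2)
  have h2 : (Finset.univ.filter fun x : V d => n • x = 0).card = n ^ 2 := by
    rw [← card_tor hn]
    exact (card_sub _ fun x => by rw [Finset.mem_filter, mem_Tor]; simp).symm
  have h3 : Nat.card (Tor d n ⊓ Fg h : AddSubgroup (V d)) =
      ((Finset.univ.filter fun x : V d => n • x = 0).filter fun x => σ x = x).card :=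
    card_sub _ fun x => by
      rw [Finset.mem_filter, Finset.mem_filter, AddSubgroup.mem_inf, mem_Tor, mem_Fg]; simp
  rw [h3, ← h2]
  exact h1

theorem eq_zero_of_coprime {A : Type*} [AddCommGroup A] {m n : ℕ} (h : Nat.Coprime m n) {x : A}
    (hm : m • x = 0) (hn : n • x = 0) : x = 0 := by
  have h1 := addOrderOf_dvd_of_nsmul_eq_zero hm
  have h2 := addOrderOf_dvd_of_nsmul_eq_zero hn
  have h3 := Nat.eq_one_of_dvd_coprimes h h1 h2
  rwa [AddMonoid.addOrderOf_eq_one_iff] at h3

omit [NeZero d] in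
theorem d_smul (x : V d) : d • x = 0 := by
  ext <;> simp

/-- `σ` of prime order `p` is trivial on the `q`-torsion -/
theorem triv_q {σ : Equiv.Perm (V d)} (h : Lin σ) {p : ℕ} (hp : p.Prime) (hσ : σ ^ p = 1) {q : ℕ}
    (hq : q.Prime) (hqp : q ≠ p) (hpq : q ∣ d → ¬ p ∣ q ^ 2 - 1) {x : V d} (hx : q • x = 0) :
    σ x = x := by
  by_cases hqd : q ∣ d
  · have h1 := fix_tor h hp hσ hqd
    have h2 : Nat.card (Tor d q ⊓ Fg h : AddSubgroup (V d)) ∣ q ^ 2 := by
      rw [← card_tor hqd]
      exact AddSubgroup.card_dvd_of_le inf_le_left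
    obtain ⟨i, hi, hc⟩ := (Nat.dvd_prime_pow hq).1 h2
    rw [hc] at h1
    have hq1 : 1 ≤ q ^ 2 := Nat.one_le_pow _ _ hq.pos
    have hi2 : i = 2 := by
      by_contra hi2
      have : i = 0 ∨ i = 1 := by omega
      rcases this with h0 | h0
      · rw [h0, pow_zero] at h1
        exact hpq hqd ((Nat.modEq_iff_dvd' hq1).1 h1)
      · rw [h0, pow_one] at h1
        have h3 := (Nat.modEq_iff_dvd' (Nat.le_self_pow two_ne_zero q)).1 h1
        have h4 : q ^ 2 - q = q * (q - 1) := by rw [sq, Nat.mul_sub, mul_one]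
        rw [h4] at h3
        rcases (Nat.Prime.dvd_mul hp).1 h3 with h5 | h5
        · exact hqp ((Nat.prime_dvd_prime_iff_eq hp hq).1 h5).symm
        · apply hpq hqd
          have h6 : q ^ 2 - 1 = (q - 1) * (q + 1) := by
            have := hq.pos
            zify [hq1, this]
            ring
          rw [h6]
          exact Dvd.dvd.mul_right h5 _
    rw [hi2, ← card_tor hqd] at hc
    have h5 : Tor d q ⊓ Fg h = Tor d q := AddSubgroup.eq_of_le_of_card_ge inf_le_left hc.ge
    have h6 : x ∈ Tor d q ⊓ Fg h := by rw [h5]; exact hx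
    exact (AddSubgroup.mem_inf.1 h6).2
  · have h1 : x = 0 := by
      apply eq_zero_of_coprime ((Nat.Prime.coprime_iff_not_dvd hq).2 hqd) hx
      exact d_smul x
    rw [h1, h.zero]

omit [NeZero d] in
/-- iterates when the displacement is fixed -/
theorem pow_fix {σ : Equiv.Perm (V d)} (h : Lin σ) {x y : V d} (hx : σ x = x + y) (hy : σ y = y)
    (n : ℕ) : (σ ^ n) x = x + n • y := by
  induction n with
  | zero => rw [pow_zero, Equiv.Perm.one_apply, zero_smul, add_zero]
  | succ n ih => rw [pow_succ', Equiv.Perm.mul_apply, ih, h.add, hx, h.nsmul, hy, succ_nsmul']; abel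

/-- `σ` of prime order `p` is trivial on the prime-to-`p` part -/
theorem triv_prime {σ : Equiv.Perm (V d)} (h : Lin σ) {p : ℕ} (hp : p.Prime) (hσ : σ ^ p = 1)
    (hq : ∀ q : ℕ, q.Prime → q ∣ d → ¬ p ∣ q ^ 2 - 1) (n : ℕ) :
    Nat.Coprime n p → ∀ x : V d, n • x = 0 → σ x = x := by
  induction n using Nat.recOnMul with
  | zero =>
    intro h0
    exfalso
    rw [Nat.coprime_zero_left] at h0
    exact hp.one_lt.ne' h0
  | one => intro _ x hx; rw [one_smul] at hx; rw [hx, h.zero]
  | prime q hqq =>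
    intro hc x hx
    have : q ≠ p := by
      rintro rfl
      rw [Nat.coprime_self] at hc
      exact hp.one_lt.ne' hc
    exact triv_q h hp hσ hqq this (hq q hqq) hx
  | mul a b ha hb =>
    intro hc x hx
    have hca := Nat.Coprime.coprime_mul_right hc
    have hcb := Nat.Coprime.coprime_mul_left hc
    have h1 : σ (b • x) = b • x := by
      apply ha hca
      rw [← mul_smul]; exact hx
    obtain ⟨y, hy⟩ : ∃ y, y = σ x - x := ⟨_, rfl⟩
    have h2 : b • y = 0 := by
      rw [hy, smul_sub, ← h.nsmul, h1, sub_self]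
    have h3 : σ y = y := hb hcb y h2
    have h4 : σ x = x + y := by rw [hy]; abel
    have h5 := pow_fix h h4 h3 p
    rw [hσ, Equiv.Perm.one_apply, left_eq_add] at h5
    have h6 : y = 0 := eq_zero_of_coprime hcb h2 h5
    rw [h4, h6, add_zero]

/-- Cayley–Hamilton -/
theorem ch {σ : Equiv.Perm (V d)} (h : Lin σ) : ∃ t : ZMod d, ∀ x, σ (σ x) + x = t • σ x := by
  have hsm : ∀ (c : ZMod d) (x : V d), σ (c • x) = c • σ x := by
    intro c x
    have h1 : ∀ z : V d, c • z = c.val • z := by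
      intro z
      conv_lhs => rw [← ZMod.natCast_zmod_val c]
      ext <;> simp [nsmul_eq_mul]
    rw [h1, h.nsmul, h1]
  rcases hX : σ ((1 : ZMod d), (0 : ZMod d)) with ⟨α, γ⟩
  rcases hZ : σ ((0 : ZMod d), (1 : ZMod d)) with ⟨β, δ⟩
  have hσ : ∀ a b : ZMod d, σ (a, b) = (α * a + β * b, γ * a + δ * b) := by
    intro a b
    have h1 : (a, b) = a • ((1 : ZMod d), (0 : ZMod d)) + b • ((0 : ZMod d), (1 : ZMod d)) := by
      ext <;> simp
    rw [h1, h.add, hsm, hsm, hX, hZ]
    ext <;> simp [mul_comm]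
  have hdet : α * δ - β * γ = 1 := by
    have h1 := h.sy ((1 : ZMod d), (0 : ZMod d)) ((0 : ZMod d), (1 : ZMod d))
    rw [hX, hZ] at h1
    simp only [SF.sy] at h1
    linear_combination -h1
  refine ⟨α + δ, fun x => ?_⟩
  obtain ⟨a, b⟩ := x
  rw [hσ, hσ]
  ext
  · simp only [Prod.fst_add, Prod.smul_fst, smul_eq_mul]
    linear_combination (-a) * hdet
  · simp only [Prod.snd_add, Prod.smul_snd, smul_eq_mul]
    linear_combination (-b) * hdet

end Pool.Agent.Zk49.SF
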