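import Pool.Agent.Zk49.SF.Arith

set_option autoImplicit false

/-! # Automorphisms of `(ℤ/d)²` of prime order `p ≥ 5`: the `p`-part -/

namespace Pool.Agent.Zk49.SF

open Finset

variable {d : ℕ} [NeZero d]

theorem val_smul (c : ZMod d) (z : V d) : c • z = c.val • z := by
  conv_lhs => rw [← ZMod.natCast_zmod_val c]
  ext <;> simp [nsmul_eq_mul]

/-- endomorphism -/
def En {σ : Equiv.Perm (V d)} (h : Lin σ) : Module.End ℤ (V d) :=
  AddMonoidHom.toIntLinearMap { toFun := σ, map_zero' := h.zero, map_add' := h.add }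

omit [NeZero d] in
theorem En_apply {σ : Equiv.Perm (V d)} (h : Lin σ) (x : V d) : En h x = σ x := rfl

omit [NeZero d] in
theorem En_pow {σ : Equiv.Perm (V d)} (h : Lin σ) (n : ℕ) (x : V d) :
    (En h ^ n) x = (σ ^ n) x := by
  induction n with
  | zero => rw [pow_zero, pow_zero]; rfl
  | succ n ih => rw [pow_succ', pow_succ', Module.End.mul_apply, ih, En_apply, Equiv.Perm.mul_apply]

omit [NeZero d] in
theorem bin {σ : Equiv.Perm (V d)} (h : Lin σ) {p : ℕ} (hσ : σ ^ p = 1) (x : V d) :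
    ∑ m ∈ Finset.range (p + 1), (p.choose m) • ((En h - 1) ^ m) x = x := by
  have h1 : En h ^ p = 1 := LinearMap.ext fun x => by rw [En_pow, hσ]; rfl
  have h2 := (Commute.one_right (En h - 1)).add_pow p
  rw [sub_add_cancel, h1] at h2
  have h3 := LinearMap.congr_fun h2 x
  rw [LinearMap.sum_apply, Module.End.one_apply] at h3
  refine Eq.trans ?_ h3.symm
  refine Finset.sum_congr rfl fun m _ => ?_
  rw [one_pow, mul_one, Module.End.mul_apply, Module.End.natCast_apply, map_nsmul]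

theorem sdiv {σ : Equiv.Perm (V d)} {p : ℕ} (hp : p.Prime) {t : ZMod d}
    (ht : ∀ x, σ (σ x) + x = t • σ x) {y : V d} (hy0 : y ≠ 0) (hpy : p • y = 0) (hy : σ y = y) :
    ∃ s : ZMod d, t - 2 = p * s := by
  have h1 := ht y
  rw [hy, hy] at h1
  have h2 : (t - 2) • y = 0 := by
    rw [sub_smul, ← h1, ofNat_smul_eq_nsmul, two_smul, sub_self]
  rw [val_smul] at h2
  by_cases h3 : p ∣ (t - 2).val
  · obtain ⟨k, hk⟩ := h3
    refine ⟨(k : ZMod d), ?_⟩
    rw [← ZMod.natCast_zmod_val (t - 2), hk]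
    push_cast; ring
  · exact absurd (eq_zero_of_coprime ((Nat.Prime.coprime_iff_not_dvd hp).2 h3) hpy h2) hy0

omit [NeZero d] in
theorem En_sub {σ : Equiv.Perm (V d)} (h : Lin σ) (x : V d) : (En h - 1) x = σ x - x := rfl

/-- the square of `σ - 1` is divisible by `p` -/
theorem sq_div {σ : Equiv.Perm (V d)} (h : Lin σ) {p : ℕ} (hp : p.Prime) {y : V d} (hy0 : y ≠ 0)
    (hpy : p • y = 0) (hy : σ y = y) : ∃ M : V d → V d, (∀ (n : ℕ) (x : V d), n • x = 0 → n • M x = 0) ∧
      ∀ x, (En h - 1) ((En h - 1) x) = p • M x := by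
  obtain ⟨t, ht⟩ := ch h
  obtain ⟨s, hs⟩ := sdiv hp ht hy0 hpy hy
  refine ⟨fun x => s • σ x, fun n x hx => ?_, fun x => ?_⟩
  · change n • (s • σ x) = 0
    rw [val_smul, smul_comm, ← h.nsmul, hx, h.zero, smul_zero]
  · change (En h - 1) ((En h - 1) x) = p • (s • σ x)
    have h1 : p • (s • σ x) = ((p : ZMod d) * s) • σ x := by
      rw [mul_smul, Nat.cast_smul_eq_nsmul]
    rw [h1, ← hs, sub_smul, ← ht x, ofNat_smul_eq_nsmul, En_sub, En_sub]
    have h2 : σ (σ x - x) = σ (σ x) - σ x := by rw [sub_eq_add_neg, h.add, h.neg]; abel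
    rw [h2, two_smul]
    abel

/-- descent -/
theorem descent {σ : Equiv.Perm (V d)} (h : Lin σ) {p : ℕ} (hp : p.Prime) (hp5 : 5 ≤ p)
    (hσ : σ ^ p = 1) {M : V d → V d} (hM : ∀ (n : ℕ) (x : V d), n • x = 0 → n • M x = 0)
    (hN : ∀ x, (En h - 1) ((En h - 1) x) = p • M x) {k i : ℕ}
    (hyp : ∀ x : V d, p ^ k • x = 0 → p ^ (i + 2) • (En h - 1) x = 0) :
    ∀ x : V d, p ^ k • x = 0 → p ^ (i + 1) • (En h - 1) x = 0 := by
  obtain ⟨N, hNdef⟩ : ∃ N, N = En h - 1 := ⟨_, rfl⟩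
  rw [← hNdef] at hN hyp ⊢
  have hT : ∀ x, p ^ k • x = 0 → ∀ m : ℕ, p ^ k • (N ^ m) x = 0 := by
    intro x hx m
    rw [← map_nsmul, hx, map_zero]
  have hT1 : ∀ x, p ^ k • x = 0 → p ^ k • N x = 0 := by
    intro x hx
    rw [← map_nsmul, hx, map_zero]
  have h3 : ∀ x, p ^ k • x = 0 → p ^ (i + 1) • N (N (N x)) = 0 := by
    intro x hx
    rw [hN x, map_nsmul, ← mul_smul, ← pow_succ]
    exact hyp _ (hM _ _ hx)
  have hpp : ∀ x, p ^ k • x = 0 → p ^ i • ((p.choose p) • (N ^ p) x) = 0 := by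
    intro x hx
    obtain ⟨m, hm⟩ := Nat.exists_eq_add_of_le hp5
    have h4 : (N ^ p) x = p ^ 2 • N (M (M ((N ^ m) x))) := by
      have h5 : (N ^ p) x = N (N (N (N (N ((N ^ m) x))))) := by
        rw [hm, pow_add]
        simp only [Module.End.mul_apply, pow_succ, pow_zero, one_mul]
      rw [h5, hN ((N ^ m) x), map_nsmul, map_nsmul, hN (M _), map_nsmul, map_nsmul, ← mul_smul, sq]
    rw [Nat.choose_self, one_smul, h4, ← mul_smul, ← pow_add]
    exact hyp _ (hM _ _ (hM _ _ (hT x hx m)))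
  have gl : ∀ x, p ^ k • x = 0 →
      (∀ m, 2 ≤ m → m < p → p ^ (i + 1) • (N ^ m) x = 0) → p ^ (i + 1) • N x = 0 := by
    intro x hx hm
    have h5 := congrArg (fun z => p ^ i • z) (bin h hσ x)
    simp only [← hNdef] at h5
    rw [Finset.smul_sum] at h5
    have h6 : ∑ m ∈ Finset.range 2, p ^ i • (p.choose m) • (N ^ m) x =
        ∑ m ∈ Finset.range (p + 1), p ^ i • (p.choose m) • (N ^ m) x := by
      apply Finset.sum_subset
      · intro m hm'
        rw [Finset.mem_range] at hm' ⊢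
        omega
      · intro m hm1 hm2
        rw [Finset.mem_range] at hm1 hm2
        rcases Nat.lt_or_ge m p with h7 | h7
        · obtain ⟨c, hc⟩ := hp.dvd_choose_self (by omega : m ≠ 0) h7
          have h9 : p ^ i • (p * c) • (N ^ m) x = c • (p ^ (i + 1) • (N ^ m) x) := by
            rw [smul_smul, smul_smul]
            congr 1; ring
          rw [hc, h9, hm m (by omega) h7, smul_zero]
        · have h8 : m = p := by omega
          rw [h8]
          exact hpp x hx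
    rw [← h6, Finset.sum_range_succ, Finset.sum_range_one] at h5
    simp only [pow_zero, Nat.choose_zero_right, one_smul, Module.End.one_apply, pow_one,
      Nat.choose_one_right, add_eq_left] at h5
    rw [pow_succ, mul_smul]
    exact h5
  have hA : ∀ y, p ^ k • y = 0 → p ^ (i + 1) • N (N y) = 0 := by
    intro y hy
    apply gl (N y) (hT1 y hy)
    intro m hm _
    obtain ⟨l, rfl⟩ := Nat.exists_eq_add_of_le hm
    have h5 : (N ^ (2 + l)) (N y) = N (N (N ((N ^ l) y))) := by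
      have h6 : N ^ (2 + l) * N = N * (N * (N * N ^ l)) := by
        rw [← pow_succ', ← pow_succ', ← pow_succ', ← pow_succ]
        congr 1; omega
      have := LinearMap.congr_fun h6 y
      simpa only [Module.End.mul_apply] using this
    rw [h5]
    exact h3 _ (hT y hy l)
  intro x hx
  apply gl x hx
  intro m hm _
  obtain ⟨l, rfl⟩ := Nat.exists_eq_add_of_le hm
  have h5 : (N ^ (2 + l)) x = N (N ((N ^ l) x)) := by
    rw [pow_add]
    simp only [Module.End.mul_apply, pow_succ, pow_zero, one_mul]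
  rw [h5]
  exact hA _ (hT x hx l)

/-- a nonzero fixed vector of order `p` -/
theorem exists_fix {σ : Equiv.Perm (V d)} (h : Lin σ) {p : ℕ} (hp : p.Prime) (hσ : σ ^ p = 1)
    (hpd : p ∣ d) : ∃ y : V d, y ≠ 0 ∧ p • y = 0 ∧ σ y = y := by
  have h1 := fix_tor h hp hσ hpd
  by_contra hcon
  push Not at hcon
  have h2 : (Tor d p ⊓ Fg h : AddSubgroup (V d)) = ⊥ := by
    rw [AddSubgroup.eq_bot_iff_forall]
    intro x hx
    rw [AddSubgroup.mem_inf, mem_Tor, mem_Fg] at hx
    by_contra hx0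
    exact hcon x hx0 hx.1 hx.2
  rw [h2, AddSubgroup.card_bot] at h1
  have h3 : p ∣ p ^ 2 - 1 := (Nat.modEq_iff_dvd' (Nat.one_le_pow _ _ hp.pos)).1 h1
  have h4 : p ∣ 1 := by
    have h5 : p ∣ p ^ 2 := dvd_pow_self p two_ne_zero
    have h6 := (Nat.dvd_sub_iff_right (Nat.one_le_pow 2 p hp.pos) h5).1 h3
    exact h6
  exact hp.one_lt.ne' (Nat.dvd_one.1 h4)

/-- **`p (σ - 1) = 0`** on the `p`-part -/
theorem p_part {σ : Equiv.Perm (V d)} (h : Lin σ) {p : ℕ} (hp : p.Prime) (hp5 : 5 ≤ p)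
    (hσ : σ ^ p = 1) (hpd : p ∣ d) (k : ℕ) (x : V d) (hx : p ^ k • x = 0) :
    p • (σ x - x) = 0 := by
  obtain ⟨y, hy0, hpy, hy⟩ := exists_fix h hp hσ hpd
  obtain ⟨M, hM, hN⟩ := sq_div h hp hy0 hpy hy
  have h1 : ∀ t : ℕ, (∀ x : V d, p ^ k • x = 0 → p ^ (1 + t) • (En h - 1) x = 0) →
      ∀ x : V d, p ^ k • x = 0 → p ^ 1 • (En h - 1) x = 0 := by
    intro t
    induction t with
    | zero => intro h2; exact h2
    | succ t ih =>
      intro h2
      apply ih
      have h3 := descent h hp hp5 hσ hM hN (k := k) (i := t) (by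
        intro x hx
        have := h2 x hx
        rwa [show 1 + (t + 1) = t + 2 by ring] at this)
      intro x hx
      have := h3 x hx
      rwa [show t + 1 = 1 + t by ring] at this
  have h2 := h1 k (by
    intro x hx
    rw [pow_add, mul_smul, ← map_nsmul, hx, map_zero, smul_zero]) x hx
  rwa [pow_one] at h2

/-- **`p (σ - 1) = 0`** -/
theorem p_all {σ : Equiv.Perm (V d)} (h : Lin σ) {p : ℕ} (hp : p.Prime) (hp5 : 5 ≤ p)
    (hσ : σ ^ p = 1) (hpd : p ∣ d) (hq : ∀ q : ℕ, q.Prime → q ∣ d → ¬ p ∣ q ^ 2 - 1) (x : V d) :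
    p • (σ x - x) = 0 := by
  obtain ⟨k, m, hm, hd⟩ := Nat.exists_eq_pow_mul_and_not_dvd (NeZero.ne d) p hp.ne_one
  have hc : Nat.Coprime m (p ^ k) :=
    Nat.Coprime.pow_right k ((Nat.Prime.coprime_iff_not_dvd hp).2 hm).symm
  have hcp : Nat.Coprime m p := ((Nat.Prime.coprime_iff_not_dvd hp).2 hm).symm
  have hbez : ∃ a b : ℤ, a * m + b * (p ^ k : ℕ) = 1 := by
    have := Nat.isCoprime_iff_coprime.2 hc
    exact this
  obtain ⟨a, b, hab⟩ := hbez
  have hsub : ∀ u v : V d, σ (u + v) - (u + v) = (σ u - u) + (σ v - v) := by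
    intro u v; rw [h.add]; abel
  have hx : x = (a * m) • x + (b * (p ^ k : ℕ)) • x := by
    rw [← add_smul, hab, one_smul]
  have h1 : p ^ k • ((a * m) • x) = 0 := by
    have : p ^ k • ((a * (m : ℤ)) • x) = a • (d • x) := by
      rw [← natCast_zsmul, ← natCast_zsmul x d, smul_smul, smul_smul]
      congr 1
      rw [hd]; push_cast; ring
    rw [this, d_smul, smul_zero]
  have h2 : m • ((b * (p ^ k : ℕ)) • x) = 0 := by
    have : m • ((b * ((p ^ k : ℕ) : ℤ)) • x) = b • (d • x) := by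
      rw [← natCast_zsmul, ← natCast_zsmul x d, smul_smul, smul_smul]
      congr 1
      rw [hd]; push_cast; ring
    rw [this, d_smul, smul_zero]
  rw [hx, hsub, smul_add, p_part h hp hp5 hσ hpd k _ h1,
    triv_prime h hp hσ hq m hcp _ h2, sub_self, smul_zero, add_zero]

end Pool.Agent.Zk49.SF
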