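import Mathlib

set_option autoImplicit false

/-! # Finite groups of odd order in `SL(2, q)` without unipotent elements are cyclic -/

namespace Pool.Agent.Zk49.SF.Dick

open Matrix

open scoped commutatorElement

variable {F : Type*} [Field F]

/-- the centralizer of a matrix which is not scalar -/
theorem centralizer {M X : Matrix (Fin 2) (Fin 2) F} (hM : ∀ c : F, M ≠ c • 1) (h : X * M = M * X) :
    ∃ a b : F, X = a • 1 + b • M := by
  have e00 := congrFun (congrFun h 0) 0
  have e01 := congrFun (congrFun h 0) 1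
  have e10 := congrFun (congrFun h 1) 0
  simp only [Matrix.mul_apply, Fin.sum_univ_two] at e00 e01 e10
  by_cases h01 : M 0 1 = 0
  · by_cases h10 : M 1 0 = 0
    · have hne : M 0 0 - M 1 1 ≠ 0 := by
        intro h0
        apply hM (M 0 0)
        ext i j
        fin_cases i <;> fin_cases j <;> simp [h01, h10]
        exact (sub_eq_zero.1 h0).symm
      refine ⟨X 0 0 - (X 0 0 - X 1 1) / (M 0 0 - M 1 1) * M 0 0,
        (X 0 0 - X 1 1) / (M 0 0 - M 1 1), ?_⟩
      have h1 : X 0 1 = 0 := by
        rw [h01] at e01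
        have : X 0 1 * (M 0 0 - M 1 1) = 0 := by linear_combination -e01
        exact (mul_eq_zero.1 this).resolve_right hne
      have h2 : X 1 0 = 0 := by
        rw [h10] at e10
        have : X 1 0 * (M 0 0 - M 1 1) = 0 := by linear_combination e10
        exact (mul_eq_zero.1 this).resolve_right hne
      ext i j
      fin_cases i <;> fin_cases j <;> simp [h01, h10, h1, h2]
      field_simp
      ring
    · refine ⟨X 0 0 - X 1 0 / M 1 0 * M 0 0, X 1 0 / M 1 0, ?_⟩
      have h1 : X 0 1 = X 1 0 / M 1 0 * M 0 1 := by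
        field_simp
        linear_combination e00
      have h2 : X 1 1 = X 0 0 - X 1 0 / M 1 0 * M 0 0 + X 1 0 / M 1 0 * M 1 1 := by
        field_simp
        linear_combination e10
      have h3 : X 1 0 = X 1 0 / M 1 0 * M 1 0 := by field_simp
      ext i j
      fin_cases i <;> fin_cases j
      · simp
      · simpa using h1
      · simpa using h3
      · simpa using h2
  · refine ⟨X 0 0 - X 0 1 / M 0 1 * M 0 0, X 0 1 / M 0 1, ?_⟩
    have h1 : X 1 0 = X 0 1 / M 0 1 * M 1 0 := by
      field_simp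
      linear_combination -e00
    have h2 : X 1 1 = X 0 0 - X 0 1 / M 0 1 * M 0 0 + X 0 1 / M 0 1 * M 1 1 := by
      field_simp
      linear_combination -e01
    have h3 : X 0 1 = X 0 1 / M 0 1 * M 0 1 := by field_simp
    ext i j
    fin_cases i <;> fin_cases j
    · simp
    · simpa using h3
    · simpa using h1
    · simpa using h2

/-- the situation -/
structure Rep (G : Type*) [Group G] (F : Type*) [Field F] where
  ρ : G →* Matrix (Fin 2) (Fin 2) F
  det : ∀ g, (ρ g).det = 1
  tr : ∀ g, g ≠ 1 → (ρ g).trace ≠ 2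

variable {G : Type*} [Group G]

theorem Rep.inj (R : Rep G F) : Function.Injective R.ρ := by
  intro g h hgh
  by_contra hne
  apply R.tr (g * h⁻¹) (fun h1 => hne (mul_inv_eq_one.1 h1))
  rw [map_mul, hgh, ← map_mul, mul_inv_cancel, map_one]
  simp [Matrix.trace]

theorem tr_sq (M : Matrix (Fin 2) (Fin 2) F) : (M * M).trace = M.trace ^ 2 - 2 * M.det := by
  simp only [Matrix.trace_fin_two, Matrix.det_fin_two, Matrix.mul_apply, Fin.sum_univ_two]
  ring

/-- odd order: squares are injective -/
theorem sq_one [Finite G] (hodd : Odd (Nat.card G)) {g : G} (h : g ^ 2 = 1) : g = 1 := by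
  have h1 : orderOf g ∣ 2 := orderOf_dvd_of_pow_eq_one h
  have h2 : orderOf g ∣ Nat.card G := orderOf_dvd_natCard g
  have h3 := Nat.eq_one_of_dvd_coprimes hodd.coprime_two_left h1 h2
  exact orderOf_eq_one_iff.1 h3

theorem Rep.tr' [Finite G] (hodd : Odd (Nat.card G)) (R : Rep G F) {g : G} (hg : g ≠ 1) :
    (R.ρ g).trace ≠ -2 := by
  intro h
  have h1 : g ^ 2 ≠ 1 := fun h2 => hg (sq_one hodd h2)
  apply R.tr _ h1
  rw [pow_two, map_mul, tr_sq, R.det, h]
  ring

theorem Rep.nonscalar [Finite G] (hodd : Odd (Nat.card G)) (R : Rep G F) {g : G} (hg : g ≠ 1)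
    (c : F) : R.ρ g ≠ c • 1 := by
  intro h
  have h1 := R.det g
  rw [h] at h1
  have h2 : (c - 1) * (c + 1) = 0 := by
    rw [Matrix.det_smul, Matrix.det_one, Fintype.card_fin] at h1
    linear_combination h1
  rcases mul_eq_zero.1 h2 with h3 | h3
  · apply R.tr g hg
    rw [h]
    have : c = 1 := sub_eq_zero.1 h3
    simp [this]
  · apply R.tr' hodd hg
    rw [h]
    have : c = -1 := eq_neg_of_add_eq_zero_left h3
    simp [this]

/-- centralizers are commutative -/
theorem Rep.comm [Finite G] (hodd : Odd (Nat.card G)) (R : Rep G F) {g h k : G} (hg : g ≠ 1)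
    (h1 : Commute h g) (h2 : Commute k g) : Commute h k := by
  obtain ⟨a, b, hab⟩ := centralizer (R.nonscalar hodd hg)
    (show R.ρ h * R.ρ g = R.ρ g * R.ρ h by rw [← map_mul, h1.eq, map_mul])
  obtain ⟨c, e, hce⟩ := centralizer (R.nonscalar hodd hg)
    (show R.ρ k * R.ρ g = R.ρ g * R.ρ k by rw [← map_mul, h2.eq, map_mul])
  apply R.inj
  rw [map_mul, map_mul, hab, hce]
  simp only [add_mul, mul_add, Matrix.smul_mul, Matrix.mul_smul, one_mul, mul_one, smul_smul]
  rw [mul_comm c a, mul_comm c b, mul_comm e a, mul_comm e b]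
  abel

/-- an element of odd order whose square commutes with `x` commutes with `x` -/
theorem comm_of_sq [Finite G] (hodd : Odd (Nat.card G)) {s x : G} (h : Commute (s ^ 2) x) :
    Commute s x := by
  obtain ⟨m, hm⟩ := hodd
  have h1 : (s ^ 2) ^ (m + 1) = s := by
    rw [← pow_mul, show 2 * (m + 1) = Nat.card G + 1 by omega, pow_succ, pow_card_eq_one', one_mul]
  rw [← h1]
  exact h.pow_left (m + 1)

theorem ch2 {M : Matrix (Fin 2) (Fin 2) F} (h : M.det = 1) :
    (M.trace • (1 : Matrix (Fin 2) (Fin 2) F) + (-1 : F) • M) * M = 1 := by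
  rw [Matrix.det_fin_two] at h
  rw [← Matrix.ext_iff]
  simp only [Fin.forall_fin_two]
  refine ⟨⟨?_, ?_⟩, ?_, ?_⟩ <;>
    simp [Matrix.mul_apply, Fin.sum_univ_two, Matrix.trace_fin_two, Matrix.add_apply] <;>
    first | linear_combination h | ring

/-- conjugate elements which commute are equal -/
theorem Rep.conj [Finite G] (hodd : Odd (Nat.card G)) (h2 : (2 : F) ≠ 0) (R : Rep G F) {x s : G}
    (hx : x ≠ 1) (h : Commute (s * x * s⁻¹) x) : Commute s x := by
  obtain ⟨a, b, hab⟩ := centralizer (R.nonscalar hodd hx)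
    (show R.ρ (s * x * s⁻¹) * R.ρ x = R.ρ x * R.ρ (s * x * s⁻¹) by
      rw [← map_mul, h.eq, map_mul])
  have htr : (R.ρ (s * x * s⁻¹)).trace = (R.ρ x).trace := by
    rw [map_mul, Matrix.trace_mul_comm, ← map_mul, ← mul_assoc, inv_mul_cancel, one_mul]
  have hdet := R.det (s * x * s⁻¹)
  rw [hab] at htr hdet
  obtain ⟨τ, hτ⟩ : ∃ τ, τ = (R.ρ x).trace := ⟨_, rfl⟩
  have hdx := R.det x
  rw [Matrix.det_fin_two] at hdx
  have e1 : 2 * a + b * τ = τ := by
    rw [Matrix.trace_add, Matrix.trace_smul, Matrix.trace_smul, Matrix.trace_one,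
      Fintype.card_fin, smul_eq_mul, smul_eq_mul] at htr
    rw [hτ]
    linear_combination htr
  have e2 : a ^ 2 + a * b * τ + b ^ 2 = 1 := by
    rw [← hdet, hτ]
    simp [Matrix.trace_fin_two, Matrix.det_fin_two]
    linear_combination (-b ^ 2) * hdx
  have e3 : (1 - b ^ 2) * ((τ - 2) * (τ + 2)) = 0 := by
    have h3 : 4 * a ^ 2 + 4 * (a * b * τ) + 4 * b ^ 2 = 4 := by linear_combination 4 * e2
    have h4 : 2 * a = τ * (1 - b) := by linear_combination e1
    linear_combination h3 - (2 * a + τ * (1 - b) + 2 * b * τ) * h4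
  have hne : (τ - 2) * (τ + 2) ≠ 0 := by
    apply mul_ne_zero
    · rw [hτ]; exact sub_ne_zero.2 (R.tr x hx)
    · rw [hτ]
      intro h3
      exact R.tr' hodd hx (eq_neg_of_add_eq_zero_left h3)
  have e4 : (1 - b) * (1 + b) = 0 := by
    have := (mul_eq_zero.1 e3).resolve_right hne
    linear_combination this
  rcases mul_eq_zero.1 e4 with h3 | h3
  · -- `b = 1`
    have hb : b = 1 := (sub_eq_zero.1 h3).symm
    have ha : a = 0 := by
      rw [hb] at e1
      have : 2 * a = 0 := by linear_combination e1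
      exact (mul_eq_zero.1 this).resolve_left h2
    rw [ha, hb, zero_smul, zero_add, one_smul] at hab
    have h4 := R.inj hab
    have h5 : s * x = x * s := by
      rw [← mul_inv_eq_iff_eq_mul]; exact h4
    exact h5
  · -- `b = -1`
    have hb : b = -1 := by linear_combination h3
    have ha : a = τ := by
      rw [hb] at e1
      have : 2 * (a - τ) = 0 := by linear_combination e1
      exact sub_eq_zero.1 ((mul_eq_zero.1 this).resolve_left h2)
    have h4 : R.ρ (s * x * s⁻¹) * R.ρ x = 1 := by
      rw [hab, ha, hb, hτ]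
      exact ch2 (R.det x)
    have h5 : s * x * s⁻¹ = x⁻¹ := by
      rw [← map_mul, ← map_one R.ρ] at h4
      exact eq_inv_of_mul_eq_one_left (R.inj h4)
    have h6 : Commute (s ^ 2) x := by
      have h7 : s * x⁻¹ * s⁻¹ = x := by
        have := congrArg (fun z => z⁻¹) h5
        simpa [mul_assoc] using this
      have h8 : s ^ 2 * x = x * s ^ 2 := by
        have h9 : s * x = x⁻¹ * s := mul_inv_eq_iff_eq_mul.1 h5
        have h10 : s * x⁻¹ = x * s := mul_inv_eq_iff_eq_mul.1 h7
        rw [pow_two, mul_assoc, h9, ← mul_assoc, h10, mul_assoc]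
      exact h8
    exact comm_of_sq hodd h6

theorem Rep.normalizer [Finite G] (hodd : Odd (Nat.card G)) (h2 : (2 : F) ≠ 0) (R : Rep G F) (p : ℕ)
    [Fact p.Prime] (P : Sylow p G) :
    Subgroup.normalizer (P : Set G) ≤ Subgroup.centralizer (P : Set G) := by
  intro s hs
  have hPc : ∀ x ∈ (P : Subgroup G), ∀ y ∈ (P : Subgroup G), Commute x y := by
    by_cases hP : (P : Subgroup G) = ⊥
    · intro x hx y _
      rw [hP, Subgroup.mem_bot] at hx
      rw [hx]
      exact Commute.one_left y
    · haveI : Nontrivial (P : Subgroup G) := (Subgroup.nontrivial_iff_ne_bot _).2 hP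
      haveI := P.2.center_nontrivial
      obtain ⟨z, hz⟩ := exists_ne (1 : Subgroup.center (P : Subgroup G))
      have hz1 : ((z : (P : Subgroup G)) : G) ≠ 1 := by
        intro h
        apply hz
        exact Subtype.ext (Subtype.ext h)
      have hzc : ∀ x ∈ (P : Subgroup G), Commute x ((z : (P : Subgroup G)) : G) := by
        intro x hx
        have := Subgroup.mem_center_iff.1 z.2 ⟨x, hx⟩
        exact congrArg Subtype.val this
      intro x hx y hy
      exact R.comm hodd hz1 (hzc x hx) (hzc y hy)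
  rw [Subgroup.mem_centralizer_iff]
  intro x hx
  by_cases hx1 : x = 1
  · simp [hx1]
  · have h1 : s * x * s⁻¹ ∈ (P : Subgroup G) := (Subgroup.mem_normalizer_iff.1 hs x).1 hx
    have h3 := R.conj hodd h2 hx1 (hPc _ h1 _ hx)
    exact h3.symm.eq

/-- the group is commutative -/
theorem Rep.abelian [Finite G] (hodd : Odd (Nat.card G)) (h2 : (2 : F) ≠ 0) (R : Rep G F) (g h : G) :
    g * h = h * g := by
  by_contra hne
  have hc : ⁅g, h⁆ ≠ 1 := fun h => hne (commutatorElement_eq_one_iff_mul_comm.1 h)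
  obtain ⟨p, hp, hpd⟩ := Nat.exists_prime_and_dvd (n := orderOf ⁅g, h⁆)
    (by rw [Ne, orderOf_eq_one_iff]; exact hc)
  haveI := Fact.mk hp
  obtain ⟨P⟩ : Nonempty (Sylow p G) := inferInstance
  have hN := R.normalizer hodd h2 p P
  apply MonoidHom.not_dvd_card_ker_transferSylow P hN
  refine hpd.trans ?_
  have hmem : ⁅g, h⁆ ∈ (MonoidHom.transferSylow P hN).ker := by
    rw [MonoidHom.mem_ker, map_commutatorElement]
    rw [commutatorElement_eq_one_iff_mul_comm]
    apply Subtype.ext
    exact hN (Subgroup.le_normalizer (MonoidHom.transferSylow P hN h).2) _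
      (MonoidHom.transferSylow P hN g).2
  exact Subgroup.orderOf_dvd_natCard _ hmem

/-- **finite groups of odd order in `SL(2, F)` without nontrivial elements of trace 2** are cyclic,
with an injective character whose sum with its inverse is the trace -/
theorem Rep.character [Finite G] (hodd : Odd (Nat.card G)) (h2 : (2 : F) ≠ 0) (R : Rep G F)
    (K : Type*) [Field K] [IsAlgClosed K] [Algebra F K] :
    ∃ χ : G →* K, Function.Injective χ ∧
      ∀ g, χ g ^ 2 - algebraMap F K (R.ρ g).trace * χ g + 1 = 0 := by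
  by_cases hG : ∀ g : G, g = 1
  · refine ⟨1, fun a b _ => by rw [hG a, hG b], fun g => ?_⟩
    rw [hG g, map_one]
    simp
    rw [map_ofNat]
    norm_num
  push Not at hG
  obtain ⟨g₀, hg₀⟩ := hG
  -- the eigenvalue
  set M := (R.ρ g₀).map (algebraMap F K) with hM
  have hdet : M.det = 1 := by
    have := RingHom.map_det (algebraMap F K) (R.ρ g₀)
    rw [R.det, map_one] at this
    rw [hM]
    exact this.symm
  obtain ⟨l, hl⟩ : ∃ l : K, l ^ 2 - M.trace * l + 1 = 0 := by
    have hdeg : (Polynomial.C (1 : K) * Polynomial.X ^ 2 + Polynomial.C (-M.trace) * Polynomial.X +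
        Polynomial.C 1).degree ≠ 0 := by
      rw [Polynomial.degree_quadratic one_ne_zero]
      decide
    obtain ⟨l, hl⟩ := IsAlgClosed.exists_root _ hdeg
    refine ⟨l, ?_⟩
    simp [Polynomial.IsRoot] at hl
    linear_combination hl
  obtain ⟨v, hv0, hv⟩ := Matrix.exists_mulVec_eq_zero_iff.2
    (show (M - l • (1 : Matrix (Fin 2) (Fin 2) K)).det = 0 by
      rw [Matrix.det_fin_two] at hdet ⊢
      rw [Matrix.trace_fin_two] at hl
      simp
      linear_combination hl + hdet)
  have hv' : M *ᵥ v = l • v := by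
    rw [Matrix.sub_mulVec, Matrix.smul_mulVec, Matrix.one_mulVec, sub_eq_zero] at hv
    exact hv
  have hev : ∀ g : G, ∃ c : K, (R.ρ g).map (algebraMap F K) *ᵥ v = c • v := by
    intro g
    obtain ⟨a, b, hab⟩ := centralizer (R.nonscalar hodd hg₀)
      (show R.ρ g * R.ρ g₀ = R.ρ g₀ * R.ρ g by
        rw [← map_mul, ← map_mul, R.abelian hodd h2 g g₀])
    refine ⟨algebraMap F K a + algebraMap F K b * l, ?_⟩
    have h3 : (R.ρ g).map (algebraMap F K) = algebraMap F K a • (1 : Matrix (Fin 2) (Fin 2) K) +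
        algebraMap F K b • M := by
      rw [hab, hM]
      ext i j
      simp only [Matrix.map_apply, Matrix.add_apply, Matrix.smul_apply, smul_eq_mul, map_add,
        map_mul, Matrix.one_apply]
      split_ifs <;> simp
    rw [h3, Matrix.add_mulVec, Matrix.smul_mulVec, Matrix.smul_mulVec, Matrix.one_mulVec, hv',
      smul_smul, add_smul]
  choose c hc using hev
  have hcu : ∀ {a b : K}, a • v = b • v → a = b := by
    intro a b h
    have : (a - b) • v = 0 := by rw [sub_smul, h, sub_self]
    exact sub_eq_zero.1 ((smul_eq_zero.1 this).resolve_right hv0)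
  have hchar : ∀ g, c g ^ 2 - algebraMap F K (R.ρ g).trace * c g + 1 = 0 := by
    intro g
    have h3 : ((R.ρ g).map (algebraMap F K) - c g • (1 : Matrix (Fin 2) (Fin 2) K)).det = 0 := by
      apply Matrix.exists_mulVec_eq_zero_iff.1
      exact ⟨v, hv0, by rw [Matrix.sub_mulVec, Matrix.smul_mulVec, Matrix.one_mulVec, hc, sub_self]⟩
    have h4 : (R.ρ g).det = 1 := R.det g
    have h5 := congrArg (algebraMap F K) h4
    rw [Matrix.det_fin_two] at h3 h5
    rw [Matrix.trace_fin_two]
    simp at h3 h5 ⊢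
    linear_combination h3 - h5
  refine ⟨{ toFun := c, map_one' := ?_, map_mul' := ?_ }, ?_, hchar⟩
  · apply hcu
    rw [← hc 1, map_one, Matrix.map_one _ (map_zero _) (map_one _), Matrix.one_mulVec, one_smul]
  · intro g h
    apply hcu
    rw [← hc (g * h), map_mul, Matrix.map_mul, ← Matrix.mulVec_mulVec, hc h, Matrix.mulVec_smul,
      hc g, smul_smul, mul_comm]
  · rw [injective_iff_map_eq_one]
    intro g hg
    by_contra hg1
    apply R.tr g hg1
    have h3 := hchar g
    have h4 : c g = 1 := hg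
    rw [h4] at h3
    apply (algebraMap F K).injective
    rw [map_ofNat]
    linear_combination -h3

/-- **the order** -/
theorem Rep.cyclic {q : ℕ} [Fact q.Prime] (hq : q ≠ 2) [Finite G] (hodd : Odd (Nat.card G))
    (R : Rep G (ZMod q)) :
    IsCyclic G ∧ (Nat.card G ∣ q - 1 ∨ Nat.card G ∣ q + 1) := by
  have h2 : (2 : ZMod q) ≠ 0 := by
    intro h
    have h3 : ((2 : ℕ) : ZMod q) = 0 := by exact_mod_cast h
    rw [ZMod.natCast_eq_zero_iff] at h3
    exact hq (((Nat.prime_dvd_prime_iff_eq Fact.out Nat.prime_two).1 h3))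
  obtain ⟨χ, hχ, hchar⟩ := R.character hodd h2 (AlgebraicClosure (ZMod q))
  have hcyc : IsCyclic G := isCyclic_of_injective_ringHom χ hχ
  refine ⟨hcyc, ?_⟩
  obtain ⟨g, hg⟩ := hcyc.exists_generator
  have hord : orderOf g = Nat.card G := orderOf_eq_card_of_forall_mem_zpowers hg
  have h3 := hchar g
  haveI : CharP (AlgebraicClosure (ZMod q)) q := charP_of_injective_algebraMap
    (algebraMap (ZMod q) (AlgebraicClosure (ZMod q))).injective q
  have h4 : (χ g ^ q) ^ 2 - algebraMap (ZMod q) (AlgebraicClosure (ZMod q)) (R.ρ g).trace * χ g ^ q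
      + 1 = 0 := by
    have h5 := congrArg (fun z => z ^ q) h3
    beta_reduce at h5
    have e : (algebraMap (ZMod q) (AlgebraicClosure (ZMod q)) (R.ρ g).trace) ^ q =
        algebraMap (ZMod q) (AlgebraicClosure (ZMod q)) (R.ρ g).trace := by
      rw [← map_pow, ZMod.pow_card]
    rw [add_pow_char, sub_pow_char, mul_pow, one_pow, e,
      zero_pow (Fact.out : q.Prime).ne_zero] at h5
    rw [← pow_mul, mul_comm q 2, pow_mul, ← h5]
    try ring
  have h5 : (χ g ^ q - χ g) * (χ g * χ g ^ q - 1) = 0 := by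
    linear_combination (χ g) * h4 - (χ g ^ q) * h3
  have h0 : χ g ≠ 0 := by
    intro h
    rw [h] at h3
    simp at h3
  rw [← hord]
  rcases mul_eq_zero.1 h5 with h6 | h6
  · left
    apply orderOf_dvd_of_pow_eq_one
    apply hχ
    rw [map_pow, map_one]
    have h7 : χ g ^ (q - 1) * χ g = 1 * χ g := by
      rw [← pow_succ, Nat.sub_add_cancel (Fact.out : q.Prime).one_le, one_mul]
      exact sub_eq_zero.1 h6
    exact mul_right_cancel₀ h0 h7
  · right
    apply orderOf_dvd_of_pow_eq_one
    apply hχ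
    rw [map_pow, map_one, pow_succ, mul_comm]
    exact sub_eq_zero.1 h6

end Pool.Agent.Zk49.SF.Dick
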