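import Pool.Agent.Zk49.SF.Inv

set_option autoImplicit false

/-! # The symmetry group -/

namespace Pool.Agent.Zk49.SF

open Finset Complex Matrix
open Pool.Agent.R503.SIC
open scoped ComplexConjugate

variable {d : ℕ} [NeZero d]

/-- `A` induces `σ` -/
def Ind (A : Matrix (ZMod d) (ZMod d) ℂ) (σ : V d → V d) : Prop :=
  ∀ p, ∃ c : ℂ, A * D p = c • (D (σ p) * A)

theorem Ind.unique {A : Matrix (ZMod d) (ZMod d) ℂ} (hU : IsUnit A) {p q r : V d} {c c' : ℂ}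
    (h : A * D p = c • (D q * A)) (h' : A * D p = c' • (D r * A)) : q = r := by
  have hc : c ≠ 0 := c_ne hU h
  have h1 : D q * A = (c⁻¹ * c') • D r * A := by
    rw [Matrix.smul_mul, ← smul_smul, ← h', h, smul_smul, inv_mul_cancel₀ hc, one_smul]
  exact D_inj (cancel hU h1)

theorem Ind.ext {A : Matrix (ZMod d) (ZMod d) ℂ} (hU : IsUnit A) {σ τ : V d → V d} (h : Ind A σ)
    (h' : Ind A τ) : σ = τ := by
  funext p
  obtain ⟨c, hc⟩ := h p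
  obtain ⟨c', hc'⟩ := h' p
  exact Ind.unique hU hc hc'

theorem Ind.inj {A : Matrix (ZMod d) (ZMod d) ℂ} (hU : IsUnit A) {σ : V d → V d} (h : Ind A σ) :
    Function.Injective σ := by
  intro p q hpq
  obtain ⟨c, hc⟩ := h p
  obtain ⟨c', hc'⟩ := h q
  have h0 : c' ≠ 0 := c_ne hU hc'
  have h1 : A * D p = A * ((c * c'⁻¹) • D q) := by
    rw [Matrix.mul_smul, hc', smul_smul, hc, hpq]
    congr 1
    field_simp
  exact D_inj (hU.mul_left_cancel h1)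

theorem Ind.mul {A B : Matrix (ZMod d) (ZMod d) ℂ} {σ τ : V d → V d} (h : Ind A σ)
    (h' : Ind B τ) : Ind (A * B) (σ ∘ τ) := by
  intro p
  obtain ⟨c, hc⟩ := h' p
  obtain ⟨c', hc'⟩ := h (τ p)
  refine ⟨c * c', ?_⟩
  rw [mul_assoc, hc, Matrix.mul_smul, ← mul_assoc, hc', Matrix.smul_mul, smul_smul, mul_assoc]
  rfl

theorem Ind.one : Ind (1 : Matrix (ZMod d) (ZMod d) ℂ) id := by
  intro p
  exact ⟨1, by rw [one_mul, mul_one, one_smul]; rfl⟩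

theorem Ind.pow {A : Matrix (ZMod d) (ZMod d) ℂ} {σ : Equiv.Perm (V d)} (h : Ind A σ) (n : ℕ) :
    Ind (A ^ n) (σ ^ n : Equiv.Perm (V d)) := by
  induction n with
  | zero => rw [pow_zero, pow_zero]; exact Ind.one
  | succ n ih => rw [pow_succ, pow_succ]; exact ih.mul h

theorem Ind.smul {A : Matrix (ZMod d) (ZMod d) ℂ} {σ : V d → V d} (h : Ind A σ) (z : ℂ) :
    Ind (z • A) σ := by
  intro p
  obtain ⟨c, hc⟩ := h p
  refine ⟨c, ?_⟩
  rw [Matrix.smul_mul, hc, Matrix.mul_smul, smul_smul, smul_smul, mul_comm]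

theorem Ind.add {A : Matrix (ZMod d) (ZMod d) ℂ} (hU : IsUnit A) {σ : V d → V d} (h : Ind A σ)
    (p q : V d) : σ (p + q) = σ p + σ q := by
  obtain ⟨c, hc⟩ := h p
  obtain ⟨c', hc'⟩ := h q
  obtain ⟨c'', hc''⟩ := h (p + q)
  have h1 : A * (D p * D q) = (c * c' * e ((σ p).2 * (σ q).1)) • (D (σ p + σ q) * A) := by
    rw [← mul_assoc, hc, Matrix.smul_mul, mul_assoc, hc', Matrix.mul_smul, smul_smul, ← mul_assoc,
      D_mul, Matrix.smul_mul, smul_smul]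
  rw [D_mul, Matrix.mul_smul] at h1
  have h2 : A * D (p + q) = (e (-(p.2 * q.1)) * (c * c' * e ((σ p).2 * (σ q).1))) •
      (D (σ p + σ q) * A) := by
    rw [← smul_smul, ← h1, smul_smul, mul_comm, e_mul_neg, one_smul]
  exact Ind.unique hU hc'' h2

theorem Ind.sy {A : Matrix (ZMod d) (ZMod d) ℂ} (hU : IsUnit A) {σ : V d → V d} (h : Ind A σ)
    (p q : V d) : sy (σ p) (σ q) = sy p q := by
  obtain ⟨c, hc⟩ := h p
  obtain ⟨c', hc'⟩ := h q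
  exact (sy_inv hU hc hc').symm

theorem Ind.inv {A : Matrix (ZMod d) (ZMod d) ℂ} (h1 : star A * A = 1) (h2 : A * star A = 1)
    {σ : Equiv.Perm (V d)} (h : Ind A σ) : Ind (star A) (σ⁻¹ : Equiv.Perm (V d)) := by
  intro p
  obtain ⟨c, hc⟩ := h (σ⁻¹ p)
  have hU : IsUnit A := ⟨⟨A, star A, h2, h1⟩, rfl⟩
  have h0 : c ≠ 0 := c_ne hU hc
  rw [Equiv.Perm.coe_inv, Equiv.apply_symm_apply] at hc
  refine ⟨c⁻¹, ?_⟩
  have h3 : star A * (A * D (σ.symm p)) * star A = star A * (c • (D p * A)) * star A := by rw [hc]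
  rw [← mul_assoc, h1, one_mul, Matrix.mul_smul, Matrix.smul_mul, ← mul_assoc, mul_assoc _ A, h2,
    mul_one] at h3
  rw [Equiv.Perm.coe_inv, h3, smul_smul, inv_mul_cancel₀ h0, one_smul]

theorem Ind.nrm {A : Matrix (ZMod d) (ZMod d) ℂ} {σ : V d → V d} (h : Ind A σ) : Nrm A := by
  intro a b
  obtain ⟨c, hc⟩ := h (a, b)
  exact ⟨(σ (a, b)).1, (σ (a, b)).2, c, hc⟩

/-- a symmetry induces a permutation -/
theorem Sy.ind {ψ : ZMod d → ℂ} {A : Matrix (ZMod d) (ZMod d) ℂ} (h : Sy ψ A) :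
    ∃ σ : Equiv.Perm (V d), Ind A σ := by
  have h1 : ∀ p : V d, ∃ q : V d, ∃ c : ℂ, A * D p = c • (D q * A) := by
    intro p
    obtain ⟨a, b, c, hc⟩ := h.nrm p.1 p.2
    exact ⟨(a, b), c, hc⟩
  choose σ hσ using h1
  have h2 : Function.Injective σ := Ind.inj h.isUnit hσ
  exact ⟨Equiv.ofBijective σ (Finite.injective_iff_bijective.1 h2), hσ⟩

theorem Sy.star {ψ : ZMod d → ℂ} {A : Matrix (ZMod d) (ZMod d) ℂ} (h : Sy ψ A) :
    Sy ψ (star A) := by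
  obtain ⟨σ, hσ⟩ := h.ind
  refine ⟨?_, (hσ.inv h.uni h.uni').nrm, ?_⟩
  · rw [star_star]; exact h.uni'
  · conv_lhs => rw [← h.fix]
    rw [Matrix.mulVec_mulVec, h.uni, Matrix.one_mulVec]

/-- the group of permutations of `V` induced by symmetries -/
def Hs (ψ : ZMod d → ℂ) : Subgroup (Equiv.Perm (V d)) where
  carrier := {σ | ∃ A, Sy ψ A ∧ Ind A σ}
  mul_mem' := by
    rintro σ τ ⟨A, hA, hσ⟩ ⟨B, hB, hτ⟩
    exact ⟨A * B, hA.mul hB, hσ.mul hτ⟩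
  one_mem' := ⟨1, Sy.one, Ind.one⟩
  inv_mem' := by
    rintro σ ⟨A, hA, hσ⟩
    exact ⟨star A, hA.star, hσ.inv hA.uni hA.uni'⟩

theorem mem_Hs {ψ : ZMod d → ℂ} {σ : Equiv.Perm (V d)} :
    σ ∈ Hs ψ ↔ ∃ A, Sy ψ A ∧ Ind A σ := Iff.rfl

/-- fixed points -/
def Fx (σ : Equiv.Perm (V d)) : Finset (V d) := Finset.univ.filter fun p => σ p = p

omit [NeZero d] in
theorem mem_Fx [NeZero d] {σ : Equiv.Perm (V d)} {p : V d} : p ∈ Fx σ ↔ σ p = p := by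
  simp [Fx]

theorem Km_eq {ψ : ZMod d → ℂ} (hψ : Fid ψ) {A : Matrix (ZMod d) (ZMod d) ℂ} (h : Sy ψ A)
    {σ : Equiv.Perm (V d)} (hσ : Ind A σ) : Km A = Fx σ := by
  ext p
  rw [mem_Km, mem_Fx]
  obtain ⟨c, hc⟩ := hσ p
  constructor
  · intro hp
    have h1 : A * D p = (1 : ℂ) • (D p * A) := by rw [one_smul]; exact hp
    exact Ind.unique h.isUnit hc h1
  · intro hp
    rw [hp] at hc
    exact h.c_one hψ hc

theorem one_of_id {ψ : ZMod d → ℂ} (hψ : Fid ψ) {A : Matrix (ZMod d) (ZMod d) ℂ} (h : Sy ψ A)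
    (hA : Ind A (1 : Equiv.Perm (V d))) : A = 1 := by
  have h1 : ∀ p : V d, A * D p = D p * A := by
    intro p
    have h2 : p ∈ Km A := by
      rw [Km_eq hψ h hA, mem_Fx]; rfl
    exact mem_Km.1 h2
  obtain ⟨c, hc⟩ := scalar_of_all h1
  have h2 := ex_mul_right h.fix 1
  rw [one_mul, hc, ex_smul, ex_one hψ, mul_one] at h2
  rw [hc, h2, one_smul]

theorem Hs_rank {ψ : ZMod d → ℂ} (hψ : Fid ψ) {σ : Equiv.Perm (V d)} (hσ : σ ∈ Hs ψ) {n : ℕ}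
    (hn : n.Prime) (h1 : σ ^ n = 1) (h2 : σ ≠ 1) :
    ((n : ℝ) - 1) * (Fx σ).card ≤ d + n * Real.sqrt (Fx σ).card := by
  obtain ⟨A, hA, hi⟩ := hσ
  have h3 : A ^ n = 1 := by
    apply one_of_id hψ (hA.pow n)
    rw [← h1]
    exact hi.pow n
  rw [← Km_eq hψ hA hi]
  apply rank hψ hA hn h3
  apply Km_lt
  intro c hc
  apply h2
  have h4 : Ind A id := by
    rw [hc]
    exact Ind.one.smul c
  exact Equiv.coe_fn_injective (Ind.ext hA.isUnit hi h4)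

theorem Hs_inv {ψ : ZMod d → ℂ} (hψ : Fid ψ) {σ : Equiv.Perm (V d)} (hσ : σ ∈ Hs ψ)
    (h1 : σ ^ 2 = 1) (h2 : σ ≠ 1) : ∃ n : ℕ, n ^ 2 = d + 1 := by
  obtain ⟨A, hA, hi⟩ := hσ
  have h3 : A ^ 2 = 1 := by
    apply one_of_id hψ (hA.pow 2)
    rw [← h1]
    exact hi.pow 2
  apply invol hψ hA (by rw [← sq, h3])
  apply Km_lt
  intro c hc
  apply h2
  have h4 : Ind A id := by
    rw [hc]
    exact Ind.one.smul c
  exact Equiv.coe_fn_injective (Ind.ext hA.isUnit hi h4)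

theorem Hs_add {ψ : ZMod d → ℂ} {σ : Equiv.Perm (V d)} (hσ : σ ∈ Hs ψ) (p q : V d) :
    σ (p + q) = σ p + σ q := by
  obtain ⟨A, hA, hi⟩ := hσ
  exact hi.add hA.isUnit p q

theorem Hs_sy {ψ : ZMod d → ℂ} {σ : Equiv.Perm (V d)} (hσ : σ ∈ Hs ψ) (p q : V d) :
    sy (σ p) (σ q) = sy p q := by
  obtain ⟨A, hA, hi⟩ := hσ
  exact hi.sy hA.isUnit p q

/-- the general bound -/
theorem Hs_gen {ψ : ZMod d → ℂ} (hψ : Fid ψ) {σ : Equiv.Perm (V d)} (hσ : σ ∈ Hs ψ)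
    (h2 : σ ≠ 1) : ((Fx σ).card : ℝ) ≤ (1 + Real.sqrt (d + 1)) ^ 2 := by
  obtain ⟨o, ho⟩ : ∃ o, o = orderOf σ := ⟨_, rfl⟩
  have ho0 : 0 < o := by rw [ho]; exact orderOf_pos σ
  have ho1 : o ≠ 1 := by rw [ho]; exact fun h => h2 (orderOf_eq_one_iff.1 h)
  obtain ⟨n, hn, hno⟩ := Nat.exists_prime_and_dvd ho1
  obtain ⟨j, hj⟩ := hno
  have hj0 : 0 < j := by
    rcases Nat.eq_zero_or_pos j with h | h
    · rw [h, mul_zero] at hj; omega
    · exact h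
  have h3 : (σ ^ j) ^ n = 1 := by
    rw [← pow_mul, mul_comm, ← hj, ho, pow_orderOf_eq_one]
  have h4 : σ ^ j ≠ 1 := by
    intro h
    have h5 := Nat.le_of_dvd hj0 (orderOf_dvd_of_pow_eq_one h)
    rw [← ho, hj] at h5
    have := hn.two_le
    nlinarith
  have h5 := Hs_rank hψ ((Hs ψ).pow_mem hσ j) hn h3 h4
  have h6 : (Fx σ).card ≤ (Fx (σ ^ j)).card := by
    apply Finset.card_le_card
    intro p hp
    rw [mem_Fx] at hp ⊢
    exact Function.IsFixedPt.perm_pow hp j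
  obtain ⟨y, hy⟩ : ∃ y, y = Real.sqrt (Fx (σ ^ j)).card := ⟨_, rfl⟩
  have hyy : y ^ 2 = (Fx (σ ^ j)).card := by rw [hy, Real.sq_sqrt (Nat.cast_nonneg _)]
  have hy1 : 1 ≤ y := by
    rw [hy, Real.one_le_sqrt]
    have : 1 ≤ (Fx (σ ^ j)).card := by
      apply Finset.card_pos.2
      refine ⟨0, mem_Fx.2 ?_⟩
      have := Hs_add ((Hs ψ).pow_mem hσ j) 0 0
      rw [add_zero] at this
      exact (left_eq_add.1 this)
    exact_mod_cast this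
  rw [← hy, ← hyy] at h5
  have hn2 : (2 : ℝ) ≤ n := by exact_mod_cast hn.two_le
  have h7 : y ^ 2 - 2 * y ≤ d := by nlinarith [mul_nonneg (sub_nonneg.2 hn2) (mul_nonneg (by linarith : 0 ≤ y) (sub_nonneg.2 hy1))]
  have h8 : y ≤ 1 + Real.sqrt (d + 1) := by
    have h9 : (y - 1) ^ 2 ≤ d + 1 := by nlinarith
    have := Real.abs_le_sqrt h9
    have := (abs_le.1 this).2
    linarith
  calc ((Fx σ).card : ℝ) ≤ (Fx (σ ^ j)).card := by exact_mod_cast h6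
    _ = y ^ 2 := hyy.symm
    _ ≤ _ := pow_le_pow_left₀ (by linarith) h8 2

end Pool.Agent.Zk49.SF
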