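import Pool.Agent.Zk49.SF.Rank

set_option autoImplicit false

/-! # Symmetries of order two -/

namespace Pool.Agent.Zk49.SF

open Finset Complex Matrix
open Pool.Agent.R503.SIC
open scoped ComplexConjugate

variable {d : ℕ} [NeZero d]

omit [NeZero d] in
/-- the symplectic form is nondegenerate -/
theorem sy_nondeg {p : V d} (h : ∀ x, sy x p = 0) : p = 0 := by
  have h1 := h ((1 : ZMod d), 0)
  have h2 := h ((0 : ZMod d), 1)
  simp only [sy] at h1 h2
  refine Prod.ext ?_ ?_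
  · simpa using h2
  · simpa using h1

theorem sy_inv {A : Matrix (ZMod d) (ZMod d) ℂ} (hU : IsUnit A) {p p' q q' : V d} {c c' : ℂ}
    (h : A * D p = c • (D p' * A)) (h' : A * D q = c' • (D q' * A)) : sy p q = sy p' q' :=
  sympl hU h h'

theorem D_neg (q : V d) : D (-q) = e (-(q.2 * q.1)) • star (D q) := by
  rw [star_D, smul_smul, ← e_add, neg_add_cancel, e_zero, one_smul]

theorem inv_neg {ψ : ZMod d → ℂ} (hψ : Fid ψ) {A : Matrix (ZMod d) (ZMod d) ℂ} (h : Sy ψ A)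
    (hA : A * A = 1) {q : V d} (hq : q ∈ Kp A) : ∃ c : ℂ, A * D q = c • (D (-q) * A) := by
  have hinv : ∀ {x x' : V d} {c : ℂ}, A * D x = c • (D x' * A) →
      A * D x' = c⁻¹ • (D x * A) := by
    intro x x' c hc
    have hc0 : c ≠ 0 := c_ne h.isUnit hc
    have h1 : A * (A * D x) * A = A * (c • (D x' * A)) * A := by rw [hc]
    rw [← mul_assoc, hA, one_mul, Matrix.mul_smul, Matrix.smul_mul, mul_assoc A, mul_assoc (D x'),
      hA, mul_one] at h1
    rw [h1, smul_smul, inv_mul_cancel₀ hc0, one_smul]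
  obtain ⟨a', b', c, hc⟩ := h.nrm q.1 q.2
  have hc' : A * D q = c • (D (a', b') * A) := hc
  refine ⟨c, ?_⟩
  suffices h1 : (a', b') = -q by rw [← h1]; exact hc'
  have h2 : (a', b') + q = 0 := by
    apply sy_nondeg
    intro x
    obtain ⟨x1, x2, c1, hx⟩ := h.nrm x.1 x.2
    have hx' : A * D x = c1 • (D (x1, x2) * A) := hx
    have hx'' := hinv hx'
    -- `x + x'` is in the commutant
    have h3 : A * (D x * D (x1, x2)) = D (x1, x2) * D x * A := by
      rw [← mul_assoc, hx', Matrix.smul_mul, mul_assoc, hx'', Matrix.mul_smul, smul_smul,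
        mul_inv_cancel₀ (c_ne h.isUnit hx'), one_smul, mul_assoc]
    rw [D_mul, D_mul, Matrix.mul_smul, Matrix.smul_mul, add_comm (x1, x2) x] at h3
    have h4 : A * D (x + (x1, x2)) =
        (e (-(x.2 * (x1, x2).1)) * e ((x1, x2).2 * x.1)) • (D (x + (x1, x2)) * A) := by
      rw [← smul_smul, ← h3, smul_smul, mul_comm, e_mul_neg, one_smul]
    have h5 : x + (x1, x2) ∈ Km A := mem_Km.2 (h.c_one hψ h4)
    have h6 := mem_Kp.1 hq _ h5
    have h7 := sy_inv h.isUnit hx' (hinv hc')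
    simp only [sy, Prod.fst_add, Prod.snd_add] at h6 h7 ⊢
    linear_combination h7 + h6
  exact eq_neg_of_add_eq_zero_left h2

theorem real_term {ψ : ZMod d → ℂ} (hψ : Fid ψ) {A : Matrix (ZMod d) (ZMod d) ℂ} (h : Sy ψ A)
    (hA : A * A = 1) {q : V d} (hq : q ∈ Kp A) :
    conj (co A q * ov ψ q.1 q.2) = co A q * ov ψ q.1 q.2 := by
  obtain ⟨c, hc⟩ := inv_neg hψ h hA hq
  have hc0 : c ≠ 0 := c_ne h.isUnit hc
  have hsA : star A = A := by
    calc star A = star A * (A * A) := by rw [hA, mul_one]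
      _ = A := by rw [← mul_assoc, h.uni, one_mul]
  have h1 : conj (co A q) = c * e (-(q.2 * q.1)) * co A q := by
    unfold co
    have h0 : conj ((star (D q) * A).trace) = ((star (D q) * A)ᴴ).trace :=
      (Matrix.trace_conjTranspose _).symm
    rw [map_div₀, h0]
    have h2 : (star (D q) * A)ᴴ = (c * e (-(q.2 * q.1))) • (star (D q) * A) := by
      change star (star (D q) * A) = _
      rw [star_mul, star_star, hsA, hc, D_neg, Matrix.smul_mul, smul_smul]
    rw [h2, Matrix.trace_smul, smul_eq_mul, Complex.conj_natCast]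
    ring
  have h3 := conj_ov ψ q.1 q.2
  have h4 := h.rel hc
  rw [map_mul, h1, h3]
  rw [Prod.fst_neg, Prod.snd_neg] at h4
  have h5 := e_mul_neg (q.2 * q.1)
  rw [h4]
  linear_combination c * co A q * ov ψ (-q.1) (-q.2) * h5

/-- **A symmetry of order two forces `d + 1` to be a square.** -/
theorem invol {ψ : ZMod d → ℂ} (hψ : Fid ψ) {A : Matrix (ZMod d) (ZMod d) ℂ} (h : Sy ψ A)
    (hA : A * A = 1) (hK : (Km A).card < d ^ 2) : ∃ n : ℕ, n ^ 2 = d + 1 := by
  have hd := dpos (d := d)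
  obtain ⟨y, hy⟩ : ∃ y, y = Real.sqrt (Km A).card := ⟨_, rfl⟩
  have hy0 : 0 ≤ y := by rw [hy]; exact Real.sqrt_nonneg _
  have hyy : y ^ 2 = (Km A).card := by rw [hy, Real.sq_sqrt (Nat.cast_nonneg _)]
  obtain ⟨s, hs⟩ : ∃ s, s = Real.sqrt (d + 1) := ⟨_, rfl⟩
  have hs0 : 0 < s := by rw [hs]; exact Real.sqrt_pos.2 (by positivity)
  have hss : s ^ 2 = (d : ℝ) + 1 := by rw [hs]; exact Real.sq_sqrt (by positivity)
  have hreal : ∀ q ∈ Kp A, ∃ r : ℝ, co A q * ov ψ q.1 q.2 = r := by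
    intro q hq
    obtain ⟨r, hr⟩ := Complex.conj_eq_iff_real.1 (real_term hψ h hA hq)
    exact ⟨r, hr⟩
  have hco : ∀ q ∈ Kp A, ‖co A q‖ = y / d := by
    intro q hq
    have h1 := co_mod hψ h hq
    rw [← hyy, ← div_pow] at h1
    exact (pow_left_inj₀ (norm_nonneg _) (by positivity) two_ne_zero).1 h1
  have hterm : ∀ q ∈ Kp A, q ≠ 0 → ∃ m : ℤ, co A q * ov ψ q.1 q.2 = ((m * (y / d / s) : ℝ) : ℂ) := by
    intro q hq hq0
    obtain ⟨r, hr⟩ := hreal q hq
    have h1 : |r| = y / d / s := by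
      have h2 : ‖co A q * ov ψ q.1 q.2‖ = |r| := by
        rw [hr, Complex.norm_real, Real.norm_eq_abs]
      rw [← h2, norm_mul, hco q hq, norm_ov hψ hq0, ← hs, mul_one_div]
    rcases abs_choice r with h3 | h3
    · exact ⟨1, by rw [hr, ← h1, h3]; simp⟩
    · exact ⟨-1, by rw [hr, ← h1, h3]; simp⟩
  have h0 : ∃ m : ℤ, m ^ 2 = 1 ∧ co A 0 = ((m * (y / d) : ℝ) : ℂ) := by
    obtain ⟨r, hr⟩ := hreal 0 (zero_Kp A)
    have h2 : ov ψ (0 : V d).1 (0 : V d).2 = 1 := ov_zero hψ.1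
    rw [h2, mul_one] at hr
    have h1 : |r| = y / d := by
      rw [← hco 0 (zero_Kp A), hr, Complex.norm_real, Real.norm_eq_abs]
    rcases abs_choice r with h3 | h3
    · exact ⟨1, by norm_num, by rw [hr, ← h1, h3]; simp⟩
    · exact ⟨-1, by norm_num, by rw [hr, ← h1, h3]; simp⟩
  obtain ⟨m0, hm0, hc0⟩ := h0
  have hsum : ∃ M : ℤ, ∑ q ∈ (Kp A).erase 0, co A q * ov ψ q.1 q.2 =
      ((M * (y / d / s) : ℝ) : ℂ) := by
    have : ∀ T : Finset (V d), (∀ q ∈ T, q ∈ Kp A ∧ q ≠ 0) → ∃ M : ℤ,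
        ∑ q ∈ T, co A q * ov ψ q.1 q.2 = ((M * (y / d / s) : ℝ) : ℂ) := by
      classical
      intro T
      induction T using Finset.induction_on with
      | empty => intro _; exact ⟨0, by simp⟩
      | insert a T ha ih =>
        intro hT
        obtain ⟨M, hM⟩ := ih fun q hq => hT q (Finset.mem_insert_of_mem hq)
        obtain ⟨m, hm⟩ := hterm a (hT a (Finset.mem_insert_self _ _)).1
          (hT a (Finset.mem_insert_self _ _)).2
        refine ⟨m + M, ?_⟩
        rw [Finset.sum_insert ha, hM, hm]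
        push_cast; ring
    exact this _ fun q hq => ⟨Finset.mem_of_mem_erase hq, Finset.ne_of_mem_erase hq⟩
  obtain ⟨M, hM⟩ := hsum
  have hex : ex ψ A = 1 := by
    have := ex_mul_right h.fix 1
    rw [one_mul, ex_one hψ] at this
    exact this
  rw [ex_expand, ← Finset.sum_subset (Finset.subset_univ (Kp A))
    (fun q _ hq => by rw [co_zero hq, zero_mul]), ← Finset.add_sum_erase _ _ (zero_Kp A), hM] at hex
  have h2 : ov ψ (0 : V d).1 (0 : V d).2 = 1 := ov_zero hψ.1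
  rw [h2, mul_one, hc0, ← Complex.ofReal_add] at hex
  have hex' : m0 * (y / d) + M * (y / d / s) = 1 := by exact_mod_cast hex
  have h3 : y * (m0 * s + M) = d * s := by
    field_simp at hex'
    linarith
  have h4 : (Km A).card * ((d + 1 : ℝ) + M ^ 2 + 2 * m0 * M * s) = (d : ℝ) ^ 2 * (d + 1) := by
    have h5 : y ^ 2 * (m0 * s + M) ^ 2 = (d : ℝ) ^ 2 * s ^ 2 := by
      rw [← mul_pow, h3, mul_pow]
    have h6 : ((m0 : ℝ)) ^ 2 = 1 := by exact_mod_cast hm0
    rw [← hss, ← hyy, ← h5]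
    linear_combination (- y ^ 2 * s ^ 2) * h6
  have hKpos : 0 < (Km A).card := Finset.card_pos.2 ⟨0, mem_Km.2 (by rw [D_zero, mul_one, one_mul])⟩
  by_cases hM0 : M = 0
  · exfalso
    rw [hM0] at h4
    simp only [Int.cast_zero] at h4
    have h5 : ((Km A).card : ℝ) * (d + 1) = (d : ℝ) ^ 2 * (d + 1) := by linarith
    have h6 : ((Km A).card : ℝ) = (d : ℝ) ^ 2 := mul_right_cancel₀ (by positivity) h5
    have h7 : (Km A).card = d ^ 2 := by exact_mod_cast h6
    omega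
  · have hm0' : m0 ≠ 0 := by rintro rfl; norm_num at hm0
    have hMr : (M : ℝ) ≠ 0 := by exact_mod_cast hM0
    have hmr : (m0 : ℝ) ≠ 0 := by exact_mod_cast hm0'
    have hKr : ((Km A).card : ℝ) ≠ 0 := by exact_mod_cast hKpos.ne'
    have h5 : s = (((((d : ℚ) ^ 2 * (d + 1)) / (Km A).card - (d + 1) - M ^ 2) / (2 * m0 * M) : ℚ) : ℝ) := by
      push_cast
      field_simp
      linarith
    have h6 : IsSquare (((d + 1 : ℕ)) : ℚ) := by
      refine ⟨((((d : ℚ) ^ 2 * (d + 1)) / (Km A).card - (d + 1) - M ^ 2) / (2 * m0 * M) : ℚ), ?_⟩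
      have h7 : (((d + 1 : ℕ) : ℚ) : ℝ) = (((((d : ℚ) ^ 2 * (d + 1)) / (Km A).card - (d + 1) - M ^ 2) / (2 * m0 * M) *
        ((((d : ℚ) ^ 2 * (d + 1)) / (Km A).card - (d + 1) - M ^ 2) / (2 * m0 * M)) : ℚ) : ℝ) := by
        rw [Rat.cast_mul, ← h5, ← sq, hss]
        push_cast; ring
      exact_mod_cast h7
    rw [Rat.isSquare_natCast_iff] at h6
    obtain ⟨r, hr⟩ := h6
    exact ⟨r, by rw [hr, sq]⟩

end Pool.Agent.Zk49.SF
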