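import Pool.Agent.Zk49.SF.ArithB

set_option autoImplicit false

/-! # No symmetry of order `p`, and freeness on the vectors of order `d` -/

namespace Pool.Agent.Zk49.SF

open Finset
open Pool.Agent.R503.SIC

variable {d : ℕ} [NeZero d]

/-- monotonicity -/
theorem mono {n y z : ℝ} (hn : 2 ≤ n) (hz : 1 ≤ z) (hzy : z ≤ y) :
    (n - 1) * z ^ 2 - n * z ≤ (n - 1) * y ^ 2 - n * y := by
  have h1 : 0 ≤ (y - z) * ((n - 1) * (y + z) - n) := by
    apply mul_nonneg (by linarith)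
    nlinarith
  nlinarith

theorem div_one {p m : ℕ} (hd : d = p * m) (hm0 : 0 < m) {a : ZMod d} (h : m • a = 0) :
    ∃ z : ZMod d, a = p • z := by
  have h1 : ((m * a.val : ℕ) : ZMod d) = 0 := by
    push_cast
    rw [ZMod.natCast_zmod_val, ← nsmul_eq_mul]
    exact h
  rw [ZMod.natCast_eq_zero_iff] at h1
  obtain ⟨c, hc⟩ := h1
  have h2 : a.val = p * c := by
    apply Nat.eq_of_mul_eq_mul_left hm0
    rw [hc, hd]; ring
  refine ⟨(c : ZMod d), ?_⟩
  rw [← ZMod.natCast_zmod_val a, h2, nsmul_eq_mul]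
  push_cast; ring

theorem div_two {p m : ℕ} (hd : d = p * m) (hm0 : 0 < m) {x : V d} (h : m • x = 0) :
    ∃ z : V d, x = p • z := by
  obtain ⟨z1, h1⟩ := div_one hd hm0 (congrArg Prod.fst h : m • x.1 = 0)
  obtain ⟨z2, h2⟩ := div_one hd hm0 (congrArg Prod.snd h : m • x.2 = 0)
  exact ⟨(z1, z2), Prod.ext h1 h2⟩

/-- fixed points contain `p V` -/
theorem tor_le {σ : Equiv.Perm (V d)} (h : Lin σ) {p m : ℕ} (hd : d = p * m) (hm0 : 0 < m)
    (hN : ∀ x : V d, p • (σ x - x) = 0) : Tor d m ≤ Fg h := by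
  intro x hx
  rw [mem_Tor] at hx
  rw [mem_Fg]
  obtain ⟨z, rfl⟩ := div_two hd hm0 hx
  have := hN z
  rw [smul_sub, ← h.nsmul, sub_eq_zero] at this
  exact this

theorem sqrt_ge {c m : ℕ} (h : m ^ 2 ≤ c) : (m : ℝ) ≤ Real.sqrt c := by
  apply Real.le_sqrt_of_sq_le
  exact_mod_cast h

/-- **No symmetry of order `p`.** -/
theorem no_p {ψ : ZMod d → ℂ} (hψ : Fid ψ) {p : ℕ} (hp : p.Prime) (hp5 : 5 ≤ p)
    (hq : ∀ q : ℕ, q.Prime → q ∣ d → ¬ p ∣ q ^ 2 - 1) {σ : Equiv.Perm (V d)} (hσ : σ ∈ Hs ψ)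
    (hσp : σ ^ p = 1) : σ = 1 := by
  by_contra hne
  have h := Hs_lin hσ
  have hrank := Hs_rank hψ hσ hp hσp hne
  by_cases hpd : p ∣ d
  · obtain ⟨m, hm⟩ := hpd
    have hd0 : d ≠ 0 := NeZero.ne d
    have hm0 : 0 < m := by
      rcases Nat.eq_zero_or_pos m with h0 | h0
      · rw [h0, mul_zero] at hm; exact absurd hm hd0
      · exact h0
    have hmd : m ∣ d := ⟨p, by rw [hm]; ring⟩
    have hN := p_all h hp hp5 hσp ⟨m, hm⟩ hq
    have hle := tor_le h hm hm0 hN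
    have hdvd : m ^ 2 ∣ (Fx σ).card := by
      rw [← card_Fg h, ← card_tor hmd]
      exact AddSubgroup.card_dvd_of_le hle
    have hdvd2 : (Fx σ).card ∣ d ^ 2 := by
      rw [← card_Fg h, ← natcard_V]
      exact AddSubgroup.card_addSubgroup_dvd_card _
    have hcpos : 0 < (Fx σ).card := Nat.pos_of_dvd_of_pos hdvd2 (by positivity)
    obtain ⟨y, hy⟩ : ∃ y, y = Real.sqrt (Fx σ).card := ⟨_, rfl⟩
    have hyy : y ^ 2 = (Fx σ).card := by rw [hy, Real.sq_sqrt (Nat.cast_nonneg _)]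
    rw [← hy, ← hyy] at hrank
    have hdr : (d : ℝ) = p * m := by rw [hm]; push_cast; ring
    have hp5r : (5 : ℝ) ≤ p := by exact_mod_cast hp5
    have hm1r : (1 : ℝ) ≤ m := by exact_mod_cast hm0
    by_cases hpm : p ∣ m
    · -- `p² ∣ d`
      have h1 : (m : ℝ) ≤ y := by
        rw [hy]; exact sqrt_ge (Nat.le_of_dvd hcpos hdvd)
      have h2 := mono (n := p) (by linarith) hm1r h1
      have h3 : (p : ℝ) ≤ m := by exact_mod_cast Nat.le_of_dvd hm0 hpm
      have h4 : ((p : ℝ) - 1) * m ^ 2 ≤ 2 * p * m := by linarith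
      have h5 : ((p : ℝ) - 1) * m ≤ 2 * p := by
        have : (((p : ℝ) - 1) * m) * m ≤ (2 * p) * m := by linarith
        exact le_of_mul_le_mul_right this (by linarith)
      have h6 : ((p : ℝ) - 1) * p ≤ 2 * p := by nlinarith
      nlinarith
    · obtain ⟨r, hr⟩ := hdvd
      have hrp : r ∣ p ^ 2 := by
        have h1 : m ^ 2 * r ∣ m ^ 2 * p ^ 2 := by
          rw [← hr]
          have : m ^ 2 * p ^ 2 = d ^ 2 := by rw [hm]; ring
          rw [this]; exact hdvd2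
        exact Nat.dvd_of_mul_dvd_mul_left (by positivity) h1
      have hr1 : r ≠ 1 := by
        rintro rfl
        rw [mul_one, ← card_Fg h, ← card_tor hmd] at hr
        have h2 : Tor d m = Fg h := AddSubgroup.eq_of_le_of_card_ge hle hr.le
        obtain ⟨z, hz0, hpz, hz⟩ := exists_fix h hp hσp ⟨m, hm⟩
        have h3 : z ∈ Tor d m := by rw [h2]; exact hz
        exact hz0 (eq_zero_of_coprime ((Nat.Prime.coprime_iff_not_dvd hp).2 hpm) hpz h3)
      have hpr : p ∣ r := by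
        obtain ⟨i, -, hi⟩ := (Nat.dvd_prime_pow hp).1 hrp
        rcases Nat.eq_zero_or_pos i with h0 | h0
        · rw [h0, pow_zero] at hi; exact absurd hi hr1
        · rw [hi]; exact dvd_pow_self p h0.ne'
      have hr0 : 0 < r := Nat.pos_of_dvd_of_pos hrp (by have := hp.pos; positivity)
      have h1 : (p : ℝ) * m ^ 2 ≤ y ^ 2 := by
        rw [hyy, hr]
        have : p ≤ r := Nat.le_of_dvd hr0 hpr
        have h2 : m ^ 2 * p ≤ m ^ 2 * r := Nat.mul_le_mul_left _ this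
        have h3 : ((m ^ 2 * p : ℕ) : ℝ) ≤ ((m ^ 2 * r : ℕ) : ℝ) := by exact_mod_cast h2
        push_cast at h3 ⊢
        linarith
      obtain ⟨s, hs⟩ : ∃ s, s = Real.sqrt p := ⟨_, rfl⟩
      have hss : s ^ 2 = p := by rw [hs, Real.sq_sqrt (Nat.cast_nonneg _)]
      have hs2 : 2 < s := by
        rw [hs]
        apply Real.lt_sqrt_of_sq_lt
        linarith
      have hy0 : 0 ≤ y := by rw [hy]; exact Real.sqrt_nonneg _
      have h2 : s * m ≤ y := by
        have : (s * m) ^ 2 ≤ y ^ 2 := by rw [mul_pow, hss]; exact h1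
        exact (pow_le_pow_iff_left₀ (by positivity) hy0 two_ne_zero).1 this
      have h3 := mono (n := p) (by linarith) (by nlinarith : 1 ≤ s * m) h2
      have h4 : ((p : ℝ) - 1) * (p * m ^ 2) - p * (s * m) ≤ p * m := by
        have : (s * m) ^ 2 = p * m ^ 2 := by rw [mul_pow, hss]
        rw [← this]
        linarith
      have h5 : ((p : ℝ) - 1) * m ≤ 1 + s := by
        have h6 : (((p : ℝ) - 1) * m) * (p * m) ≤ (1 + s) * (p * m) := by nlinarith
        exact le_of_mul_le_mul_right h6 (by positivity)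
      have h6 : (p : ℝ) - 1 ≤ 1 + s := by nlinarith
      rw [← hss] at h6
      nlinarith
  · apply hne
    ext1 x
    exact triv_prime h hp hσp hq d ((Nat.Prime.coprime_iff_not_dvd hp).2 hpd).symm x (d_smul x)

/-- a vector of order `d` is part of a symplectic basis -/
theorem exists_dual {v : V d} (hv : addOrderOf v = d) : ∃ w : V d, sy v w = 1 := by
  obtain ⟨g, hg⟩ : ∃ g, g = Nat.gcd (Nat.gcd v.1.val v.2.val) d := ⟨_, rfl⟩
  have hd0 : 0 < d := Nat.pos_of_ne_zero (NeZero.ne d)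
  have hgd : g ∣ d := by rw [hg]; exact Nat.gcd_dvd_right _ _
  have hg0 : 0 < g := Nat.pos_of_dvd_of_pos hgd hd0
  obtain ⟨k, hk⟩ := hgd
  have hcomp : ∀ a : ZMod d, g ∣ a.val → k • a = 0 := by
    intro a ha
    obtain ⟨c, hc⟩ := ha
    rw [← ZMod.natCast_zmod_val a, hc, nsmul_eq_mul, ← Nat.cast_mul,
      show k * (g * c) = d * c by rw [hk]; ring]
    simp
  have h1 : k • v = 0 := by
    refine Prod.ext ?_ ?_
    · exact hcomp _ (by rw [hg]; exact (Nat.gcd_dvd_left _ _).trans (Nat.gcd_dvd_left _ _))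
    · exact hcomp _ (by rw [hg]; exact (Nat.gcd_dvd_left _ _).trans (Nat.gcd_dvd_right _ _))
  have h2 := addOrderOf_dvd_of_nsmul_eq_zero h1
  rw [hv] at h2
  have hk0 : 0 < k := by
    rcases Nat.eq_zero_or_pos k with h0 | h0
    · rw [h0, mul_zero] at hk; omega
    · exact h0
  have h3 := Nat.le_of_dvd hk0 h2
  have hg1 : g = 1 := by
    by_contra hg1
    have : 2 ≤ g := by omega
    nlinarith
  have h4 := Nat.gcd_eq_gcd_ab (Nat.gcd v.1.val v.2.val) d
  rw [← hg, hg1, Nat.gcd_eq_gcd_ab v.1.val v.2.val] at h4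
  have h5 := congrArg (Int.cast : ℤ → ZMod d) h4
  push_cast at h5
  rw [ZMod.natCast_self, zero_mul, add_zero, ZMod.natCast_zmod_val, ZMod.natCast_zmod_val] at h5
  obtain ⟨X, hX⟩ : ∃ X : ZMod d, X = (((v.1.val.gcd v.2.val).gcdA d : ℤ) : ZMod d) := ⟨_, rfl⟩
  obtain ⟨a, ha⟩ : ∃ a : ZMod d, a = ((v.1.val.gcdA v.2.val : ℤ) : ZMod d) := ⟨_, rfl⟩
  obtain ⟨b, hb⟩ : ∃ b : ZMod d, b = ((v.1.val.gcdB v.2.val : ℤ) : ZMod d) := ⟨_, rfl⟩
  rw [← hX, ← ha, ← hb] at h5
  refine ⟨(b * X, -(a * X)), ?_⟩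
  simp only [sy]
  linear_combination -h5

/-- the fixed points of a symmetry of prime order fixing a vector of order `d` -/
theorem many_fixed {σ : Equiv.Perm (V d)} (h : Lin σ) {n : ℕ} (hn : n.Prime) (hσ : σ ^ n = 1)
    (hne : σ ≠ 1) {v : V d} (hv : addOrderOf v = d) (hfix : σ v = v) :
    n ∣ d ∧ d ^ 2 ≤ (Fx σ).card * n := by
  obtain ⟨w, hw⟩ := exists_dual hv
  have hN : ∀ x, ∃ t : ZMod d, σ x - x = t • v := by
    intro x
    refine ⟨-sy w (σ x - x), ?_⟩
    have h1 : sy v (σ x - x) = 0 := by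
      have h2 := h.sy v x
      rw [hfix] at h2
      simp only [sy, Prod.fst_sub, Prod.snd_sub] at h2 ⊢
      linear_combination h2
    obtain ⟨y, hy⟩ : ∃ y, y = σ x - x := ⟨_, rfl⟩
    rw [← hy] at h1 ⊢
    simp only [sy] at h1 hw ⊢
    refine Prod.ext ?_ ?_
    · simp only [Prod.smul_fst, smul_eq_mul]
      linear_combination (-y.1) * hw + w.1 * h1
    · simp only [Prod.smul_snd, smul_eq_mul]
      linear_combination (-y.2) * hw + w.2 * h1
  have hNfix : ∀ x, σ (σ x - x) = σ x - x := by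
    intro x
    obtain ⟨t, ht⟩ := hN x
    rw [ht, val_smul, h.nsmul, hfix]
  have hnN : ∀ x, n • (σ x - x) = 0 := by
    intro x
    have h1 := pow_fix h (x := x) (y := σ x - x) (by abel) (hNfix x) n
    rw [hσ, Equiv.Perm.one_apply, left_eq_add] at h1
    exact h1
  have hnd : n ∣ d := by
    by_contra hnd
    apply hne
    ext1 x
    have := eq_zero_of_coprime ((Nat.Prime.coprime_iff_not_dvd hn).2 hnd) (hnN x) (d_smul _)
    rw [Equiv.Perm.one_apply]
    exact sub_eq_zero.1 this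
  refine ⟨hnd, ?_⟩
  have h1 := Finset.card_le_mul_card_image (f := fun x => σ x - x) (Finset.univ : Finset (V d))
    (Fx σ).card (by
      intro a ha
      obtain ⟨x0, -, rfl⟩ := Finset.mem_image.1 ha
      refine Finset.card_le_card_of_injOn (fun x => x - x0) ?_ ?_
      · intro x hx
        have hx' : σ x - x = σ x0 - x0 := (Finset.mem_filter.1 hx).2
        change x - x0 ∈ Fx σ
        rw [mem_Fx, sub_eq_add_neg, h.add, h.neg]
        have : σ x = σ x0 - x0 + x := by rw [← hx']; abel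
        rw [this]; abel
      · intro x _ y _ hxy
        exact sub_left_injective hxy)
  rw [Finset.card_univ, card_V] at h1
  refine h1.trans (Nat.mul_le_mul_left _ ?_)
  have h2 : (Finset.univ.image fun x : V d => σ x - x) ⊆
      (Finset.univ.filter fun t : ZMod d => n • t = 0).image fun t => t • v := by
    intro y hy
    obtain ⟨x, -, rfl⟩ := Finset.mem_image.1 hy
    obtain ⟨t, ht⟩ := hN x
    rw [Finset.mem_image]
    refine ⟨t, ?_, ht.symm⟩
    rw [Finset.mem_filter]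
    refine ⟨Finset.mem_univ _, ?_⟩
    have h3 := hnN x
    change σ x - x = t • v at ht
    rw [ht, val_smul, ← mul_smul] at h3
    have h4 := addOrderOf_dvd_of_nsmul_eq_zero h3
    rw [hv] at h4
    have h5 : ((n * t.val : ℕ) : ZMod d) = 0 := (ZMod.natCast_eq_zero_iff _ _).2 h4
    push_cast at h5
    rw [ZMod.natCast_zmod_val] at h5
    rw [nsmul_eq_mul]; exact h5
  calc _ ≤ _ := Finset.card_le_card h2
    _ ≤ _ := Finset.card_image_le
    _ = n := card_tor1 hnd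

/-- **No nontrivial symmetry fixes a vector of order `d`.** -/
theorem free {ψ : ZMod d → ℂ} (hψ : Fid ψ) (hd3 : d ≠ 3) {σ : Equiv.Perm (V d)} (hσ : σ ∈ Hs ψ)
    {v : V d} (hv : addOrderOf v = d) (hfix : σ v = v) : σ = 1 := by
  by_contra hne
  obtain ⟨o, ho⟩ : ∃ o, o = orderOf σ := ⟨_, rfl⟩
  have ho0 : 0 < o := by rw [ho]; exact orderOf_pos σ
  have ho1 : o ≠ 1 := by rw [ho]; exact fun h => hne (orderOf_eq_one_iff.1 h)
  obtain ⟨n, hn, hno⟩ := Nat.exists_prime_and_dvd ho1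
  obtain ⟨j, hj⟩ := hno
  have hj0 : 0 < j := by
    rcases Nat.eq_zero_or_pos j with h | h
    · rw [h, mul_zero] at hj; omega
    · exact h
  have h3 : (σ ^ j) ^ n = 1 := by
    rw [← pow_mul, mul_comm, ← hj, ho, pow_orderOf_eq_one]
  have h4 : σ ^ j ≠ 1 := by
    intro h
    have h5 := Nat.le_of_dvd hj0 (orderOf_dvd_of_pow_eq_one h)
    rw [← ho, hj] at h5
    have := hn.two_le
    nlinarith
  have hτ := (Hs ψ).pow_mem hσ j
  obtain ⟨hnd, hcard⟩ := many_fixed (Hs_lin hτ) hn h3 h4 hv (Function.IsFixedPt.perm_pow hfix j)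
  have hrank := Hs_rank hψ hτ hn h3 h4
  have hd0 : 0 < d := Nat.pos_of_ne_zero (NeZero.ne d)
  have hnd' := Nat.le_of_dvd hd0 hnd
  obtain ⟨y, hy⟩ : ∃ y, y = Real.sqrt (Fx (σ ^ j)).card := ⟨_, rfl⟩
  have hy0 : 0 ≤ y := by rw [hy]; exact Real.sqrt_nonneg _
  have hyy : y ^ 2 = (Fx (σ ^ j)).card := by rw [hy, Real.sq_sqrt (Nat.cast_nonneg _)]
  rw [← hy, ← hyy] at hrank
  have hcr : (d : ℝ) ^ 2 ≤ y ^ 2 * n := by rw [hyy]; exact_mod_cast hcard
  obtain ⟨r, hr⟩ : ∃ r, r = Real.sqrt n := ⟨_, rfl⟩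
  have hrr : r ^ 2 = n := by rw [hr, Real.sq_sqrt (Nat.cast_nonneg _)]
  have hr1 : 1 < r := by
    rw [hr]
    apply Real.lt_sqrt_of_sq_lt
    have : (1 : ℝ) < n := by exact_mod_cast hn.one_lt
    linarith
  have hn2 : (2 : ℝ) ≤ n := by exact_mod_cast hn.two_le
  have hdr : (n : ℝ) ≤ d := by exact_mod_cast hnd'
  have hz : (d : ℝ) / r ≤ y := by
    rw [div_le_iff₀ (by linarith)]
    have : (d : ℝ) ^ 2 ≤ (y * r) ^ 2 := by rw [mul_pow, hrr]; exact hcr
    exact (pow_le_pow_iff_left₀ (by positivity) (by positivity) two_ne_zero).1 this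
  have hz1 : 1 ≤ (d : ℝ) / r := by
    rw [le_div_iff₀ (by linarith)]
    nlinarith
  have h5 := mono hn2 hz1 hz
  -- `(r - 1) d ≤ r ^ 2`
  have h6 : (r - 1) * d ≤ r ^ 2 := by
    have h7 : ((n : ℝ) - 1) * ((d : ℝ) / r) ^ 2 - n * (d / r) ≤ d := by linarith
    rw [← hrr] at h7
    have h8 : (r ^ 2 - 1) * ((d : ℝ) / r) ^ 2 - r ^ 2 * (d / r) =
        (d / r ^ 2) * ((r ^ 2 - 1) * d - r ^ 3) := by
      field_simp
    rw [h8] at h7
    have h9 : (d : ℝ) = (d / r ^ 2) * r ^ 2 := by field_simp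
    rw [h9] at h7
    have hpos : 0 < (d : ℝ) / r ^ 2 := by positivity
    rw [← h9] at h7
    have h10 : (d / r ^ 2) * ((r ^ 2 - 1) * d - r ^ 3) ≤ (d / r ^ 2) * r ^ 2 := by
      rw [← h9]; exact h7
    have h11 := le_of_mul_le_mul_left h10 hpos
    have h12 : (r + 1) * ((r - 1) * d) ≤ (r + 1) * r ^ 2 := by nlinarith
    exact le_of_mul_le_mul_left h12 (by linarith)
  have hr2 : r ≤ 2 := by
    rw [← hrr] at hdr
    have : (r - 1) * r ^ 2 ≤ 1 * r ^ 2 := by nlinarith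
    have := le_of_mul_le_mul_right this (by positivity)
    linarith
  have hn4 : n ≤ 4 := by
    have : (n : ℝ) ≤ 4 := by rw [← hrr]; nlinarith
    exact_mod_cast this
  have hn23 : n = 2 ∨ n = 3 := by
    have := hn.two_le
    have h4' : n ≠ 4 := by rintro rfl; exact absurd hn (by norm_num)
    omega
  rcases hn23 with rfl | rfl
  · have h7 : d ≤ 4 := by
      have h8 : (1.4 : ℝ) ≤ r := by
        rw [hr]; apply Real.le_sqrt_of_sq_le; norm_num
      have h9 : (d : ℝ) < 5.1 := by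
        rw [hrr] at h6; push_cast at h6; nlinarith
      have h10 : (d : ℝ) < 6 := by linarith
      have h11 : d < 6 := by exact_mod_cast h10
      omega
    obtain ⟨k, hk⟩ := Hs_inv hψ hτ h3 h4
    obtain ⟨c, hc⟩ := hnd
    have hk3 : k ≤ 2 := by nlinarith
    have h8 : d = 2 ∨ d = 4 := by omega
    interval_cases k <;> omega
  · have h8 : (1.73 : ℝ) ≤ r := by
      rw [hr]; apply Real.le_sqrt_of_sq_le; norm_num
    have h9 : (d : ℝ) < 6 := by
      rw [hrr] at h6; push_cast at h6; nlinarith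
    have h11 : d < 6 := by exact_mod_cast h9
    obtain ⟨c, hc⟩ := hnd
    omega

end Pool.Agent.Zk49.SF
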