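import Pool.Agent.R503.SIC.Cliff

set_option autoImplicit false

/-! # Expansions in displacement operators -/

namespace Pool.Agent.Zk49.SF

open Finset Complex Matrix
open Pool.Agent.R503.SIC
open scoped ComplexConjugate

variable {d : ℕ} [NeZero d]

abbrev V (d : ℕ) := ZMod d × ZMod d

noncomputable def D (p : V d) : Matrix (ZMod d) (ZMod d) ℂ := Dm p.1 p.2

def sy (p q : V d) : ZMod d := p.2 * q.1 - q.2 * p.1

theorem D_mul (p q : V d) : D p * D q = e (p.2 * q.1) • D (p + q) := Dm_mul _ _ _ _

theorem D_comm (p q : V d) : D p * D q = e (sy p q) • (D q * D p) := Dm_comm _ _ _ _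

theorem D_zero : D (0 : V d) = 1 := Dm_zero

theorem D_inj {p q : V d} {c : ℂ} (h : D p = c • D q) : p = q := by
  obtain ⟨h1, h2⟩ := Dm_inj h
  exact Prod.ext h1 h2

theorem star_D (p : V d) : star (D p) = e (p.2 * p.1) • D (-p) := by
  ext i j
  rw [Matrix.star_apply, Matrix.smul_apply]
  simp only [D, Dm, Matrix.of_apply, smul_eq_mul, Prod.fst_neg, Prod.snd_neg]
  by_cases h : j = i + p.1
  · rw [if_pos h, if_pos (by rw [h]; ring), h, ← e_add]
    rw [show star (e (p.2 * i)) = conj (e (p.2 * i)) from rfl, conj_e]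
    congr 1; ring
  · rw [if_neg h, if_neg (fun h' => h (by rw [h']; ring))]
    simp

theorem D_mul_star (p : V d) : D p * star (D p) = 1 := by
  rw [star_D, Matrix.mul_smul, D_mul, smul_smul, add_neg_cancel, D_zero, ← e_add]
  have : p.2 * p.1 + p.2 * (-p).1 = 0 := by simp
  rw [this, e_zero, one_smul]

theorem star_mul_D (p : V d) : star (D p) * D p = 1 := by
  rw [star_D, Matrix.smul_mul, D_mul, smul_smul, neg_add_cancel, D_zero, ← e_add]
  have : p.2 * p.1 + (-p).2 * p.1 = 0 := by simp
  rw [this, e_zero, one_smul]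

theorem trace_D (p : V d) : (D p).trace = if p = 0 then (d : ℂ) else 0 := by
  rw [Matrix.trace]
  simp only [Matrix.diag_apply, D, Dm, Matrix.of_apply]
  by_cases h1 : p.1 = 0
  · simp only [h1, add_zero, if_true]
    by_cases h2 : p.2 = 0
    · have : p = 0 := Prod.ext h1 h2
      simp [this, e_zero, ZMod.card]
    · have h3 : p ≠ 0 := fun h => h2 (by rw [h]; rfl)
      rw [if_neg h3]
      have := sum_e p.2
      rw [if_neg h2] at this
      rw [← this]
      exact Finset.sum_congr rfl fun j _ => by rw [mul_comm]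
  · have h3 : p ≠ 0 := fun h => h1 (by rw [h]; rfl)
    rw [if_neg h3]
    refine Finset.sum_eq_zero fun j _ => ?_
    rw [if_neg]
    intro h
    exact h1 (by simpa using h.symm)

/-- coefficients -/
noncomputable def co (W : Matrix (ZMod d) (ZMod d) ℂ) (p : V d) : ℂ := (star (D p) * W).trace / d

theorem dne : (d : ℂ) ≠ 0 := Nat.cast_ne_zero.2 (NeZero.ne d)

theorem dpos : (0 : ℝ) < d := Nat.cast_pos.2 (Nat.pos_of_ne_zero (NeZero.ne d))

theorem tr_star (W : Matrix (ZMod d) (ZMod d) ℂ) (p : V d) :
    (star (D p) * W).trace = ∑ j, e (-(p.2 * j)) * W (j + p.1) j := by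
  rw [Matrix.trace]
  refine Finset.sum_congr rfl fun j _ => ?_
  rw [Matrix.diag_apply, Matrix.mul_apply, Finset.sum_eq_single (j + p.1)]
  · rw [Matrix.star_apply]
    simp only [D, Dm, Matrix.of_apply, if_true]
    rw [show star (e (p.2 * j)) = conj (e (p.2 * j)) from rfl, conj_e]
  · intro l _ hl
    rw [Matrix.star_apply]
    simp only [D, Dm, Matrix.of_apply]
    rw [if_neg hl]; simp
  · intro h; exact absurd (Finset.mem_univ _) h

theorem expand (W : Matrix (ZMod d) (ZMod d) ℂ) : W = ∑ p, co W p • D p := by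
  ext i j
  rw [Matrix.sum_apply, Fintype.sum_prod_type]
  rw [Finset.sum_eq_single (i - j)]
  · have h1 : ∀ b : ZMod d, (co W (i - j, b) • D (i - j, b)) i j =
        ∑ l, (e (b * (j - l)) * W (l + (i - j)) l) / d := by
      intro b
      rw [Matrix.smul_apply, co, tr_star]
      simp only [D, Dm, Matrix.of_apply, smul_eq_mul]
      rw [if_pos (by ring), div_mul_eq_mul_div, Finset.sum_mul, Finset.sum_div]
      refine Finset.sum_congr rfl fun l _ => ?_
      rw [show b * (j - l) = -(b * l) + b * j by ring, e_add]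
      ring
    rw [Finset.sum_congr rfl fun b _ => h1 b, Finset.sum_comm]
    rw [Finset.sum_eq_single j]
    · rw [← Finset.sum_div, ← Finset.sum_mul, sum_e, if_pos (sub_self j)]
      rw [mul_div_assoc, mul_div_cancel₀ _ dne]
      congr 1; ring
    · intro l _ hl
      rw [← Finset.sum_div, ← Finset.sum_mul, sum_e, if_neg (sub_ne_zero.2 (Ne.symm hl))]
      simp
    · intro h; exact absurd (Finset.mem_univ _) h
  · intro a _ ha
    refine Finset.sum_eq_zero fun b _ => ?_
    rw [Matrix.smul_apply]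
    simp only [D, Dm, Matrix.of_apply]
    rw [if_neg (fun h => ha (by rw [h]; ring)), smul_zero]
  · intro h; exact absurd (Finset.mem_univ _) h

theorem parseval (W : Matrix (ZMod d) (ZMod d) ℂ) :
    (star W * W).trace = ((d * ∑ p, ‖co W p‖ ^ 2 : ℝ) : ℂ) := by
  have h1 : star W * W = ∑ p, conj (co W p) • (star (D p) * W) := by
    have h0 : star W = ∑ p, conj (co W p) • star (D p) := by
      conv_lhs => rw [expand W]
      rw [star_sum]
      exact Finset.sum_congr rfl fun p _ => star_smul _ _
    rw [h0, Finset.sum_mul]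
    exact Finset.sum_congr rfl fun p _ => Matrix.smul_mul _ _ _
  rw [h1, Matrix.trace_sum]
  push_cast
  rw [Finset.mul_sum]
  refine Finset.sum_congr rfl fun p _ => ?_
  rw [Matrix.trace_smul, smul_eq_mul]
  have h2 : (star (D p) * W).trace = d * co W p := by
    rw [co, mul_div_cancel₀ _ dne]
  have h3 := conj_mul_self' (co W p)
  push_cast at h3
  rw [h2, ← h3]
  ring

theorem twirl (W : Matrix (ZMod d) (ZMod d) ℂ) :
    ∑ p, D p * W * star (D p) = (d * W.trace) • (1 : Matrix (ZMod d) (ZMod d) ℂ) := by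
  ext i j
  rw [Matrix.sum_apply, Fintype.sum_prod_type]
  have h1 : ∀ a b : ZMod d, (D (a, b) * W * star (D (a, b))) i j =
      e (b * (i - j)) * W (i - a) (j - a) := by
    intro a b
    rw [Matrix.mul_apply, Finset.sum_eq_single (j - a)]
    · rw [Matrix.mul_apply, Finset.sum_eq_single (i - a)]
      · rw [Matrix.star_apply]
        simp only [D, Dm, Matrix.of_apply]
        rw [if_pos (by ring), if_pos (by ring)]
        rw [show star (e (b * (j - a))) = conj (e (b * (j - a))) from rfl, conj_e]
        rw [show b * (i - j) = b * (i - a) + -(b * (j - a)) by ring, e_add]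
        ring
      · intro l _ hl
        simp only [D, Dm, Matrix.of_apply]
        rw [if_neg (fun h => hl (by rw [h]; ring)), zero_mul]
      · intro h; exact absurd (Finset.mem_univ _) h
    · intro l _ hl
      rw [Matrix.star_apply]
      simp only [D, Dm, Matrix.of_apply]
      rw [if_neg (fun h => hl (by rw [h]; ring))]; simp
    · intro h; exact absurd (Finset.mem_univ _) h
  rw [Finset.sum_congr rfl fun a _ => Finset.sum_congr rfl fun b _ => h1 a b]
  rw [Finset.sum_congr rfl fun a _ => (Finset.sum_mul _ _ _).symm]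
  rw [← Finset.mul_sum, sum_e, Matrix.smul_apply, Matrix.one_apply, smul_eq_mul]
  by_cases h : i = j
  · subst h
    rw [if_pos (sub_self i), if_pos rfl, mul_one]
    congr 1
    rw [Matrix.trace]
    exact Fintype.sum_equiv (Equiv.subLeft i) _ _ fun a => rfl
  · rw [if_neg (sub_ne_zero.2 h), if_neg h]; simp

/-- expectation -/
noncomputable def ex (ψ : ZMod d → ℂ) (W : Matrix (ZMod d) (ZMod d) ℂ) : ℂ := star ψ ⬝ᵥ (W *ᵥ ψ)

theorem ex_D (ψ : ZMod d → ℂ) (p : V d) : ex ψ (D p) = ov ψ p.1 p.2 := by
  unfold ex ov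
  have h1 : ∀ i, (D p *ᵥ ψ) i = e (p.2 * (i - p.1)) * ψ (i - p.1) := by
    intro i
    rw [Matrix.mulVec, dotProduct, Finset.sum_eq_single (i - p.1)]
    · simp [D, Dm]
    · intro j _ hj
      simp only [D, Dm, Matrix.of_apply]
      rw [if_neg (fun h => hj (by rw [h]; ring)), zero_mul]
    · intro h; exact absurd (Finset.mem_univ _) h
  rw [dotProduct]
  refine Fintype.sum_equiv (Equiv.subRight p.1) _ _ fun i => ?_
  rw [h1, Pi.star_apply]
  simp

theorem ex_expand (ψ : ZMod d → ℂ) (W : Matrix (ZMod d) (ZMod d) ℂ) :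
    ex ψ W = ∑ p : V d, co W p * ov ψ p.1 p.2 := by
  conv_lhs => rw [expand W]
  unfold ex
  rw [Matrix.sum_mulVec, dotProduct_sum]
  refine Finset.sum_congr rfl fun p _ => ?_
  rw [Matrix.smul_mulVec, dotProduct_smul, smul_eq_mul]
  congr 1
  exact ex_D ψ p

end Pool.Agent.Zk49.SF
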