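import Pool.Agent.Zk49.SF.Brg

set_option autoImplicit false

/-! # The order of the symmetry group -/

namespace Pool.Agent.Zk49.SF

open Finset
open Pool.Agent.R503.SIC

variable {d : ℕ} [NeZero d]

omit [NeZero d] in
theorem addOrderOf_map {σ : Equiv.Perm (V d)} (h : Lin σ) (x : V d) :
    addOrderOf (σ x) = addOrderOf x := by
  rw [addOrderOf_eq_addOrderOf_iff]
  intro n
  rw [← h.nsmul]
  constructor
  · intro h2; rw [← h.zero] at h2; exact σ.injective h2
  · intro h2; rw [h2, h.zero]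

/-- the order of the group divides the number of vectors of order `d` -/
theorem card_dvd {ψ : ZMod d → ℂ} (hψ : Fid ψ) (hd3 : d ≠ 3) :
    Nat.card (Hs ψ) ∣ (Finset.univ.filter fun v : V d => addOrderOf v = d).card := by
  classical
  let act : MulAction (Hs ψ) {v : V d // addOrderOf v = d} :=
    { smul := fun σ x => ⟨σ.1 x.1, by rw [addOrderOf_map (Hs_lin σ.2)]; exact x.2⟩
      one_smul := fun x => rfl
      mul_smul := fun _ _ _ => rfl }
  have hstab : ∀ x : {v : V d // addOrderOf v = d}, MulAction.stabilizer (Hs ψ) x = ⊥ := by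
    intro x
    rw [Subgroup.eq_bot_iff_forall]
    intro σ hσ
    rw [MulAction.mem_stabilizer_iff] at hσ
    have h1 : σ.1 x.1 = x.1 := congrArg Subtype.val hσ
    exact Subtype.ext (free hψ hd3 σ.2 x.2 h1)
  have h1 := MulAction.card_eq_sum_card_group_div_card_stabilizer (Hs ψ) {v : V d // addOrderOf v = d}
  have h2 : ∀ ω : MulAction.orbitRel.Quotient (Hs ψ) {v : V d // addOrderOf v = d},
      Fintype.card (Hs ψ) / Fintype.card (MulAction.stabilizer (Hs ψ) (Quotient.out ω)) =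
        Nat.card (Hs ψ) := by
    intro ω
    rw [← Nat.card_eq_fintype_card, ← Nat.card_eq_fintype_card, hstab, Subgroup.card_bot,
      Nat.div_one]
  rw [Finset.sum_congr rfl fun ω _ => h2 ω, Finset.sum_const, smul_eq_mul,
    Fintype.card_subtype] at h1
  rw [h1]
  exact Dvd.intro_left _ rfl

theorem even_sq {ψ : ZMod d → ℂ} (hψ : Fid ψ) (h : 2 ∣ Nat.card (Hs ψ)) : ∃ n : ℕ, n ^ 2 = d + 1 := by
  have := Fact.mk Nat.prime_two
  obtain ⟨x, hx⟩ := exists_prime_orderOf_dvd_card' 2 h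
  apply Hs_inv hψ x.2
  · have h1 := pow_orderOf_eq_one x
    rw [hx] at h1
    exact congrArg Subtype.val h1
  · intro h1
    have h2 : x = 1 := Subtype.ext h1
    rw [h2, orderOf_one] at hx
    norm_num at hx

theorem not_dvd {ψ : ZMod d → ℂ} (hψ : Fid ψ) {p : ℕ} (hp : p.Prime) (hp5 : 5 ≤ p)
    (hq : ∀ q : ℕ, q.Prime → q ∣ d → ¬ p ∣ q ^ 2 - 1) : ¬ p ∣ Nat.card (Hs ψ) := by
  intro h
  have := Fact.mk hp
  obtain ⟨x, hx⟩ := exists_prime_orderOf_dvd_card' p h
  have h1 := pow_orderOf_eq_one x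
  rw [hx] at h1
  have h2 : x = 1 := Subtype.ext (no_p hψ hp hp5 hq x.2 (congrArg Subtype.val h1))
  rw [h2, orderOf_one] at hx
  exact hp.one_lt.ne hx

/-- the number of vectors of order `p ^ k` -/
theorem count_pp {p k : ℕ} (hp : p.Prime) (hd : d = p ^ (k + 1)) :
    (Finset.univ.filter fun v : V d => addOrderOf v = d).card = (p ^ k) ^ 2 * (p ^ 2 - 1) := by
  have h1 : (Finset.univ.filter fun v : V d => ¬ addOrderOf v = d).card = (p ^ k) ^ 2 := by
    rw [← card_tor (d := d) (n := p ^ k) (by rw [hd]; exact pow_dvd_pow p (Nat.le_succ k))]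
    refine (card_sub _ fun v => ?_).symm
    rw [Finset.mem_filter, mem_Tor]
    constructor
    · rintro ⟨-, hv⟩
      have h2 : addOrderOf v ∣ p ^ (k + 1) := by
        rw [← hd]; exact addOrderOf_dvd_of_nsmul_eq_zero (d_smul v)
      obtain ⟨i, hi, hi'⟩ := (Nat.dvd_prime_pow hp).1 h2
      have h3 : i ≠ k + 1 := by
        rintro rfl
        exact hv (by rw [hi', hd])
      have h4 : addOrderOf v ∣ p ^ k := by
        rw [hi']; exact pow_dvd_pow p (by omega)
      exact addOrderOf_dvd_iff_nsmul_eq_zero.1 h4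
    · intro hv
      refine ⟨Finset.mem_univ _, fun h2 => ?_⟩
      have h3 := addOrderOf_dvd_of_nsmul_eq_zero hv
      rw [h2, hd] at h3
      have := (Nat.pow_dvd_pow_iff_le_right hp.one_lt).1 h3
      omega
  have h2 := Finset.card_filter_add_card_filter_not (s := (Finset.univ : Finset (V d)))
    (fun v : V d => addOrderOf v = d)
  rw [h1, Finset.card_univ, card_V] at h2
  have h3 : 1 ≤ p ^ 2 := Nat.one_le_pow _ _ hp.pos
  have h4 : (p ^ k) ^ 2 * (p ^ 2 - 1) = d ^ 2 - (p ^ k) ^ 2 := by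
    rw [Nat.mul_sub, mul_one, hd]
    congr 1; ring
  rw [h4]
  omega

theorem odd_pp {ψ : ZMod d → ℂ} (hψ : Fid ψ) {p k : ℕ} (hp : p.Prime) (hd : d = p ^ (k + 1))
    (h3 : d ≠ 3) (h8 : d ≠ 8) : Odd (Nat.card (Hs ψ)) := by
  rw [← Nat.not_even_iff_odd, even_iff_two_dvd]
  intro h
  obtain ⟨n, hn⟩ := even_sq hψ h
  have h1 : IsPrimePow d := by
    rw [hd]; exact hp.isPrimePow.pow (Nat.succ_ne_zero k)
  rcases primePow hn h1 with h2 | h2
  · exact h3 h2
  · exact h8 h2

/-- prime powers, `p ≠ 3` -/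
theorem pp {ψ : ZMod d → ℂ} (hψ : Fid ψ) {p k : ℕ} (hp : p.Prime) (hd : d = p ^ (k + 1))
    (hp3 : p ≠ 3) (h8 : d ≠ 8) : Nat.card (Hs ψ) ∣ p ^ 2 - 1 := by
  have h3 : d ≠ 3 := by
    rintro rfl
    have h1 : p ∣ 3 := by rw [hd]; exact dvd_pow_self p (Nat.succ_ne_zero k)
    exact hp3 ((Nat.prime_dvd_prime_iff_eq hp Nat.prime_three).1 h1)
  have h1 := card_dvd hψ h3
  rw [count_pp hp hd] at h1
  have h2 : Nat.Coprime (Nat.card (Hs ψ)) p := by
    rcases Nat.lt_or_ge p 5 with h5 | h5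
    · have h6 : p = 2 := by
        have := hp.two_le
        have h4 : p ≠ 4 := by rintro rfl; exact absurd hp (by norm_num)
        omega
      rw [h6]
      exact (odd_pp hψ hp hd h3 h8).coprime_two_right
    · have h6 := not_dvd hψ hp h5 (by
        intro q hq hqd hpq
        have h7 : q = p := by
          rw [hd] at hqd
          exact (Nat.prime_dvd_prime_iff_eq hq hp).1 (hq.dvd_of_dvd_pow hqd)
        rw [h7] at hpq
        have h8 : p ∣ 1 := by
          have h9 := (Nat.dvd_sub_iff_right (Nat.one_le_pow 2 p hp.pos)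
            (dvd_pow_self p two_ne_zero)).1 hpq
          exact h9
        exact hp.one_lt.ne' (Nat.dvd_one.1 h8))
      exact ((Nat.Prime.coprime_iff_not_dvd hp).2 h6).symm
  exact Nat.Coprime.dvd_of_dvd_mul_left ((h2.pow_right k).pow_right 2) h1

/-- powers of three: divisibility -/
theorem three_dvd {ψ : ZMod d → ℂ} (hψ : Fid ψ) {k : ℕ} (hd : d = 3 ^ (k + 2)) :
    Nat.card (Hs ψ) ∣ 3 ^ (2 * (k + 1)) := by
  have h3 : d ≠ 3 := by
    have : 3 ^ 2 ≤ 3 ^ (k + 2) := Nat.pow_le_pow_right (by norm_num) (by omega)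
    omega
  have h8 : d ≠ 8 := by
    have : 3 ^ 2 ≤ 3 ^ (k + 2) := Nat.pow_le_pow_right (by norm_num) (by omega)
    omega
  have h1 := card_dvd hψ h3
  rw [count_pp (k := k + 1) Nat.prime_three (by rw [hd]), ← pow_mul] at h1
  have h2 : Nat.Coprime (Nat.card (Hs ψ)) (3 ^ 2 - 1) := by
    have := (odd_pp (k := k + 1) hψ Nat.prime_three (by rw [hd]) h3 h8).coprime_two_right
    exact this.pow_right 3
  rw [mul_comm 2]
  exact Nat.Coprime.dvd_of_dvd_mul_right h2 h1

/-- an element of order three which is trivial on the `3`-torsion -/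
theorem three_descent {τ : Equiv.Perm (V d)} (h : Lin τ) (hτ : τ ^ 3 = 1) {k : ℕ}
    (hd : d = 3 * 3 ^ k) (hT : ∀ x : V d, 3 • x = 0 → τ x = x) (x : V d) : 3 • (τ x - x) = 0 := by
  have hM : ∀ x : V d, ∃ z : V d, (En h - 1) x = 3 • z := by
    intro x
    rw [En_sub]
    apply div_two hd (by positivity)
    rw [smul_sub, ← h.nsmul, hT, sub_self]
    rw [← mul_smul, ← hd, d_smul]
  choose M hM using hM
  obtain ⟨N, hNdef⟩ : ∃ N, N = En h - 1 := ⟨_, rfl⟩
  rw [← hNdef] at hM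
  have hstep : ∀ j : ℕ, (∀ x, 3 ^ (j + 2) • N x = 0) → ∀ x, 3 ^ (j + 1) • N x = 0 := by
    intro j hj x
    have h1 := bin h hτ x
    simp only [← hNdef] at h1
    rw [Finset.sum_range_succ, Finset.sum_range_succ, Finset.sum_range_succ,
      Finset.sum_range_one] at h1
    simp only [pow_zero, Nat.choose_zero_right, one_smul, Module.End.one_apply, pow_one,
      Nat.choose_one_right, Nat.choose_self] at h1
    have hc : Nat.choose 3 2 = 3 := rfl
    rw [hc] at h1
    have h2 : (N ^ 2) x = 3 • N (M x) := by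
      rw [pow_two, Module.End.mul_apply, hM x, map_nsmul]
    have h3 : (N ^ 3) x = 9 • N (M (M x)) := by
      have : (N ^ 3) x = N (N (N x)) := by
        simp only [pow_succ, pow_zero, one_mul, Module.End.mul_apply]
      rw [this, hM x, map_nsmul, hM (M x), map_nsmul, map_nsmul, ← mul_smul]
      norm_num
    rw [h2, h3] at h1
    have h4 : 3 • N x + 3 • (3 • N (M x)) + 9 • N (M (M x)) = 0 := by
      have : x + (3 • N x + 3 • (3 • N (M x)) + 9 • N (M (M x))) = x + 0 := by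
        rw [add_zero]
        conv_rhs => rw [← h1]
        abel
      exact add_left_cancel this
    have h5 := congrArg (fun z => 3 ^ j • z) h4
    simp only [smul_add, smul_zero, ← mul_smul] at h5
    have e1 : 3 ^ j * 3 * 3 = 3 ^ (j + 2) := by ring
    have e2 : 3 ^ j * 9 = 3 ^ (j + 2) := by ring
    have e3 : 3 ^ j * (3 * 3) = 3 ^ (j + 2) := by ring
    have e4 : 3 ^ j * 3 = 3 ^ (j + 1) := by ring
    rw [← mul_assoc, e1, e2, e4, hj, hj, add_zero, add_zero] at h5
    exact h5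
  have h1 : ∀ t : ℕ, (∀ x, 3 ^ (1 + t) • N x = 0) → ∀ x, 3 ^ 1 • N x = 0 := by
    intro t
    induction t with
    | zero => intro h2; exact h2
    | succ t ih =>
      intro h2
      apply ih
      intro x
      have := hstep t (by intro x; have := h2 x; rwa [show 1 + (t + 1) = t + 2 by ring] at this) x
      rwa [show t + 1 = 1 + t by ring] at this
  have h2 := h1 k (by
    intro x
    have : 3 ^ (1 + k) = d := by rw [hd]; ring
    rw [this, d_smul]) x
  rw [pow_one, hNdef, En_sub] at h2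
  exact h2

/-- a symmetry trivial on the `3`-torsion is trivial if `d = 3 ^ k`, `k ≥ 3` -/
theorem three_triv {ψ : ZMod d → ℂ} (hψ : Fid ψ) {k : ℕ} (hd : d = 3 ^ (k + 3))
    {ρ : Equiv.Perm (V d)} (hρ : ρ ∈ Hs ψ) (hT : ∀ x : V d, 3 • x = 0 → ρ x = x) : ρ = 1 := by
  by_contra hne
  have hcard := three_dvd (k := k + 1) hψ (by rw [hd])
  have ho : orderOf ρ ∣ 3 ^ (2 * (k + 1 + 1)) := by
    have h1 : orderOf (⟨ρ, hρ⟩ : Hs ψ) ∣ Nat.card (Hs ψ) := orderOf_dvd_natCard _
    rw [← Subgroup.orderOf_coe] at h1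
    exact h1.trans hcard
  obtain ⟨b, -, hb⟩ := (Nat.dvd_prime_pow Nat.prime_three).1 ho
  have hb0 : b ≠ 0 := by
    rintro rfl
    rw [pow_zero] at hb
    exact hne (orderOf_eq_one_iff.1 hb)
  obtain ⟨b', rfl⟩ := Nat.exists_eq_succ_of_ne_zero hb0
  have h3 : (ρ ^ 3 ^ b') ^ 3 = 1 := by
    rw [← pow_mul, ← pow_succ, ← Nat.succ_eq_add_one, ← hb, pow_orderOf_eq_one]
  have h4 : ρ ^ 3 ^ b' ≠ 1 := by
    intro h
    have h5 := orderOf_dvd_of_pow_eq_one h
    rw [hb] at h5
    have := (Nat.pow_dvd_pow_iff_le_right (by norm_num : 1 < 3)).1 h5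
    omega
  have hτ := (Hs ψ).pow_mem hρ (3 ^ b')
  have hl := Hs_lin hτ
  have hd' : d = 3 * 3 ^ (k + 2) := by rw [hd]; ring
  have h5 := three_descent hl h3 hd' (fun x hx => Function.IsFixedPt.perm_pow (hT x hx) _)
  have h6 := tor_le hl hd' (by positivity) h5
  have hmd : 3 ^ (k + 2) ∣ d := ⟨3, by rw [hd']; ring⟩
  have hdvd : (3 ^ (k + 2)) ^ 2 ∣ (Fx (ρ ^ 3 ^ b')).card := by
    rw [← card_Fg hl, ← card_tor hmd]
    exact AddSubgroup.card_dvd_of_le h6
  have hdvd2 : (Fx (ρ ^ 3 ^ b')).card ∣ d ^ 2 := by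
    rw [← card_Fg hl, ← natcard_V]
    exact AddSubgroup.card_addSubgroup_dvd_card _
  have hcpos : 0 < (Fx (ρ ^ 3 ^ b')).card := Nat.pos_of_dvd_of_pos hdvd2
    (by have := Nat.pos_of_ne_zero (NeZero.ne d); positivity)
  have hrank := Hs_rank hψ hτ Nat.prime_three h3 h4
  obtain ⟨y, hy⟩ : ∃ y, y = Real.sqrt (Fx (ρ ^ 3 ^ b')).card := ⟨_, rfl⟩
  have hyy : y ^ 2 = (Fx (ρ ^ 3 ^ b')).card := by rw [hy, Real.sq_sqrt (Nat.cast_nonneg _)]
  rw [← hy, ← hyy] at hrank
  obtain ⟨m, hm⟩ : ∃ m : ℕ, m = 3 ^ (k + 2) := ⟨_, rfl⟩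
  have hm9 : 9 ≤ m := by
    rw [hm]
    calc 9 = 3 ^ 2 := by norm_num
      _ ≤ 3 ^ (k + 2) := Nat.pow_le_pow_right (by norm_num) (by omega)
  rw [← hm] at hdvd hd'
  have h7 : (m : ℝ) ≤ y := by rw [hy]; exact sqrt_ge (Nat.le_of_dvd hcpos hdvd)
  have hm9r : (9 : ℝ) ≤ m := by exact_mod_cast hm9
  have h8 := mono (n := (3 : ℕ)) (by norm_num) (by linarith) h7
  have hdr : (d : ℝ) = 3 * m := by rw [hd']; push_cast; ring
  rw [hdr] at hrank
  push_cast at h8 hrank
  nlinarith

/-- powers of three -/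
theorem three {ψ : ZMod d → ℂ} (hψ : Fid ψ) {k : ℕ} (hd : d = 3 ^ (k + 3)) :
    Nat.card (Hs ψ) ∣ 3 := by
  classical
  have hcard := three_dvd (k := k + 1) hψ (by rw [hd])
  obtain ⟨a, -, ha⟩ := (Nat.dvd_prime_pow Nat.prime_three).1 hcard
  have := Fact.mk Nat.prime_three
  have hpg : IsPGroup 3 (Hs ψ) := IsPGroup.of_card ha
  have h3d : 3 ∣ d := by rw [hd]; exact dvd_pow_self 3 (by omega)
  have htor := card_tor h3d
  let act : MulAction (Hs ψ) (Tor d 3) :=
    { smul := fun σ x => ⟨σ.1 x.1, by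
        rw [mem_Tor, ← (Hs_lin σ.2).nsmul, mem_Tor.1 x.2, (Hs_lin σ.2).zero]⟩
      one_smul := fun x => rfl
      mul_smul := fun _ _ _ => rfl }
  obtain ⟨v, hv, hv0⟩ := hpg.exists_fixed_point_of_prime_dvd_card_of_fixed_point (Tor d 3)
    (by rw [htor]; norm_num) (a := 0) (by
      intro σ
      exact Subtype.ext (Hs_lin σ.2).zero)
  have hvf : ∀ σ ∈ Hs ψ, σ v.1 = v.1 := fun σ hσ => congrArg Subtype.val (hv ⟨σ, hσ⟩)
  have hv0' : v.1 ≠ 0 := fun h => hv0 (Subtype.ext h.symm)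
  obtain ⟨S, hS⟩ : ∃ S : Finset (V d), S = {0, v.1, -v.1} := ⟨_, rfl⟩
  have hSc : S.card ≤ 3 := by rw [hS]; exact Finset.card_le_three
  obtain ⟨T, hTdef⟩ : ∃ T : Finset (V d), T = Finset.univ.filter fun x : V d => 3 • x = 0 := ⟨_, rfl⟩
  have hTc : T.card = 9 := by
    have : Nat.card (Tor d 3) = T.card := card_sub _ fun x => by
      rw [hTdef, Finset.mem_filter, mem_Tor]; simp
    rw [← this, htor]; norm_num
  have hmemT : ∀ x, x ∈ T ↔ 3 • x = 0 := by intro x; rw [hTdef, Finset.mem_filter]; simp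
  have hST : S ⊆ T := by
    intro x hx
    rw [hS, Finset.mem_insert, Finset.mem_insert, Finset.mem_singleton] at hx
    rw [hmemT]
    rcases hx with rfl | rfl | rfl
    · exact smul_zero _
    · exact v.2
    · rw [smul_neg, mem_Tor.1 v.2, neg_zero]
  obtain ⟨u, hu⟩ : ∃ u, u ∈ T \ S := by
    apply Finset.card_pos.1
    rw [Finset.card_sdiff_of_subset hST]
    omega
  rw [Finset.mem_sdiff, hmemT] at hu
  have hSf : ∀ σ ∈ Hs ψ, ∀ x ∈ S, σ x = x := by
    intro σ hσ x hx
    rw [hS, Finset.mem_insert, Finset.mem_insert, Finset.mem_singleton] at hx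
    rcases hx with rfl | rfl | rfl
    · exact (Hs_lin hσ).zero
    · exact hvf σ hσ
    · rw [(Hs_lin hσ).neg, hvf σ hσ]
  -- injection
  have hinj : ∀ σ ∈ Hs ψ, ∀ τ ∈ Hs ψ, σ u = τ u → σ = τ := by
    intro σ hσ τ hτ hst
    have hρ : τ⁻¹ * σ ∈ Hs ψ := (Hs ψ).mul_mem ((Hs ψ).inv_mem hτ) hσ
    have hρu : (τ⁻¹ * σ) u = u := by
      rw [Equiv.Perm.mul_apply, hst]
      exact τ.symm_apply_apply u
    have hl := Hs_lin hρ
    have h1 : Nat.card (Tor d 3 ⊓ Fg hl : AddSubgroup (V d)) ∣ 3 ^ 2 := by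
      rw [← htor]; exact AddSubgroup.card_dvd_of_le inf_le_left
    obtain ⟨i, hi, hc⟩ := (Nat.dvd_prime_pow Nat.prime_three).1 h1
    have h2 : 3 < Nat.card (Tor d 3 ⊓ Fg hl : AddSubgroup (V d)) := by
      have h4 : Nat.card (Tor d 3 ⊓ Fg hl : AddSubgroup (V d)) =
          (T.filter fun x => (τ⁻¹ * σ) x = x).card := card_sub _ fun x => by
        rw [Finset.mem_filter, hmemT, AddSubgroup.mem_inf, mem_Tor, mem_Fg]
      rw [h4]
      have h5 : insert u S ⊆ T.filter fun x => (τ⁻¹ * σ) x = x := by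
        intro x hx
        rw [Finset.mem_insert] at hx
        rw [Finset.mem_filter]
        rcases hx with rfl | hx
        · exact ⟨(hmemT _).2 hu.1, hρu⟩
        · exact ⟨hST hx, hSf _ hρ x hx⟩
      have h6 : S.card = 3 := by
        have hne : v.1 ≠ -v.1 := by
          intro h
          have h7 : 2 • v.1 = 0 := by
            rw [two_smul]; nth_rewrite 1 [h]; exact neg_add_cancel _
          exact hv0' (eq_zero_of_coprime (by norm_num : Nat.Coprime 2 3) h7 v.2)
        rw [hS]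
        rw [Finset.card_insert_of_notMem, Finset.card_insert_of_notMem, Finset.card_singleton]
        · rw [Finset.mem_singleton]; exact hne
        · rw [Finset.mem_insert, Finset.mem_singleton]
          rintro (h | h)
          · exact hv0' h.symm
          · exact hv0' (neg_eq_zero.1 h.symm)
      have h7 := Finset.card_le_card h5
      rw [Finset.card_insert_of_notMem hu.2, h6] at h7
      omega
    have h3 : i = 2 := by
      rw [hc] at h2
      interval_cases i
      · norm_num at h2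
      · norm_num at h2
      · rfl
    rw [h3, ← htor] at hc
    have h5 : Tor d 3 ⊓ Fg hl = Tor d 3 := AddSubgroup.eq_of_le_of_card_ge inf_le_left hc.ge
    have h6 : ∀ x : V d, 3 • x = 0 → (τ⁻¹ * σ) x = x := by
      intro x hx
      have h7 : x ∈ Tor d 3 ⊓ Fg hl := by rw [h5]; exact hx
      exact (AddSubgroup.mem_inf.1 h7).2
    have h7 := three_triv hψ hd hρ h6
    exact (inv_mul_eq_one.1 h7).symm
  have hle : Nat.card (Hs ψ) ≤ 6 := by
    have hmap : ∀ σ : Hs ψ, σ.1 u ∈ T \ S := by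
      intro σ
      rw [Finset.mem_sdiff, hmemT, ← (Hs_lin σ.2).nsmul, hu.1, (Hs_lin σ.2).zero]
      refine ⟨rfl, fun h => hu.2 ?_⟩
      have h1 := hSf σ.1 σ.2 _ h
      rwa [σ.1.injective h1] at h
    have h1 : Nat.card (Hs ψ) ≤ Nat.card (T \ S : Finset (V d)) := by
      refine Nat.card_le_card_of_injective (fun σ : Hs ψ => (⟨σ.1 u, hmap σ⟩ : (T \ S : Finset (V d)))) ?_
      intro σ τ hst
      exact Subtype.ext (hinj _ σ.2 _ τ.2 (congrArg Subtype.val hst))
    have h2 : Nat.card (T \ S : Finset (V d)) = (T \ S).card := by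
      rw [Nat.card_eq_fintype_card, Fintype.card_coe]
    have h3 : 3 ≤ S.card := by
      have hne : v.1 ≠ -v.1 := by
        intro h
        have h7 : 2 • v.1 = 0 := by
          rw [two_smul]; nth_rewrite 1 [h]; exact neg_add_cancel _
        exact hv0' (eq_zero_of_coprime (by norm_num : Nat.Coprime 2 3) h7 v.2)
      rw [hS]
      rw [Finset.card_insert_of_notMem, Finset.card_insert_of_notMem, Finset.card_singleton]
      · rw [Finset.mem_singleton]; exact hne
      · rw [Finset.mem_insert, Finset.mem_singleton]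
        rintro (h | h)
        · exact hv0' h.symm
        · exact hv0' (neg_eq_zero.1 h.symm)
    rw [h2, Finset.card_sdiff_of_subset hST] at h1
    omega
  rw [ha] at hle ⊢
  have h1 : a < 2 := by
    by_contra h
    push Not at h
    have : 3 ^ 2 ≤ 3 ^ a := Nat.pow_le_pow_right (by norm_num) h
    omega
  have h2 : a ≤ 1 := by omega
  calc 3 ^ a ∣ 3 ^ 1 := pow_dvd_pow 3 h2
    _ = 3 := pow_one 3

end Pool.Agent.Zk49.SF
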