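import Pool.Agent.Zk49.SF.Tr

set_option autoImplicit false

/-! # The rank inequality -/

namespace Pool.Agent.Zk49.SF

open Finset Complex Matrix
open Pool.Agent.R503.SIC
open scoped ComplexConjugate

variable {d : ℕ} [NeZero d]

theorem Sy.one {ψ : ZMod d → ℂ} : Sy ψ (1 : Matrix (ZMod d) (ZMod d) ℂ) where
  uni := by simp
  nrm := Nrm.one
  fix := by simp

theorem Sy.mul {ψ : ZMod d → ℂ} {A B : Matrix (ZMod d) (ZMod d) ℂ} (hA : Sy ψ A) (hB : Sy ψ B) :
    Sy ψ (A * B) where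
  uni := by rw [star_mul, mul_assoc, ← mul_assoc (star A), hA.uni, one_mul, hB.uni]
  nrm := hA.nrm.mul hB.nrm
  fix := by rw [← Matrix.mulVec_mulVec, hB.fix, hA.fix]

theorem Sy.pow {ψ : ZMod d → ℂ} {A : Matrix (ZMod d) (ZMod d) ℂ} (hA : Sy ψ A) (j : ℕ) :
    Sy ψ (A ^ j) := by
  induction j with
  | zero => rw [pow_zero]; exact Sy.one
  | succ j ih => rw [pow_succ]; exact ih.mul hA

theorem Km_pow_sub (A : Matrix (ZMod d) (ZMod d) ℂ) (j : ℕ) : Km A ⊆ Km (A ^ j) := by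
  intro p hp
  rw [mem_Km] at hp ⊢
  exact (Commute.pow_left hp j).eq

theorem Kp_sub {A B : Matrix (ZMod d) (ZMod d) ℂ} (h : Km A ⊆ Km B) : Kp B ⊆ Kp A := by
  intro q hq
  rw [mem_Kp] at hq ⊢
  exact fun p hp => hq p (h hp)

theorem zero_Kp (A : Matrix (ZMod d) (ZMod d) ℂ) : (0 : V d) ∈ Kp A := by
  rw [mem_Kp]
  intro p _
  simp [sy]

theorem Km_pow {A : Matrix (ZMod d) (ZMod d) ℂ} {n : ℕ} (hn : n.Prime) (hA : A ^ n = 1) {j : ℕ}
    (hj : 0 < j) (hjn : j < n) : Km (A ^ j) = Km A := by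
  apply Finset.Subset.antisymm _ (Km_pow_sub A j)
  have hc : Nat.Coprime j n := ((Nat.Prime.coprime_iff_not_dvd hn).2 (Nat.not_dvd_of_pos_of_lt hj hjn)).symm
  obtain ⟨m, -, hm⟩ := Nat.exists_mul_mod_eq_one_of_coprime hc hn.one_lt
  have h1 : (A ^ j) ^ m = A := by
    rw [← pow_mul, ← Nat.div_add_mod (j * m) n, hm, pow_succ, pow_mul, hA, one_pow, one_mul]
  calc Km (A ^ j) ⊆ Km ((A ^ j) ^ m) := Km_pow_sub _ _
    _ = Km A := by rw [h1]

/-- the sum of the powers -/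
noncomputable def Sg (A : Matrix (ZMod d) (ZMod d) ℂ) (n : ℕ) : Matrix (ZMod d) (ZMod d) ℂ :=
  ∑ j ∈ Finset.range n, A ^ j

theorem mul_Sg {A : Matrix (ZMod d) (ZMod d) ℂ} {n : ℕ} (hA : A ^ n = 1) : A * Sg A n = Sg A n := by
  unfold Sg
  rw [Finset.mul_sum]
  have h1 := Finset.sum_range_succ (fun j => A ^ j) n
  have h2 := Finset.sum_range_succ' (fun j => A ^ j) n
  rw [h1] at h2
  simp only [hA, pow_zero] at h2
  rw [Finset.sum_congr rfl fun j _ => (pow_succ' A j).symm]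
  exact (add_right_cancel h2).symm

theorem pow_mul_Sg {A : Matrix (ZMod d) (ZMod d) ℂ} {n : ℕ} (hA : A ^ n = 1) (j : ℕ) :
    A ^ j * Sg A n = Sg A n := by
  induction j with
  | zero => rw [pow_zero, one_mul]
  | succ j ih => rw [pow_succ, mul_assoc, mul_Sg hA, ih]

theorem star_Sg {ψ : ZMod d → ℂ} {A : Matrix (ZMod d) (ZMod d) ℂ} (h : Sy ψ A) {n : ℕ}
    (hA : A ^ n = 1) : star (Sg A n) * Sg A n = (n : ℂ) • Sg A n := by
  have h1 : star (Sg A n) = ∑ j ∈ Finset.range n, star (A ^ j) := by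
    unfold Sg
    rw [star_sum]
  rw [h1, Finset.sum_mul]
  have h2 : ∀ j ∈ Finset.range n, star (A ^ j) * Sg A n = Sg A n := by
    intro j _
    conv_lhs => rw [← pow_mul_Sg hA j, ← mul_assoc, (h.pow j).uni, one_mul]
  rw [Finset.sum_congr rfl h2, Finset.sum_const, Finset.card_range]
  exact (Nat.cast_smul_eq_nsmul ℂ n _).symm

theorem co_Sg (A : Matrix (ZMod d) (ZMod d) ℂ) (n : ℕ) (q : V d) :
    co (Sg A n) q = ∑ j ∈ Finset.range n, co (A ^ j) q := by
  unfold co Sg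
  rw [Finset.mul_sum, Matrix.trace_sum, Finset.sum_div]

theorem co_smul (c : ℂ) (A : Matrix (ZMod d) (ZMod d) ℂ) (q : V d) : co (c • A) q = c * co A q := by
  unfold co
  rw [Matrix.mul_smul, Matrix.trace_smul, smul_eq_mul, mul_div_assoc]

theorem co_at_zero (A : Matrix (ZMod d) (ZMod d) ℂ) : co A 0 = A.trace / d := by
  unfold co
  rw [D_zero, star_one, one_mul]

theorem norm_ov {ψ : ZMod d → ℂ} (hψ : Fid ψ) {q : V d} (hq : q ≠ 0) :
    ‖ov ψ q.1 q.2‖ = 1 / Real.sqrt (d + 1) := by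
  have h1 := hψ.2 q.1 q.2 (by
    intro h
    apply hq
    rw [Prod.mk.injEq] at h
    exact Prod.ext h.1 h.2)
  have h2 : ‖ov ψ q.1 q.2‖ = Real.sqrt (1 / (d + 1)) := by
    rw [← h1, Real.sqrt_sq (norm_nonneg _)]
  rw [h2, Real.sqrt_div zero_le_one, Real.sqrt_one]

theorem Sg_mulVec {ψ : ZMod d → ℂ} {A : Matrix (ZMod d) (ZMod d) ℂ} (h : Sy ψ A) (n : ℕ) :
    ex ψ (Sg A n) = n * ex ψ 1 := by
  have h1 : ∀ j, ex ψ (A ^ j) = ex ψ 1 := by
    intro j
    have := ex_mul_right (h.pow j).fix 1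
    rwa [one_mul] at this
  unfold Sg
  have h2 : ex ψ (∑ j ∈ Finset.range n, A ^ j) = ∑ j ∈ Finset.range n, ex ψ (A ^ j) := by
    unfold ex
    rw [Matrix.sum_mulVec, dotProduct_sum]
  rw [h2, Finset.sum_congr rfl fun j _ => h1 j, Finset.sum_const, Finset.card_range, nsmul_eq_mul]

theorem ex_one {ψ : ZMod d → ℂ} (hψ : Fid ψ) : ex ψ 1 = 1 := by
  rw [← D_zero, ex_D]
  exact ov_zero hψ.1

/-- **Rank inequality** -/
theorem rank {ψ : ZMod d → ℂ} (hψ : Fid ψ) {A : Matrix (ZMod d) (ZMod d) ℂ} (h : Sy ψ A) {n : ℕ}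
    (hn : n.Prime) (hA : A ^ n = 1) (hK : (Km A).card < d ^ 2) :
    ((n : ℝ) - 1) * (Km A).card ≤ d + n * Real.sqrt (Km A).card := by
  have hn0 : (0 : ℝ) < n := by exact_mod_cast hn.pos
  have hn2 : (2 : ℝ) ≤ n := by exact_mod_cast hn.two_le
  have hnc : (n : ℂ) ≠ 0 := Nat.cast_ne_zero.2 hn.ne_zero
  have hd := dpos (d := d)
  obtain ⟨E, hE⟩ : ∃ E, E = ((n : ℂ)⁻¹) • Sg A n := ⟨_, rfl⟩
  have hEE : star E * E = E := by
    rw [hE, star_smul, Matrix.smul_mul, Matrix.mul_smul, star_Sg h hA, smul_smul, smul_smul]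
    congr 1
    have : star ((n : ℂ)⁻¹) = (n : ℂ)⁻¹ := by simp
    rw [this]
    field_simp
  obtain ⟨x, hx⟩ : ∃ x : ℝ, x = ∑ q, ‖co E q‖ ^ 2 := ⟨_, rfl⟩
  have hco0 : co E 0 = x := by
    have h1 := parseval E
    rw [hEE, ← hx] at h1
    rw [co_at_zero, h1]
    push_cast
    rw [mul_div_cancel_left₀ _ dne]
  have hcoz : ∀ q, q ∉ Kp A → co E q = 0 := by
    intro q hq
    rw [hE, co_smul, co_Sg, Finset.sum_eq_zero, mul_zero]
    intro j _
    exact co_zero fun hq' => hq (Kp_sub (Km_pow_sub A j) hq')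
  obtain ⟨K, hKdef⟩ : ∃ K, K = (Kp A).erase 0 := ⟨_, rfl⟩
  have hsplit : ∀ f : V d → ℝ, (∀ q, q ∉ Kp A → f q = 0) → ∑ q, f q = f 0 + ∑ q ∈ K, f q := by
    intro f hf
    rw [hKdef, Finset.add_sum_erase _ _ (zero_Kp A)]
    exact (Finset.sum_subset (Finset.subset_univ _) fun q _ hq => hf q hq).symm
  have hsplitc : ∀ f : V d → ℂ, (∀ q, q ∉ Kp A → f q = 0) → ∑ q, f q = f 0 + ∑ q ∈ K, f q := by
    intro f hf
    rw [hKdef, Finset.add_sum_erase _ _ (zero_Kp A)]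
    exact (Finset.sum_subset (Finset.subset_univ _) fun q _ hq => hf q hq).symm
  have hx1 : x = x ^ 2 + ∑ q ∈ K, ‖co E q‖ ^ 2 := by
    have h1 := hsplit (fun q => ‖co E q‖ ^ 2) (fun q hq => by rw [hcoz q hq]; simp)
    rw [← hx, hco0, Complex.norm_real, Real.norm_eq_abs, sq_abs] at h1
    exact h1
  have hsum0 : 0 ≤ ∑ q ∈ K, ‖co E q‖ ^ 2 := Finset.sum_nonneg fun q _ => sq_nonneg _
  have hx0 : 0 ≤ x := by rw [hx]; exact Finset.sum_nonneg fun q _ => sq_nonneg _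
  have hxle : x ≤ 1 := by nlinarith
  have hex : ex ψ E = 1 := by
    rw [hE, ex_smul, Sg_mulVec h, ex_one hψ, mul_one, inv_mul_cancel₀ hnc]
  have hkey : (1 - x) ≤ (∑ q ∈ K, ‖co E q‖) / Real.sqrt (d + 1) := by
    have h1 := ex_expand ψ E
    rw [hex, hsplitc (fun q => co E q * ov ψ q.1 q.2) (fun q hq => by rw [hcoz q hq, zero_mul])] at h1
    have h2 : ov ψ (0 : V d).1 (0 : V d).2 = 1 := ov_zero hψ.1
    rw [hco0, h2, mul_one] at h1
    have h3 : ((1 - x : ℝ) : ℂ) = ∑ q ∈ K, co E q * ov ψ q.1 q.2 := by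
      push_cast
      linear_combination h1
    have h4 : |1 - x| = ‖∑ q ∈ K, co E q * ov ψ q.1 q.2‖ := by
      rw [← h3, Complex.norm_real, Real.norm_eq_abs]
    calc 1 - x ≤ |1 - x| := le_abs_self _
      _ = _ := h4
      _ ≤ ∑ q ∈ K, ‖co E q * ov ψ q.1 q.2‖ := norm_sum_le _ _
      _ = ∑ q ∈ K, ‖co E q‖ / Real.sqrt (d + 1) := by
          refine Finset.sum_congr rfl fun q hq => ?_
          rw [hKdef, Finset.mem_erase] at hq
          rw [norm_mul, norm_ov hψ hq.1, mul_one_div]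
      _ = _ := by rw [Finset.sum_div]
  have hcs : (∑ q ∈ K, ‖co E q‖) ^ 2 ≤ K.card * ∑ q ∈ K, ‖co E q‖ ^ 2 := sq_sum_le_card_mul_sum_sq
  have hKc : (K.card : ℝ) = (Kp A).card - 1 := by
    rw [hKdef, Finset.card_erase_of_mem (zero_Kp A)]
    have : 1 ≤ (Kp A).card := Finset.card_pos.2 ⟨0, zero_Kp A⟩
    push_cast [this]
    ring
  obtain ⟨y, hy⟩ : ∃ y, y = Real.sqrt (Km A).card := ⟨_, rfl⟩
  have hy0 : 0 ≤ y := by rw [hy]; exact Real.sqrt_nonneg _
  have hyy : y ^ 2 = (Km A).card := by rw [hy, Real.sq_sqrt (Nat.cast_nonneg _)]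
  have hyd : y < d := by
    have h1 : y ^ 2 < (d : ℝ) ^ 2 := by rw [hyy]; exact_mod_cast hK
    exact lt_of_pow_lt_pow_left₀ 2 hd.le h1
  have hS : ((Kp A).card : ℝ) * y ^ 2 = (d : ℝ) ^ 2 := by
    rw [hyy]; exact_mod_cast card_mul hψ h
  -- upper bound for `x`
  have hxu : n * (d * x) ≤ d + (n - 1) * y := by
    have h1 : ((n : ℝ) * (d * x) : ℝ) = ‖(Sg A n).trace‖ := by
      have h2 : (Sg A n).trace = ((n * (d * x) : ℝ) : ℂ) := by
        have h3 := hco0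
        rw [co_at_zero, div_eq_iff dne, hE, Matrix.trace_smul, smul_eq_mul] at h3
        push_cast
        field_simp at h3
        linear_combination h3
      rw [h2, Complex.norm_real, Real.norm_eq_abs, abs_of_nonneg (by positivity)]
    rw [h1]
    unfold Sg
    rw [Matrix.trace_sum]
    have hn1 : n = (n - 1) + 1 := by have := hn.pos; omega
    calc ‖∑ j ∈ Finset.range n, (A ^ j).trace‖
        ≤ ∑ j ∈ Finset.range n, ‖(A ^ j).trace‖ := norm_sum_le _ _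
      _ = (∑ j ∈ Finset.range (n - 1), ‖(A ^ (j + 1)).trace‖) + ‖(A ^ 0).trace‖ := by
          conv_lhs => rw [hn1]
          rw [Finset.sum_range_succ']
      _ = (∑ j ∈ Finset.range (n - 1), y) + d := by
          congr 1
          · refine Finset.sum_congr rfl fun j hj => ?_
            rw [Finset.mem_range] at hj
            have h3 := Km_pow hn hA (Nat.succ_pos j) (by omega)
            have h4 := tr_mod hψ (h.pow (j + 1)) (zero_Kp _)
            rw [D_zero, star_one, one_mul, h3] at h4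
            rw [hy, ← h4, Real.sqrt_sq (norm_nonneg _)]
          · rw [pow_zero, Matrix.trace_one]
            simp [ZMod.card]
      _ = d + (n - 1) * y := by
          rw [Finset.sum_const, Finset.card_range, nsmul_eq_mul]
          have : ((n - 1 : ℕ) : ℝ) = (n : ℝ) - 1 := by
            rw [Nat.cast_sub hn.pos]; simp
          rw [this]; ring
  have hx1' : x < 1 := by
    by_contra hcon
    have h1 : x = 1 := le_antisymm hxle (not_lt.1 hcon)
    rw [h1] at hxu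
    nlinarith
  -- combine
  have hs : 0 < Real.sqrt (d + 1) := Real.sqrt_pos.2 (by positivity)
  have hss : Real.sqrt (d + 1) ^ 2 = (d : ℝ) + 1 := Real.sq_sqrt (by positivity)
  have h5 : (1 - x) ^ 2 * (d + 1) ≤ ((Kp A).card - 1) * (x - x ^ 2) := by
    rw [le_div_iff₀ hs] at hkey
    have h6 : ((1 - x) * Real.sqrt (d + 1)) ^ 2 ≤ (∑ q ∈ K, ‖co E q‖) ^ 2 := by
      apply pow_le_pow_left₀ _ hkey
      exact mul_nonneg (by linarith) hs.le
    rw [mul_pow, hss] at h6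
    rw [← hKc]
    calc (1 - x) ^ 2 * (d + 1) ≤ _ := h6
      _ ≤ _ := hcs
      _ = _ := by rw [show x - x ^ 2 = ∑ q ∈ K, ‖co E q‖ ^ 2 by linarith]
  have h6 : (1 - x) * (d + 1) ≤ ((Kp A).card - 1) * x := by
    have h7 : (1 - x) * ((1 - x) * (d + 1)) ≤ (1 - x) * (((Kp A).card - 1) * x) := by
      calc (1 - x) * ((1 - x) * (d + 1)) = (1 - x) ^ 2 * (d + 1) := by ring
        _ ≤ _ := h5
        _ = _ := by ring
    exact le_of_mul_le_mul_left h7 (by linarith)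
  have h7 : ((d : ℝ) + 1) * y ^ 2 ≤ (d * x) * (y ^ 2 + d) := by
    have h8 : (d : ℝ) + 1 ≤ (d + (Kp A).card) * x := by linarith
    calc ((d : ℝ) + 1) * y ^ 2 ≤ ((d + (Kp A).card) * x) * y ^ 2 :=
          mul_le_mul_of_nonneg_right h8 (sq_nonneg _)
      _ = (d * y ^ 2 + (Kp A).card * y ^ 2) * x := by ring
      _ = _ := by rw [hS]; ring
  have h8 : n * (((d : ℝ) + 1) * y ^ 2) ≤ (d + (n - 1) * y) * (y ^ 2 + d) := by
    calc (n : ℝ) * (((d : ℝ) + 1) * y ^ 2) ≤ n * ((d * x) * (y ^ 2 + d)) :=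
          mul_le_mul_of_nonneg_left h7 hn0.le
      _ = (n * (d * x)) * (y ^ 2 + d) := by ring
      _ ≤ _ := mul_le_mul_of_nonneg_right hxu (by positivity)
  have h9 : 0 ≤ (y - d) * ((n - 1) * y ^ 2 - n * y - d) := by
    have : (y - d) * ((n - 1) * y ^ 2 - n * y - d) =
      (d + (n - 1) * y) * (y ^ 2 + d) - n * (((d : ℝ) + 1) * y ^ 2) := by ring
    rw [this]; linarith
  have h10 : (n - 1) * y ^ 2 - n * y - d ≤ 0 := by
    by_contra hcon
    push Not at hcon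
    have := mul_neg_of_neg_of_pos (sub_neg.2 hyd) hcon
    linarith
  rw [hyy, hy] at h10
  linarith

/-- a symmetry commuting with all displacement operators is a scalar -/
theorem scalar_of_all {A : Matrix (ZMod d) (ZMod d) ℂ} (h : ∀ p : V d, A * D p = D p * A) :
    ∃ c : ℂ, A = c • 1 := by
  refine ⟨co A 0, ?_⟩
  conv_lhs => rw [expand A]
  rw [Finset.sum_eq_single 0]
  · rw [D_zero]
  · intro q _ hq
    rw [co_zero, zero_smul]
    intro hq'
    rw [mem_Kp] at hq'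
    apply hq
    have h1 := hq' ((1 : ZMod d), 0) (mem_Km.2 (h _))
    have h2 := hq' ((0 : ZMod d), 1) (mem_Km.2 (h _))
    simp only [sy] at h1 h2
    refine Prod.ext ?_ ?_
    · simpa using h2
    · simpa using h1
  · intro h; exact absurd (Finset.mem_univ _) h

theorem card_V : Fintype.card (V d) = d ^ 2 := by
  rw [Fintype.card_prod, ZMod.card, sq]

theorem Km_lt {A : Matrix (ZMod d) (ZMod d) ℂ} (h : ∀ c : ℂ, A ≠ c • 1) : (Km A).card < d ^ 2 := by
  rw [← card_V (d := d)]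
  apply lt_of_le_of_ne (Finset.card_le_univ _)
  intro h1
  rw [Finset.card_eq_iff_eq_univ] at h1
  obtain ⟨c, hc⟩ := scalar_of_all (A := A) fun p => mem_Km.1 (by rw [h1]; exact Finset.mem_univ p)
  exact h c hc

end Pool.Agent.Zk49.SF
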