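import Pool.Agent.Zk49.SF.PP
import Pool.Agent.Zk49.SF.Dick

set_option autoImplicit false

/-! # Reduction modulo a large prime divisor of the dimension -/

namespace Pool.Agent.Zk49.SF

open Finset
open Pool.Agent.R503.SIC

variable {d : ℕ} [NeZero d]

theorem Lin.smul {σ : Equiv.Perm (V d)} (h : Lin σ) (c : ZMod d) (x : V d) :
    σ (c • x) = c • σ x := by
  rw [val_smul, h.nsmul, ← val_smul]

/-- the matrix of `σ` -/
def mat (σ : Equiv.Perm (V d)) : Matrix (Fin 2) (Fin 2) (ZMod d) :=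
  !![(σ (1, 0)).1, (σ (0, 1)).1; (σ (1, 0)).2, (σ (0, 1)).2]

theorem mat_apply {σ : Equiv.Perm (V d)} (h : Lin σ) (x : V d) :
    σ x = (mat σ 0 0 * x.1 + mat σ 0 1 * x.2, mat σ 1 0 * x.1 + mat σ 1 1 * x.2) := by
  have h1 : x = x.1 • ((1 : ZMod d), (0 : ZMod d)) + x.2 • ((0 : ZMod d), (1 : ZMod d)) := by
    ext <;> simp
  conv_lhs => rw [h1]
  rw [h.add, h.smul, h.smul]
  ext <;> simp [mat, mul_comm]

theorem mat_det {σ : Equiv.Perm (V d)} (h : Lin σ) : (mat σ).det = 1 := by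
  have h1 := h.sy ((1 : ZMod d), (0 : ZMod d)) ((0 : ZMod d), (1 : ZMod d))
  rw [Matrix.det_fin_two]
  simp only [SF.sy] at h1
  simp [mat]
  linear_combination -h1

theorem mat_mul {σ τ : Equiv.Perm (V d)} (h : Lin σ) : mat (σ * τ) = mat σ * mat τ := by
  rw [← Matrix.ext_iff]
  simp only [Fin.forall_fin_two]
  have h1 := mat_apply h (τ (1, 0))
  have h2 := mat_apply h (τ (0, 1))
  rw [Prod.ext_iff] at h1 h2
  refine ⟨⟨?_, ?_⟩, ?_, ?_⟩
  · rw [Matrix.mul_apply, Fin.sum_univ_two]; exact h1.1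
  · rw [Matrix.mul_apply, Fin.sum_univ_two]; exact h2.1
  · rw [Matrix.mul_apply, Fin.sum_univ_two]; exact h1.2
  · rw [Matrix.mul_apply, Fin.sum_univ_two]; exact h2.2

theorem mat_one : mat (1 : Equiv.Perm (V d)) = 1 := by
  rw [← Matrix.ext_iff]
  simp only [Fin.forall_fin_two]
  refine ⟨⟨?_, ?_⟩, ?_, ?_⟩ <;> simp [mat]

/-- the reduction modulo `q` -/
def rho (ψ : ZMod d → ℂ) {q : ℕ} (hq : q ∣ d) : Hs ψ →* Matrix (Fin 2) (Fin 2) (ZMod q) where
  toFun σ := (mat σ.1).map (ZMod.castHom hq (ZMod q))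
  map_one' := by
    change (mat (1 : Equiv.Perm (V d))).map _ = 1
    rw [mat_one, Matrix.map_one _ (map_zero _) (map_one _)]
  map_mul' σ τ := by
    change (mat (σ.1 * τ.1)).map _ = _
    rw [mat_mul (Hs_lin σ.2), Matrix.map_mul]

theorem rho_det (ψ : ZMod d → ℂ) {q : ℕ} (hq : q ∣ d) (σ : Hs ψ) : (rho ψ hq σ).det = 1 := by
  have h1 := RingHom.map_det (ZMod.castHom hq (ZMod q)) (mat σ.1)
  rw [mat_det (Hs_lin σ.2), map_one] at h1
  exact h1.symm

theorem cast_zero {q : ℕ} (hq : q ∣ d) {c : ZMod d} (h : ZMod.castHom hq (ZMod q) c = 0) :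
    ∃ e : ZMod d, c = q * e := by
  have h1 : ZMod.castHom hq (ZMod q) ((c.val : ℕ) : ZMod d) = 0 := by
    rw [ZMod.natCast_zmod_val, h]
  rw [map_natCast, ZMod.natCast_eq_zero_iff] at h1
  obtain ⟨m, hm⟩ := h1
  refine ⟨(m : ZMod d), ?_⟩
  rw [← ZMod.natCast_zmod_val c, hm]
  push_cast
  ring

/-- in the kernel of the reduction `σ x - x` is divisible by `q` -/
theorem ker_div {ψ : ZMod d → ℂ} {q : ℕ} (hq : q ∣ d) {σ : Hs ψ} (h : rho ψ hq σ = 1) (x : V d) :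
    ∃ y : V d, σ.1 x = x + q • y := by
  have hc : ∀ i j, ZMod.castHom hq (ZMod q) (mat σ.1 i j - (1 : Matrix (Fin 2) (Fin 2) (ZMod d)) i j)
      = 0 := by
    intro i j
    have h1 := congrFun (congrFun h i) j
    have h2 : (rho ψ hq σ) i j = ZMod.castHom hq (ZMod q) (mat σ.1 i j) := rfl
    rw [map_sub, ← h2, h1]
    simp only [Matrix.one_apply]
    split_ifs
    · rw [map_one, sub_self]
    · rw [map_zero, sub_self]
  obtain ⟨a, ha⟩ := cast_zero hq (hc 0 0)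
  obtain ⟨b, hb⟩ := cast_zero hq (hc 0 1)
  obtain ⟨c, hc'⟩ := cast_zero hq (hc 1 0)
  obtain ⟨e, he⟩ := cast_zero hq (hc 1 1)
  simp at ha hb hc' he
  refine ⟨(a * x.1 + b * x.2, c * x.1 + e * x.2), ?_⟩
  rw [mat_apply (Hs_lin σ.2)]
  ext
  · rw [Prod.fst_add, Prod.smul_fst, nsmul_eq_mul]
    linear_combination x.1 * ha + x.2 * hb
  · rw [Prod.snd_add, Prod.smul_snd, nsmul_eq_mul]
    linear_combination x.1 * hc' + x.2 * he

omit [NeZero d] in
/-- one step of the filtration -/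
theorem filt {σ : Equiv.Perm (V d)} (h : Lin σ) {q i : ℕ} (hi : 1 ≤ i)
    (H : ∀ x : V d, ∃ y, σ x = x + q ^ i • y) (x : V d) (n : ℕ) :
    ∃ y, (σ ^ n) x = x + n • (σ x - x) + q ^ (i + 1) • y := by
  induction n with
  | zero => exact ⟨0, by rw [pow_zero, Equiv.Perm.one_apply, zero_smul, smul_zero]; simp⟩
  | succ n ih =>
    obtain ⟨y, hy⟩ := ih
    obtain ⟨z, hz⟩ := H x
    obtain ⟨w, hw⟩ := H z
    obtain ⟨j, rfl⟩ := Nat.exists_eq_add_of_le' hi
    refine ⟨n • q ^ j • w + σ y, ?_⟩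
    have h1 : σ (σ x - x) = (σ x - x) + q ^ (j + 1) • q ^ (j + 1) • w := by
      have h2 : σ x - x = q ^ (j + 1) • z := by rw [hz]; abel
      rw [h2, h.nsmul, hw, smul_add]
    have h3 : q ^ (j + 1) • q ^ (j + 1) • w = q ^ (j + 1 + 1) • q ^ j • w := by
      rw [← mul_smul, ← mul_smul]
      congr 1
      ring
    rw [pow_succ', Equiv.Perm.mul_apply, hy, h.add, h.add, h.nsmul, h.nsmul, h1, h3, smul_add,
      smul_add, succ_nsmul, smul_comm n (q ^ (j + 1 + 1))]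
    have h4 : σ x = x + (σ x - x) := by abel
    conv_lhs => rw [h4]
    abel

/-- the kernel of the reduction consists of elements trivial modulo every power of `q` -/
theorem ker_all {ψ : ZMod d → ℂ} {q : ℕ} (hq : q ∣ d) {σ : Hs ψ} (h : rho ψ hq σ = 1) {N : ℕ}
    (hN : σ ^ N = 1) (hc : Nat.Coprime N q) (i : ℕ) :
    ∀ x : V d, ∃ y : V d, σ.1 x = x + q ^ (i + 1) • y := by
  induction i with
  | zero =>
    intro x
    obtain ⟨y, hy⟩ := ker_div hq h x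
    exact ⟨y, by rw [zero_add, pow_one]; exact hy⟩
  | succ i ih =>
    intro x
    obtain ⟨y, hy⟩ := filt (Hs_lin σ.2) (Nat.le_add_left 1 i) ih x N
    obtain ⟨z, hz⟩ := ih x
    have h1 : (σ.1 ^ N) x = x := by
      have : σ.1 ^ N = 1 := congrArg Subtype.val hN
      rw [this, Equiv.Perm.one_apply]
    rw [h1] at hy
    obtain ⟨w, hw⟩ : ∃ w, w = σ.1 x - x := ⟨_, rfl⟩
    rw [← hw] at hy
    have h2 : N • w = -(q ^ (i + 1 + 1) • y) := by
      have : x = x + (N • w + q ^ (i + 1 + 1) • y) := by rw [← add_assoc]; exact hy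
      exact eq_neg_of_add_eq_zero_left (left_eq_add.1 this)
    have h3 : w = q ^ (i + 1) • z := by rw [hw, hz]; abel
    -- Bezout
    have hb := Nat.gcd_eq_gcd_ab N q
    rw [hc, Nat.cast_one] at hb
    have h4 : w = (1 : ℤ) • w := (one_smul _ _).symm
    have h5 : w = (N.gcdA q) • (N • w) + (N.gcdB q) • (q • w) := by
      conv_lhs => rw [h4, hb]
      rw [add_smul, mul_comm (N : ℤ), mul_comm (q : ℤ), mul_smul, mul_smul]
      simp only [Nat.cast_smul_eq_nsmul]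
    refine ⟨-((N.gcdA q) • y) + (N.gcdB q) • z, ?_⟩
    have h6 : q • w = q ^ (i + 1 + 1) • z := by
      rw [h3, ← mul_smul]
      congr 1
      ring
    rw [h2, h6] at h5
    have h7 : σ.1 x = x + w := by rw [hw]; abel
    rw [h7, h5, smul_add, smul_neg, smul_neg, smul_comm (q ^ (i + 1 + 1)) (N.gcdA q) y,
      smul_comm (q ^ (i + 1 + 1)) (N.gcdB q) z]

/-- the reduction is faithful if the `q`-part of `d` is larger than `1 + √(d + 1)` -/
theorem rho_inj {ψ : ZMod d → ℂ} (hψ : Fid ψ) {q k m : ℕ} (hqp : q.Prime) (hk : 1 ≤ k)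
    (hd : d = q ^ k * m) (hqm : ¬ q ∣ m) (hm : m + 2 < q ^ k) (hN : ¬ q ∣ Nat.card (Hs ψ))
    (hq : q ∣ d) {σ : Hs ψ} (h : rho ψ hq σ = 1) : σ = 1 := by
  by_contra hne
  have h0 : σ.1 ≠ 1 := fun h1 => hne (Subtype.ext h1)
  have hgen := Hs_gen hψ σ.2 h0
  obtain ⟨k, rfl⟩ := Nat.exists_eq_add_of_le' hk
  have hall := ker_all hq h (N := Nat.card (Hs ψ)) (pow_card_eq_one' (x := σ))
    ((Nat.Prime.coprime_iff_not_dvd hqp).2 hN).symm k
  have hle : Tor d (q ^ (k + 1)) ≤ Fg (Hs_lin σ.2) := by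
    intro x hx
    rw [mem_Tor] at hx
    rw [mem_Fg]
    obtain ⟨y, hy⟩ := hall x
    have h1 : q ^ (k + 1) • (q ^ (k + 1) • y) = 0 := by
      have h2 := congrArg (fun z => q ^ (k + 1) • z) hy
      simp only [smul_add] at h2
      rw [← (Hs_lin σ.2).nsmul, hx, (Hs_lin σ.2).zero, zero_add] at h2
      exact h2.symm
    have h2 : m • (q ^ (k + 1) • y) = 0 := by
      rw [← mul_smul, mul_comm, ← hd, d_smul]
    have h3 := eq_zero_of_coprime (((Nat.Prime.coprime_iff_not_dvd hqp).2 hqm).pow_left (k + 1)) h1 h2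
    rw [hy, h3, add_zero]
  have h1 : (q ^ (k + 1)) ^ 2 ≤ (Fx σ.1).card := by
    rw [← card_Fg (Hs_lin σ.2), ← card_tor (d := d) (n := q ^ (k + 1)) (by rw [hd]; exact dvd_mul_right _ _)]
    exact Nat.le_of_dvd Nat.card_pos (AddSubgroup.card_dvd_of_le hle)
  have h2 : ((q ^ (k + 1) : ℕ) : ℝ) ^ 2 ≤ (1 + Real.sqrt (d + 1)) ^ 2 := by
    refine le_trans ?_ hgen
    exact_mod_cast h1
  have h3 : ((q ^ (k + 1) : ℕ) : ℝ) ≤ 1 + Real.sqrt (d + 1) :=
    (sq_le_sq₀ (by positivity) (by positivity)).1 h2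
  have h4 : ((q ^ (k + 1) : ℕ) : ℝ) - 1 ≤ Real.sqrt (d + 1) := by linarith
  have h5 : (((q ^ (k + 1) : ℕ) : ℝ) - 1) ^ 2 ≤ d + 1 := by
    have hq1 : (1 : ℝ) ≤ ((q ^ (k + 1) : ℕ) : ℝ) := by
      exact_mod_cast Nat.one_le_pow _ _ hqp.pos
    have := pow_le_pow_left₀ (by linarith) h4 2
    rwa [Real.sq_sqrt (by positivity)] at this
  have h6 : (d : ℝ) = ((q ^ (k + 1) : ℕ) : ℝ) * m := by rw [hd]; push_cast; ring
  have h7 : ((m : ℝ) + 2) + 1 ≤ ((q ^ (k + 1) : ℕ) : ℝ) := by exact_mod_cast hm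
  rw [h6] at h5
  have h8 : (0 : ℝ) ≤ m := Nat.cast_nonneg m
  nlinarith

/-- no nontrivial element has trace 2 -/
theorem rho_tr {ψ : ZMod d → ℂ} (hψ : Fid ψ) {q k m : ℕ} (hqp : q.Prime) (hk : 1 ≤ k)
    (hd : d = q ^ k * m) (hqm : ¬ q ∣ m) (hm : m + 2 < q ^ k) (hN : ¬ q ∣ Nat.card (Hs ψ))
    (hq : q ∣ d) {σ : Hs ψ} (hσ : σ ≠ 1) : (rho ψ hq σ).trace ≠ 2 := by
  intro htr
  set M := rho ψ hq σ with hM
  have hdet : M.det = 1 := rho_det ψ hq σ
  have hE : (M - 1) * (M - 1) = 0 := by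
    rw [Matrix.det_fin_two] at hdet
    rw [Matrix.trace_fin_two] at htr
    have h1 : M 1 1 = 2 - M 0 0 := by linear_combination htr
    rw [h1] at hdet
    rw [← Matrix.ext_iff]
    simp only [Fin.forall_fin_two]
    refine ⟨⟨?_, ?_⟩, ?_, ?_⟩ <;>
      simp [Matrix.mul_apply, Fin.sum_univ_two, h1] <;>
      first | linear_combination -hdet | ring
  have hpow : ∀ n : ℕ, M ^ n = 1 + n • (M - 1) := by
    intro n
    induction n with
    | zero => simp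
    | succ n ih =>
      have h1 : M = 1 + (M - 1) := by abel
      have h2 : (1 + n • (M - 1)) * (1 + (M - 1)) = 1 + (n + 1) • (M - 1) := by
        rw [mul_add, mul_one, add_mul, one_mul, smul_mul_assoc, hE, smul_zero, add_zero, add_smul,
          one_smul, add_assoc]
      rw [pow_succ, ih]
      conv_lhs => rw [h1]
      rw [show (1 + n • (1 + (M - 1) - 1)) * (1 + (M - 1)) = (1 + n • (M - 1)) * (1 + (M - 1)) by
        rw [add_sub_cancel_left], h2]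
  have h1 : rho ψ hq (σ ^ q) = 1 := by
    rw [map_pow, ← hM, hpow q, ← Nat.cast_smul_eq_nsmul (ZMod q)]
    simp
  have h2 := rho_inj hψ hqp hk hd hqm hm hN hq h1
  have h3 : orderOf σ ∣ q := orderOf_dvd_of_pow_eq_one h2
  have h4 : orderOf σ ∣ Nat.card (Hs ψ) := orderOf_dvd_natCard σ
  have h5 := Nat.eq_one_of_dvd_coprimes ((Nat.Prime.coprime_iff_not_dvd hqp).2 hN) h3 h4
  exact hσ (orderOf_eq_one_iff.1 h5)

/-- the representation -/
def rep {ψ : ZMod d → ℂ} (hψ : Fid ψ) {q k m : ℕ} (hqp : q.Prime) [Fact q.Prime] (hk : 1 ≤ k)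
    (hd : d = q ^ k * m) (hqm : ¬ q ∣ m) (hm : m + 2 < q ^ k) (hN : ¬ q ∣ Nat.card (Hs ψ))
    (hq : q ∣ d) : Dick.Rep (Hs ψ) (ZMod q) where
  ρ := rho ψ hq
  det := rho_det ψ hq
  tr := fun _ h => rho_tr hψ hqp hk hd hqm hm hN hq h

end Pool.Agent.Zk49.SF
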