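import Pool.Agent.Zk49.SF.Ops

set_option autoImplicit false

/-! # Traces of Clifford symmetries -/

namespace Pool.Agent.Zk49.SF

open Finset Complex Matrix
open Pool.Agent.R503.SIC
open scoped ComplexConjugate

variable {d : ℕ} [NeZero d]

/-- a normalized symmetry of `ψ` -/
structure Sy (ψ : ZMod d → ℂ) (A : Matrix (ZMod d) (ZMod d) ℂ) : Prop where
  uni : star A * A = 1
  nrm : Nrm A
  fix : A *ᵥ ψ = ψ

theorem Sy.uni' {ψ : ZMod d → ℂ} {A : Matrix (ZMod d) (ZMod d) ℂ} (h : Sy ψ A) : A * star A = 1 :=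
  mul_eq_one_comm.1 h.uni

theorem Sy.isUnit {ψ : ZMod d → ℂ} {A : Matrix (ZMod d) (ZMod d) ℂ} (h : Sy ψ A) : IsUnit A :=
  ⟨⟨A, star A, h.uni', h.uni⟩, rfl⟩

theorem Sy.ex_mul {ψ : ZMod d → ℂ} {A : Matrix (ZMod d) (ZMod d) ℂ} (h : Sy ψ A)
    (W : Matrix (ZMod d) (ZMod d) ℂ) : ex ψ (A * W) = ex ψ W := by
  unfold ex
  have h1 : star ψ ᵥ* A = star ψ := by
    have h2 : star ψ ᵥ* star A = star ψ := by
      have h3 := Matrix.star_mulVec A ψ
      rw [h.fix] at h3
      exact h3.symm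
    calc star ψ ᵥ* A = (star ψ ᵥ* star A) ᵥ* A := by rw [h2]
      _ = star ψ := by rw [Matrix.vecMul_vecMul, h.uni, Matrix.vecMul_one]
  rw [← Matrix.mulVec_mulVec, Matrix.dotProduct_mulVec, h1]

theorem ex_mul_right {ψ : ZMod d → ℂ} {A : Matrix (ZMod d) (ZMod d) ℂ} (h : A *ᵥ ψ = ψ)
    (W : Matrix (ZMod d) (ZMod d) ℂ) : ex ψ (W * A) = ex ψ W := by
  unfold ex
  rw [← Matrix.mulVec_mulVec, h]

theorem ex_smul (ψ : ZMod d → ℂ) (c : ℂ) (W : Matrix (ZMod d) (ZMod d) ℂ) :
    ex ψ (c • W) = c * ex ψ W := by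
  unfold ex
  rw [Matrix.smul_mulVec, dotProduct_smul, smul_eq_mul]

theorem ov_ne {ψ : ZMod d → ℂ} (hψ : Fid ψ) (a b : ZMod d) : ov ψ a b ≠ 0 := by
  intro h
  by_cases h1 : (a, b) = (0, 0)
  · rw [Prod.mk.injEq] at h1
    rw [h1.1, h1.2, ov_zero hψ.1] at h
    exact one_ne_zero h
  · have h2 := hψ.2 a b h1
    rw [h, norm_zero] at h2
    have h3 : (0 : ℝ) < 1 / ((d : ℝ) + 1) := by
      have := dpos (d := d)
      positivity
    rw [← h2] at h3
    norm_num at h3

/-- relation of overlaps -/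
theorem Sy.rel {ψ : ZMod d → ℂ} {A : Matrix (ZMod d) (ZMod d) ℂ} (h : Sy ψ A) {p q : V d} {c : ℂ}
    (hc : A * D p = c • (D q * A)) : ov ψ p.1 p.2 = c * ov ψ q.1 q.2 := by
  rw [← ex_D, ← ex_D, ← h.ex_mul (D p), hc, ex_smul, ex_mul_right h.fix]

theorem Sy.c_one {ψ : ZMod d → ℂ} (hψ : Fid ψ) {A : Matrix (ZMod d) (ZMod d) ℂ} (h : Sy ψ A)
    {p : V d} {c : ℂ} (hc : A * D p = c • (D p * A)) : A * D p = D p * A := by
  have h1 := h.rel hc
  have h2 : c = 1 := by
    have h3 : (1 : ℂ) * ov ψ p.1 p.2 = c * ov ψ p.1 p.2 := by rw [one_mul]; exact h1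
    exact (mul_right_cancel₀ (ov_ne hψ _ _) h3).symm
  rw [hc, h2, one_smul]

open Classical in
/-- commuting displacement operators -/
noncomputable def Km (A : Matrix (ZMod d) (ZMod d) ℂ) : Finset (V d) :=
  Finset.univ.filter fun p => A * D p = D p * A

open Classical in
/-- orthogonal complement -/
noncomputable def Kp (A : Matrix (ZMod d) (ZMod d) ℂ) : Finset (V d) :=
  Finset.univ.filter fun q => ∀ p ∈ Km A, sy p q = 0

theorem mem_Km {A : Matrix (ZMod d) (ZMod d) ℂ} {p : V d} : p ∈ Km A ↔ A * D p = D p * A := by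
  simp [Km]

theorem mem_Kp {A : Matrix (ZMod d) (ZMod d) ℂ} {q : V d} :
    q ∈ Kp A ↔ ∀ p ∈ Km A, sy p q = 0 := by
  simp [Kp]

theorem D_star_comm (p q : V d) : D p * star (D q) = e (-sy p q) • (star (D q) * D p) := by
  have h1 : star (D q) * (D p * D q) * star (D q) = e (sy p q) • (star (D q) * (D q * D p) * star (D q)) := by
    rw [D_comm p q, Matrix.mul_smul, Matrix.smul_mul]
  have h2 : star (D q) * (D p * D q) * star (D q) = star (D q) * D p := by
    rw [mul_assoc, mul_assoc, D_mul_star, mul_one]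
  have h3 : star (D q) * (D q * D p) * star (D q) = D p * star (D q) := by
    rw [← mul_assoc, star_mul_D, one_mul]
  rw [h2, h3] at h1
  rw [h1, smul_smul, ← e_add, neg_add_cancel, e_zero, one_smul]

theorem nrm_c {A : Matrix (ZMod d) (ZMod d) ℂ} (hu : star A * A = 1) {p q : V d} {c : ℂ}
    (hc : A * D p = c • (D q * A)) : conj c * c = 1 := by
  have h1 : star (A * D p) * (A * D p) = 1 := by
    rw [star_mul, mul_assoc, ← mul_assoc (star A), hu, one_mul, star_mul_D]
  rw [hc, star_smul, star_mul, Matrix.smul_mul, Matrix.mul_smul, smul_smul, mul_assoc,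
    ← mul_assoc (star (D q)), star_mul_D, one_mul, hu] at h1
  have h2 := congrFun (congrFun h1 0) 0
  simpa using h2

/-- conjugates -/
theorem conj_star {A : Matrix (ZMod d) (ZMod d) ℂ} (hu' : A * star A = 1)
    {p q : V d} {c : ℂ} (hc : A * D p = c • (D q * A)) :
    A * star (D p) * star A = conj c • star (D q) := by
  have h1 : A * D p * star A = c • D q := by
    rw [hc, Matrix.smul_mul, mul_assoc, hu', mul_one]
  have h2 := congrArg star h1
  rw [star_mul, star_mul, star_star, star_smul, ← mul_assoc] at h2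
  exact h2

theorem tr_zero {A : Matrix (ZMod d) (ZMod d) ℂ} {p q : V d} (hp : p ∈ Km A) (hpq : sy p q ≠ 0) :
    (star (D q) * A).trace = 0 := by
  rw [mem_Km] at hp
  have h1 : D p * (star (D q) * A) * star (D p) = e (-sy p q) • (star (D q) * A) := by
    rw [← mul_assoc (D p), D_star_comm, Matrix.smul_mul, Matrix.smul_mul, mul_assoc (star (D q)),
      ← hp, ← mul_assoc (star (D q)), mul_assoc _ (D p), D_mul_star, mul_one]
  have h2 : (D p * (star (D q) * A) * star (D p)).trace = (star (D q) * A).trace := by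
    rw [Matrix.trace_mul_comm, ← mul_assoc, star_mul_D, one_mul]
  rw [h1, Matrix.trace_smul, smul_eq_mul] at h2
  have h3 : (e (-sy p q) - 1) * (star (D q) * A).trace = 0 := by rw [sub_mul, h2]; ring
  rcases mul_eq_zero.1 h3 with h4 | h4
  · exfalso
    apply hpq
    have h5 : e (-sy p q) = e (0 : ZMod d) := by rw [e_zero]; exact sub_eq_zero.1 h4
    exact neg_eq_zero.1 (e_inj h5)
  · exact h4

theorem tr_mod {ψ : ZMod d → ℂ} (hψ : Fid ψ) {A : Matrix (ZMod d) (ZMod d) ℂ} (h : Sy ψ A)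
    {q : V d} (hq : q ∈ Kp A) : ‖(star (D q) * A).trace‖ ^ 2 = (Km A).card := by
  obtain ⟨T, hT⟩ : ∃ T, T = star (D q) * A := ⟨_, rfl⟩
  rw [← hT]
  have hTT : T * star T = 1 := by
    rw [hT, star_mul, star_star, mul_assoc, ← mul_assoc A, h.uni', one_mul, star_mul_D]
  have h1 : ∀ p : V d, (D p * T * star (D p) * star T).trace =
      if p ∈ Km A then (d : ℂ) else 0 := by
    intro p
    by_cases hp : p ∈ Km A
    · rw [if_pos hp]
      have h2 : D p * T = T * D p := by
        rw [hT, ← mul_assoc, D_star_comm, mem_Kp.1 hq p hp, neg_zero, e_zero, one_smul, mul_assoc,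
          mul_assoc, mem_Km.1 hp]
      rw [h2, mul_assoc T, D_mul_star, mul_one, hTT, Matrix.trace_one]
      simp [ZMod.card]
    · rw [if_neg hp]
      obtain ⟨a', b', c, hc⟩ := h.nrm p.1 p.2
      have hc' : A * D p = c • (D (a', b') * A) := hc
      have hne : p ≠ (a', b') := by
        intro h3
        rw [← h3] at hc'
        exact hp (mem_Km.2 (h.c_one hψ hc'))
      have h4 : D p * T * star (D p) * star T =
          conj c • (D p * star (D q) * star (D (a', b')) * D q) := by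
        rw [hT, star_mul, star_star]
        calc D p * (star (D q) * A) * star (D p) * (star A * D q)
            = D p * star (D q) * (A * star (D p) * star A) * D q := by
              simp only [mul_assoc]
          _ = _ := by
              rw [conj_star h.uni' hc', Matrix.mul_smul, Matrix.smul_mul]
      rw [h4, Matrix.trace_smul]
      have h5 : ∃ z : ℂ, D p * star (D q) * star (D (a', b')) * D q = z • D (p - (a', b')) := by
        simp only [star_D, Matrix.mul_smul, Matrix.smul_mul, D_mul, smul_smul]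
        rw [show p + -q + -(a', b') + q = p - (a', b') by abel]
        exact ⟨_, rfl⟩
      obtain ⟨z, hz⟩ := h5
      rw [hz, Matrix.trace_smul, trace_D, if_neg (sub_ne_zero.2 hne)]
      simp
  have h2 := twirl T
  have h3 : (∑ p, D p * T * star (D p) * star T).trace = d * T.trace * (star T).trace := by
    rw [← Finset.sum_mul, h2, Matrix.smul_mul, one_mul, Matrix.trace_smul, smul_eq_mul]
  rw [Matrix.trace_sum, Finset.sum_congr rfl fun p _ => h1 p, Finset.sum_ite_mem,
    Finset.univ_inter, Finset.sum_const, nsmul_eq_mul] at h3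
  have h4 : (star T).trace = conj T.trace := Matrix.trace_conjTranspose T
  rw [h4, mul_assoc, Complex.mul_conj, Complex.normSq_eq_norm_sq, mul_comm] at h3
  have h5 := mul_left_cancel₀ dne h3
  exact_mod_cast h5.symm

theorem co_zero {A : Matrix (ZMod d) (ZMod d) ℂ} {q : V d} (hq : q ∉ Kp A) : co A q = 0 := by
  rw [mem_Kp] at hq
  push Not at hq
  obtain ⟨p, hp, h⟩ := hq
  rw [co, tr_zero hp h, zero_div]

theorem co_mod {ψ : ZMod d → ℂ} (hψ : Fid ψ) {A : Matrix (ZMod d) (ZMod d) ℂ} (h : Sy ψ A)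
    {q : V d} (hq : q ∈ Kp A) : ‖co A q‖ ^ 2 = (Km A).card / (d : ℝ) ^ 2 := by
  rw [co, norm_div, div_pow, tr_mod hψ h hq, Complex.norm_natCast]

theorem card_mul {ψ : ZMod d → ℂ} (hψ : Fid ψ) {A : Matrix (ZMod d) (ZMod d) ℂ} (h : Sy ψ A) :
    (Kp A).card * (Km A).card = d ^ 2 := by
  have h1 := parseval A
  rw [h.uni, Matrix.trace_one] at h1
  have h2 : ∑ p, ‖co A p‖ ^ 2 = (Kp A).card * ((Km A).card / (d : ℝ) ^ 2) := by
    rw [← Finset.sum_subset (Finset.subset_univ (Kp A)) (fun q _ hq => by rw [co_zero hq]; simp),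
      Finset.sum_congr rfl fun q hq => co_mod hψ h hq, Finset.sum_const, nsmul_eq_mul]
  rw [h2] at h1
  have h3 : (d : ℝ) = d * ((Kp A).card * ((Km A).card / (d : ℝ) ^ 2)) := by
    have : ((Fintype.card (ZMod d) : ℝ) : ℂ) = ((d * ((Kp A).card * ((Km A).card / (d : ℝ) ^ 2)) : ℝ) : ℂ) := by
      rw [← h1]; simp
    rw [ZMod.card] at this
    exact_mod_cast this
  have h4 := dpos (d := d)
  have h5 : ((Kp A).card * (Km A).card : ℝ) = (d : ℝ) ^ 2 := by
    field_simp at h3
    nlinarith [h3]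
  exact_mod_cast h5

end Pool.Agent.Zk49.SF
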